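import Pool.Agent.RTB.Crv.Stmts

/-!
# squad RTB, module BTB: the basis of the ring of functions regular outside the marked point
-/

set_option autoImplicit false

namespace Pool.Agent.RTB.Crv

open Module

namespace BTB_

section
variable {K : Type} [Field K] [Algebra ℂ K] (V : Val K)

theorem ord_pow (p : Pt K) {x : K} (hx : x ≠ 0) (n : ℕ) : V.ord p (x ^ n) = n * V.ord p x := by
  induction n with
  | zero => rw [pow_zero, V.ord_one]; simp
  | succ n ih =>
    rw [pow_succ, V.mul p _ _ (pow_ne_zero n hx) hx, ih]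
    push_cast
    ring

theorem Lp_mono (p : Pt K) {m n : ℤ} (h : m ≤ n) : V.Lp p m ≤ V.Lp p n := by
  intro x hx
  rcases hx with hx | hx
  · exact Or.inl hx
  · exact Or.inr (by linarith)

theorem L_mono {D D' : Pt K →₀ ℤ} (h : D ≤ D') : V.L D ≤ V.L D' := by
  intro x hx
  rw [V.mem_L] at hx ⊢
  exact fun p => Lp_mono V p (h p) (hx p)

theorem dg_np (p : Pt K) (n : ℤ) : dg (np p n) = n := by
  rw [dg, np, Finsupp.sum_single_index rfl]

theorem np_mono (p : Pt K) {m n : ℤ} (h : m ≤ n) : np p m ≤ np p n := by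
  intro q
  classical
  rw [np, np, Finsupp.single_apply, Finsupp.single_apply]
  split_ifs
  · exact h
  · exact le_refl _

end

/-- independence from distinct pole orders -/
theorem indep_of_orders {K : Type} [Field K] [Algebra ℂ K] (V : Val K) (p : Pt K) (β : ℕ → K)
    (w : ℕ → ℤ) (hw : StrictMono w) (h0 : ∀ j, β j ≠ 0) (ho : ∀ j, V.ord p (β j) = - w j) :
    LinearIndependent ℂ β := by
  classical
  rw [linearIndependent_iff']
  intro s a hs
  by_contra hcon
  push Not at hcon
  set t := s.filter (fun i => a i ≠ 0) with ht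
  have htne : t.Nonempty := by
    obtain ⟨i, hi, hai⟩ := hcon
    exact ⟨i, by rw [ht, Finset.mem_filter]; exact ⟨hi, hai⟩⟩
  set l := t.max' htne with hl
  have hlt : l ∈ t := Finset.max'_mem t htne
  have hal : a l ≠ 0 := (Finset.mem_filter.mp hlt).2
  have hsum : ∑ i ∈ t, a i • β i = 0 := by
    rw [ht, Finset.sum_filter]
    refine Eq.trans (Finset.sum_congr rfl fun i _ => ?_) hs
    by_cases h : a i = 0
    · rw [if_neg (not_not.mpr h), h, zero_smul]
    · rw [if_pos h]
  have h1 : a l • β l = - ∑ i ∈ t.erase l, a i • β i := by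
    have := Finset.add_sum_erase t (fun i => a i • β i) hlt
    rw [hsum] at this
    exact eq_neg_of_add_eq_zero_left this
  have h2 : ∑ i ∈ t.erase l, a i • β i ∈ V.Lp p (w l - 1) := by
    refine Submodule.sum_mem _ fun i hi => Submodule.smul_mem _ _ ?_
    have hne : i ≠ l := (Finset.mem_erase.mp hi).1
    have hle : i ≤ l := Finset.le_max' t i (Finset.mem_erase.mp hi).2
    have hwi : w i < w l := hw (lt_of_le_of_ne hle hne)
    right
    rw [ho]
    linarith
  have h3 : β l ∈ V.Lp p (w l - 1) := by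
    have h4 : a l • β l ∈ V.Lp p (w l - 1) := by
      rw [h1]; exact Submodule.neg_mem _ h2
    have h5 := Submodule.smul_mem _ (a l)⁻¹ h4
    rwa [smul_smul, inv_mul_cancel₀ hal, one_smul] at h5
  rcases h3 with h3 | h3
  · exact h0 l h3
  · rw [ho] at h3
    linarith

end BTB_

open BTB_ in
theorem btb_proof (hVALO : Stmt_VALO) (hCFM : Stmt_CFM) (hPOL : Stmt_POL) : Stmt_BTB := by
  classical
  intro g X hg
  obtain ⟨V⟩ := hVALO X.K X.isFF
  have hcf : CF g V := hCFM g X V
  have hR : ∀ n : ℕ, X.R n = V.L (np X.pt (n : ℤ)) := fun n => (hPOL X.K V X.pt X.pt n).2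
  have hR' : ∀ n : ℕ, (⨅ q, polar X.pt n q : Submodule ℂ X.K) = V.L (np X.pt (n : ℤ)) :=
    fun n => (hPOL X.K V X.pt X.pt n).2
  -- membership
  have hmemR : ∀ (n : ℕ) (x : X.K), x ∈ X.R n ↔ x = 0 ∨
      (-(n : ℤ) ≤ V.ord X.pt x ∧ ∀ q, q ≠ X.pt → 0 ≤ V.ord q x) := by
    intro n x
    rw [hR, V.mem_L]
    constructor
    · intro h
      by_cases hx : x = 0
      · exact Or.inl hx
      right
      constructor
      · rcases h X.pt with h1 | h1
        · exact absurd h1 hx
        · rwa [np, Finsupp.single_eq_same] at h1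
      · intro q hq
        rcases h q with h1 | h1
        · exact absurd h1 hx
        · rwa [np, Finsupp.single_eq_of_ne hq, neg_zero] at h1
    · rintro (h | ⟨h1, h2⟩) q
      · exact Or.inl h
      · right
        by_cases hq : q = X.pt
        · subst hq
          rw [np, Finsupp.single_eq_same]; exact h1
        · rw [np, Finsupp.single_eq_of_ne hq, neg_zero]; exact h2 q hq
  -- the orders of the `y i`
  have hy : ∀ i : Fin (g + 1), X.y i ≠ 0 ∧ V.ord X.pt (X.y i) = -((g : ℤ) + 1 + (i : ℕ)) ∧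
      ∀ q, q ≠ X.pt → 0 ≤ V.ord q (X.y i) := by
    intro i
    obtain ⟨h1, h2⟩ := X.pole i
    have h1' : X.y i ∈ X.R (g + 1 + (i : ℕ)) := h1
    have h2' : X.y i ∉ X.R (g + (i : ℕ)) := h2
    rw [hmemR] at h1' h2'
    push Not at h2'
    obtain ⟨hne, h2'⟩ := h2'
    rcases h1' with h1' | ⟨h3, h4⟩
    · exact absurd h1' hne
    refine ⟨hne, ?_, h4⟩
    by_contra hcon
    have h5 : -((g + (i : ℕ) : ℕ) : ℤ) ≤ V.ord X.pt (X.y i) := by
      push_cast at h3 ⊢
      have : V.ord X.pt (X.y i) ≠ -((g : ℤ) + 1 + (i : ℕ)) := hcon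
      omega
    obtain ⟨q, hq, hlt⟩ := h2' h5
    have := h4 q hq
    linarith
  -- the orders of the `β j`
  set w : ℕ → ℤ := fun j => if j = 0 then 0 else (g : ℤ) + j with hwdef
  have hwmono : StrictMono w := by
    intro a b hab
    simp only [hwdef]
    have hb : b ≠ 0 := by omega
    rw [if_neg hb]
    split_ifs with h
    · omega
    · omega
  have hβ : ∀ j, X.β j ≠ 0 ∧ V.ord X.pt (X.β j) = - w j ∧
      ∀ q, q ≠ X.pt → 0 ≤ V.ord q (X.β j) := by
    intro j
    by_cases hj : j = 0
    · subst hj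
      have hb : X.β 0 = 1 := by simp [MarkedCurve.β]
      rw [hb]
      refine ⟨one_ne_zero, ?_, fun q _ => ?_⟩
      · rw [V.ord_one]; simp [hwdef]
      · rw [V.ord_one]
    · have hb : X.β j = X.y 0 ^ ((g + j) / (g + 1) - 1) *
        X.y ⟨(g + j) % (g + 1), Nat.mod_lt _ (Nat.succ_pos g)⟩ := by
        rw [MarkedCurve.β, if_neg hj]
      set m : Fin (g + 1) := ⟨(g + j) % (g + 1), Nat.mod_lt _ (Nat.succ_pos g)⟩ with hm
      obtain ⟨hm0, hm1, hm2⟩ := hy m
      obtain ⟨h00, h01, h02⟩ := hy 0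
      have hp0 : X.y 0 ^ ((g + j) / (g + 1) - 1) ≠ 0 := pow_ne_zero _ h00
      rw [hb]
      refine ⟨mul_ne_zero hp0 hm0, ?_, fun q hq => ?_⟩
      · rw [V.mul _ _ _ hp0 hm0, ord_pow V _ h00, hm1, h01]
        have hd : 1 ≤ (g + j) / (g + 1) := by
          rw [Nat.one_le_div_iff (Nat.succ_pos g)]; omega
        have hdm : (g + 1) * ((g + j) / (g + 1)) + (g + j) % (g + 1) = g + j :=
          Nat.div_add_mod _ _
        have hmv : (m : ℕ) = (g + j) % (g + 1) := rfl
        rw [hmv]
        simp only [hwdef, if_neg hj]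
        rw [Nat.cast_sub hd]
        have hdm' : ((g : ℤ) + 1) * (((g + j) / (g + 1) : ℕ) : ℤ) +
          (((g + j) % (g + 1) : ℕ) : ℤ) = (g : ℤ) + j := by exact_mod_cast hdm
        have h0v : (((0 : Fin (g + 1)) : ℕ) : ℤ) = 0 := by simp
        rw [h0v]
        push_cast
        linarith
      · rw [V.mul _ _ _ hp0 hm0, ord_pow V _ h00]
        have h1 := hm2 q hq
        have h2 := h02 q hq
        positivity
  have hβmem : ∀ j, X.β j ∈ X.R (g + j) := by
    intro j
    rw [hmemR]
    right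
    refine ⟨?_, (hβ j).2.2⟩
    rw [(hβ j).2.1]
    simp only [hwdef]
    push_cast
    split_ifs
    · omega
    · omega
  have hβ0mem : ∀ n, X.β 0 ∈ X.R n := by
    intro n
    rw [hmemR]
    right
    refine ⟨?_, (hβ 0).2.2⟩
    rw [(hβ 0).2.1]
    simp [hwdef]
  have hind : LinearIndependent ℂ X.β :=
    indep_of_orders V X.pt X.β w hwmono (fun j => (hβ j).1) (fun j => (hβ j).2.1)
  have hRmono : ∀ {m n : ℕ}, m ≤ n → X.R m ≤ X.R n := by
    intro m n h
    rw [hR, hR]
    exact L_mono V (np_mono X.pt (by exact_mod_cast h))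
  -- the spaces
  have hell : V.ell (np X.pt (g : ℤ)) = 1 := by
    have h1 := X.nonW
    rw [h0, hR' g] at h1
    rw [Val.ell, h1]
    rfl
  have hbig : ∀ n : ℕ, g ≤ n → X.R n = Rn ℂ g X.β n := by
    intro n hn
    symm
    have hle : Rn ℂ g X.β n ≤ X.R n := by
      rw [Rn, Submodule.span_le]
      rintro _ ⟨l, hl, rfl⟩
      rw [Set.mem_Iic] at hl
      exact hRmono (by omega) (hβmem l)
    have hfd : FiniteDimensional ℂ (X.R n) := by
      rw [hR]; exact hcf.fd _
    have hdim : finrank ℂ (X.R n) ≤ n - g + 1 := by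
      have h1 := hcf.mono (np X.pt (g : ℤ)) (np X.pt (n : ℤ))
        (np_mono X.pt (by exact_mod_cast hn))
      rw [hell, dg_np, dg_np, Val.ell] at h1
      rw [hR]
      omega
    have hdim2 : finrank ℂ (Rn ℂ g X.β n) = n - g + 1 := by
      rw [Rn]
      have h1 : X.β '' Set.Iic (n - g) =
          Set.range (fun i : Fin (n - g + 1) => X.β (i : ℕ)) := by
        ext x
        constructor
        · rintro ⟨l, hl, rfl⟩
          rw [Set.mem_Iic] at hl
          exact ⟨⟨l, by omega⟩, rfl⟩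
        · rintro ⟨i, rfl⟩
          exact ⟨i, by rw [Set.mem_Iic]; have := i.2; omega, rfl⟩
      rw [h1]
      have h2 : LinearIndependent ℂ (fun i : Fin (n - g + 1) => X.β (i : ℕ)) :=
        hind.comp _ Fin.val_injective
      rw [finrank_span_eq_card h2, Fintype.card_fin]
    exact Submodule.eq_of_le_of_finrank_le hle (by rw [hdim2]; exact hdim)
  have hall : ∀ n : ℕ, X.R n = Rn ℂ g X.β n := by
    intro n
    rcases le_total g n with hn | hn
    · exact hbig n hn
    · apply le_antisymm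
      · have h1 : X.R n ≤ X.R g := hRmono hn
        rw [hbig g le_rfl] at h1
        refine h1.trans (le_of_eq ?_)
        rw [Rn, Rn]
        have h2 : g - g = n - g := by omega
        rw [h2]
      · rw [Rn, Submodule.span_le]
        rintro _ ⟨l, hl, rfl⟩
        rw [Set.mem_Iic] at hl
        have hl0 : l = 0 := by omega
        subst hl0
        exact hβ0mem n
  refine ⟨hind, hall, hβmem, ?_⟩
  intro m n x y hx hy'
  rw [hmemR] at hx hy' ⊢
  rcases hx with hx | ⟨hx1, hx2⟩
  · left; rw [hx, zero_mul]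
  rcases hy' with hy' | ⟨hy1, hy2⟩
  · left; rw [hy', mul_zero]
  by_cases hx0 : x = 0
  · left; rw [hx0, zero_mul]
  by_cases hy0 : y = 0
  · left; rw [hy0, mul_zero]
  right
  refine ⟨?_, fun q hq => ?_⟩
  · rw [V.mul _ _ _ hx0 hy0]; push_cast; linarith
  · rw [V.mul _ _ _ hx0 hy0]
    have h1 := hx2 q hq
    have h2 := hy2 q hq
    linarith

end Pool.Agent.RTB.Crv
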