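import Pool.Agent.RTB.Crv.Stmts

/-!
# squad RTB, module BTG: the multiplication table of the basis
-/

set_option autoImplicit false

namespace Pool.Agent.RTB.Crv

open Module

namespace BTG_

theorem beta_bidx {g : ℕ} (X : MarkedCurve g) (E : ℕ) (r : Fin (g + 1)) :
    X.y 0 ^ E * (if r = 0 then 1 else X.y r) = X.β (bidx g E (r : ℕ)) := by
  by_cases hr : r = 0
  · subst hr
    rw [if_pos rfl, mul_one]
    by_cases hE : E = 0
    · subst hE
      simp [bidx, MarkedCurve.β]
    · have h1 : bidx g E ((0 : Fin (g + 1)) : ℕ) = (g + 1) * E - g := by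
        simp [bidx, hE]
      rw [h1]
      have h2 : g + 1 ≤ (g + 1) * E := Nat.le_mul_of_pos_right _ (Nat.pos_of_ne_zero hE)
      have h3 : (g + 1) * E - g ≠ 0 := by omega
      have h4 : g + ((g + 1) * E - g) = (g + 1) * E := by omega
      rw [MarkedCurve.β, if_neg h3]
      have h5 : (⟨(g + ((g + 1) * E - g)) % (g + 1), Nat.mod_lt _ (Nat.succ_pos g)⟩ :
          Fin (g + 1)) = 0 := by
        apply Fin.ext
        show (g + ((g + 1) * E - g)) % (g + 1) = _
        rw [h4, Nat.mul_mod_right]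
        rfl
      rw [h5, h4, Nat.mul_div_cancel_left _ (Nat.succ_pos g), ← pow_succ]
      congr 1
      omega
  · have hr0 : (r : ℕ) ≠ 0 := fun h => hr (Fin.ext h)
    rw [if_neg hr]
    have h1 : bidx g E (r : ℕ) = (g + 1) * (E + 1) + r - g := by
      simp [bidx, hr0]
    rw [h1]
    have h2 : g + 1 ≤ (g + 1) * (E + 1) := Nat.le_mul_of_pos_right _ (Nat.succ_pos _)
    have h3 : (g + 1) * (E + 1) + r - g ≠ 0 := by omega
    have h4 : g + ((g + 1) * (E + 1) + r - g) = (g + 1) * (E + 1) + r := by omega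
    rw [MarkedCurve.β, if_neg h3]
    have h5 : (⟨(g + ((g + 1) * (E + 1) + r - g)) % (g + 1), Nat.mod_lt _ (Nat.succ_pos g)⟩ :
        Fin (g + 1)) = r := by
      apply Fin.ext
      show (g + ((g + 1) * (E + 1) + r - g)) % (g + 1) = _
      rw [h4, Nat.mul_add_mod, Nat.mod_eq_of_lt r.2]
    rw [h5, h4]
    have h6 : ((g + 1) * (E + 1) + (r : ℕ)) / (g + 1) = E + 1 := by
      rw [Nat.mul_add_div (Nat.succ_pos g), Nat.div_eq_of_lt r.2, add_zero]
    rw [h6, Nat.add_sub_cancel]

end BTG_

open BTG_ in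
theorem btg_proof (hBTB : Stmt_BTB) : Stmt_BTG := by
  intro g X hg
  obtain ⟨hind, hR, hmem, hmul⟩ := hBTB g X hg
  refine ⟨hind, hR, ?_⟩
  intro i j
  by_cases hi : i = 0
  · subst hi
    have hb : X.β 0 = 1 := by simp [MarkedCurve.β]
    rw [hb, one_mul]
    have h1 : ∀ l ∈ Finset.range (0 + j + g + 1), gam g X.c 0 j l • X.β l =
        if l = j then X.β l else 0 := by
      intro l _
      by_cases h : l = j
      · simp [gam, h]
      · simp [gam, h]
    rw [Finset.sum_congr rfl h1, Finset.sum_ite_eq' (Finset.range (0 + j + g + 1)) j X.β,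
      if_pos (Finset.mem_range.mpr (by omega))]
  by_cases hj : j = 0
  · subst hj
    have hb : X.β 0 = 1 := by simp [MarkedCurve.β]
    rw [hb, mul_one]
    have h1 : ∀ l ∈ Finset.range (i + 0 + g + 1), gam g X.c i 0 l • X.β l =
        if l = i then X.β l else 0 := by
      intro l _
      by_cases h : l = i
      · simp [gam, h, hi]
      · simp [gam, h, hi]
    rw [Finset.sum_congr rfl h1, Finset.sum_ite_eq' (Finset.range (i + 0 + g + 1)) i X.β,
      if_pos (Finset.mem_range.mpr (by omega))]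
  -- the main case
  set a : ℕ := (g + i) / (g + 1) - 1 with ha
  set b : ℕ := (g + j) / (g + 1) - 1 with hb
  set m : Fin (g + 1) := ⟨(g + i) % (g + 1), Nat.mod_lt _ (Nat.succ_pos g)⟩ with hm
  set n : Fin (g + 1) := ⟨(g + j) % (g + 1), Nat.mod_lt _ (Nat.succ_pos g)⟩ with hn
  have hbi : X.β i = X.y 0 ^ a * X.y m := by rw [MarkedCurve.β, if_neg hi]
  have hbj : X.β j = X.y 0 ^ b * X.y n := by rw [MarkedCurve.β, if_neg hj]
  -- the product as a combination
  have hprod : X.β i * X.β j = ∑ e : Fin 4, ∑ r : Fin (g + 1),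
      X.c (m, n, e, r) • X.β (bidx g (a + b + (e : ℕ)) (r : ℕ)) := by
    have h1 : X.β i * X.β j = X.y 0 ^ (a + b) * (X.y m * X.y n) := by
      rw [hbi, hbj, pow_add]; ring
    rw [h1, X.table m n, Finset.mul_sum]
    refine Finset.sum_congr rfl fun e _ => ?_
    rw [Finset.mul_sum]
    refine Finset.sum_congr rfl fun r _ => ?_
    rw [mul_smul_comm, ← mul_assoc, ← pow_add, beta_bidx]
  set f : ℕ →₀ ℂ := ∑ e : Fin 4, ∑ r : Fin (g + 1),
    Finsupp.single (bidx g (a + b + (e : ℕ)) (r : ℕ)) (X.c (m, n, e, r)) with hf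
  have hfl : ∀ l, f l = gam g X.c i j l := by
    intro l
    rw [hf, Finsupp.finsetSum_apply, gam, if_neg hi, if_neg hj]
    refine Finset.sum_congr rfl fun e _ => ?_
    rw [Finsupp.finsetSum_apply]
    refine Finset.sum_congr rfl fun r _ => ?_
    rw [Finsupp.single_apply]
  have hfc : Finsupp.linearCombination ℂ X.β f = X.β i * X.β j := by
    rw [hprod, hf, map_sum]
    refine Finset.sum_congr rfl fun e _ => ?_
    rw [map_sum]
    refine Finset.sum_congr rfl fun r _ => ?_
    rw [Finsupp.linearCombination_single]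
  -- the product is in a small space
  have hin : X.β i * X.β j ∈ Submodule.span ℂ (X.β '' Set.Iic (i + j + g)) := by
    have h1 := hmul _ _ _ _ (hmem i) (hmem j)
    rw [hR, Rn] at h1
    have h2 : g + i + (g + j) - g = i + j + g := by omega
    rw [h2] at h1
    exact h1
  rw [Finsupp.mem_span_image_iff_linearCombination] at hin
  obtain ⟨f', hf's, hf'c⟩ := hin
  have hff : f = f' := by
    apply hind
    rw [hfc, hf'c]
  have hsupp : f.support ⊆ Finset.range (i + j + g + 1) := by
    intro l hl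
    rw [hff] at hl
    rw [Finsupp.mem_supported] at hf's
    have := hf's hl
    rw [Set.mem_Iic] at this
    exact Finset.mem_range.mpr (by omega)
  rw [← hfc, Finsupp.linearCombination_apply, Finsupp.sum_of_support_subset f hsupp]
  · refine Finset.sum_congr rfl fun l _ => ?_
    rw [hfl]
  · intro l _
    rw [zero_smul]

end Pool.Agent.RTB.Crv
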