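import Pool.Agent.RTB.Crv.Stmts

/-!
# RTB, module CFM: the facts on divisors on a marked curve
-/

set_option autoImplicit false

namespace Pool.Agent.RTB.Crv

open Module

namespace CFM_

variable {K : Type} [Field K] [Algebra ℂ K]

theorem iter (hTWI : Stmt_TWI) (V : Val K) {x : K} (hx : x ≠ 0) (n : ℕ) :
    V.ell (n • V.dv x) = V.ell 0 ∧ dg (n • V.dv x) = n * dg (V.dv x) := by
  induction n with
  | zero =>
    rw [zero_smul]
    refine ⟨rfl, ?_⟩
    rw [Nat.cast_zero, zero_mul, dg, Finsupp.sum_zero_index]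
  | succ n ih =>
    obtain ⟨-, h2, h3, -⟩ := hTWI K V (n • V.dv x) x hx
    rw [succ_nsmul, h2, h3, ih.1, ih.2]
    refine ⟨rfl, ?_⟩
    push_cast
    ring

theorem dv_le (hTWI : Stmt_TWI) (V : Val K) (g : ℕ)
    (hr : ∀ D : Pt K →₀ ℤ, dg D + 1 - g ≤ V.ell D) {x : K} (hx : x ≠ 0) :
    dg (V.dv x) ≤ 0 := by
  by_contra hpos
  push Not at hpos
  have h0 : 0 ≤ V.ell 0 := by rw [Val.ell]; exact Int.natCast_nonneg _
  obtain ⟨m, hm⟩ := Int.eq_ofNat_of_zero_le h0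
  obtain ⟨h1, h2⟩ := iter hTWI V hx (m + g)
  have h3 := hr ((m + g) • V.dv x)
  rw [h1, h2, hm] at h3
  push_cast at h3
  have h4 : (m : ℤ) + g ≤ (m + g) * dg (V.dv x) := by
    have h5 : (0 : ℤ) ≤ (m : ℤ) + g := by positivity
    nlinarith
  linarith

theorem dg_sub (D D' : Pt K →₀ ℤ) : dg (D - D') = dg D - dg D' := by
  rw [dg, dg, dg]
  exact Finsupp.sum_sub_index (fun _ _ _ => rfl)

end CFM_

open CFM_ in
theorem cfm_proof (hGNS : Stmt_GNS) (hDGM : Stmt_DGM) (hPOL : Stmt_POL) (hELL : Stmt_ELL)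
    (hTWI : Stmt_TWI) : Stmt_CFM := by
  intro g X V
  have hr : ∀ D : Pt X.K →₀ ℤ, dg D + 1 - g ≤ V.ell D := by
    intro D
    have h1 := ((hGNS X.K V g).mp X.genus).1 D
    linarith
  have hfd : ∀ D : Pt X.K →₀ ℤ, FiniteDimensional ℂ (V.L D) :=
    fun D => (hELL X.K V D D le_rfl).2.1
  have hmono : ∀ D D' : Pt X.K →₀ ℤ, D ≤ D' → V.ell D' ≤ V.ell D + (dg D' - dg D) :=
    fun D D' h => (hELL X.K V D D' h).2.2
  have hdv : ∀ x : X.K, x ≠ 0 → dg (V.dv x) = 0 := by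
    intro x hx
    have h1 := dv_le hTWI V g hr hx
    have h2 := dv_le hTWI V g hr (inv_ne_zero hx)
    obtain ⟨-, -, -, h3⟩ := hTWI X.K V 0 x hx
    rw [h3] at h2
    have h4 : dg (- V.dv x) = - dg (V.dv x) := by
      rw [dg, dg, Finsupp.sum_neg_index (fun _ => rfl), Finsupp.sum, Finsupp.sum,
        ← Finset.sum_neg_distrib]
    rw [h4] at h2
    linarith
  refine ⟨hfd, hmono, hdv, hr, ?_⟩
  intro D hD
  apply le_antisymm _ (by have := hr D; linarith)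
  have hnp : dg (np X.pt (g : ℤ)) = g := by
    rw [dg, np, Finsupp.sum_single_index rfl]
  have hsub : dg (D - np X.pt (g : ℤ)) = dg D - g := by
    rw [dg_sub, hnp]
  have h1 := hr (D - np X.pt (g : ℤ))
  rw [hsub] at h1
  have h2 : 0 < finrank ℂ (V.L (D - np X.pt (g : ℤ))) := by
    have h3 : (0 : ℤ) < V.ell (D - np X.pt (g : ℤ)) := by linarith
    rw [Val.ell] at h3
    exact_mod_cast h3
  have := hfd (D - np X.pt (g : ℤ))
  have hnt : Nontrivial (V.L (D - np X.pt (g : ℤ))) := Module.finrank_pos_iff.mp h2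
  obtain ⟨⟨f, hf⟩, hf0⟩ := exists_ne (0 : V.L (D - np X.pt (g : ℤ)))
  have hf0' : f ≠ 0 := by
    rintro rfl
    exact hf0 rfl
  have h3 : np X.pt (g : ℤ) ≤ D + V.dv f := by
    intro p
    have h4 := (Val.mem_L V).mp hf p
    rw [Val.mem_Lp] at h4
    rcases h4 with h4 | h4
    · exact absurd h4 hf0'
    · rw [Finsupp.sub_apply] at h4
      rw [Finsupp.add_apply, Val.dv_apply V hf0']
      linarith
  have h4 := hmono _ _ h3
  obtain ⟨-, h5, h6, -⟩ := hTWI X.K V D f hf0'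
  rw [h5, h6, hdv f hf0', hnp] at h4
  have h7 : V.ell (np X.pt (g : ℤ)) = 1 := by
    obtain ⟨-, h8, -⟩ := hDGM X.K V (polar X.pt g) (np X.pt (g : ℤ))
      (fun p => (hPOL X.K V X.pt p g).1)
    rw [← h8, X.nonW]
    rfl
  rw [h7] at h4
  linarith

end Pool.Agent.RTB.Crv
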