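import Pool.Agent.RTB.Crv.Stmts

/-!
# squad RTB, module CON: functions without poles are constant
-/

set_option autoImplicit false

namespace Pool.Agent.RTB.Crv

open Module

open Polynomial in
theorem con_proof : Stmt_CON := by
  intro K _ _ _ x hx
  have hmem : x ∈ (⨅ V : {V : ValuationSubring K // Set.range (algebraMap ℂ K) ⊆ V.toSubring},
      V.1.toSubring) := by
    rw [Subring.mem_iInf]
    rintro ⟨V, hV⟩
    by_cases h : V = ⊤
    · subst h
      exact ValuationSubring.mem_top x
    · exact hx ⟨V, fun z => hV ⟨z, rfl⟩, h⟩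
  rw [iInf_valuationSubring_superset] at hmem
  have hint : IsIntegral (Subring.closure (Set.range (algebraMap ℂ K))) x := hmem
  obtain ⟨p, hpm, hp0⟩ := hint
  have hrange : ∀ y : Subring.closure (Set.range (algebraMap ℂ K)),
      ∃ z : ℂ, algebraMap ℂ K z = (y : K) := by
    intro y
    have h1 : Subring.closure (Set.range (algebraMap ℂ K)) ≤ (algebraMap ℂ K).range := by
      rw [Subring.closure_le]
      rintro _ ⟨z, rfl⟩
      exact ⟨z, rfl⟩
    exact h1 y.2
  have hlift : p.map (algebraMap (Subring.closure (Set.range (algebraMap ℂ K))) K) ∈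
      Polynomial.lifts (algebraMap ℂ K) := by
    rw [Polynomial.lifts_iff_coeff_lifts]
    intro n
    rw [Polynomial.coeff_map]
    obtain ⟨z, hz⟩ := hrange (p.coeff n)
    exact ⟨z, hz⟩
  obtain ⟨q, hq, _, hqm⟩ := Polynomial.lifts_and_degree_eq_and_monic hlift (hpm.map _)
  have hxint : IsIntegral ℂ x := by
    refine ⟨q, hqm, ?_⟩
    rw [← Polynomial.eval_map, hq, Polynomial.eval_map]
    exact hp0
  have hirr := minpoly.irreducible hxint
  have hdeg := IsAlgClosed.degree_eq_one_of_irreducible ℂ hirr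
  obtain ⟨z, hz⟩ := minpoly.mem_range_of_degree_eq_one ℂ x hdeg
  exact ⟨z, hz.symm⟩

end Pool.Agent.RTB.Crv
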