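import Pool.Agent.RTB.Crv.Stmts

/-!
# squad RTB, module C.DED: the integral closure of `ℂ[x]`
-/

set_option autoImplicit false

open Polynomial

namespace Pool.Agent.RTB.Crv

open Module

namespace DED_

theorem pid {K : Type} [Field K] [Algebra ℂ K] (x : K) (hx : Transcendental ℂ x) :
    IsPrincipalIdealRing (Algebra.adjoin ℂ {x}) :=
  IsPrincipalIdealRing.of_surjective (algEquivOfTranscendental ℂ x hx).toRingEquiv
    (algEquivOfTranscendental ℂ x hx).surjective

theorem mem_ring {K : Type} [Field K] [Algebra ℂ K] (x : K) (p : Pt K) (hx : x ∈ p.ring)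
    (b : K) (hb : IsIntegral (Algebra.adjoin ℂ {x}) b) : b ∈ p.ring := by
  have hle : ∀ y ∈ Algebra.adjoin ℂ {x}, y ∈ p.ring := by
    intro y hy
    induction hy using Algebra.adjoin_induction with
    | mem z hz =>
      rw [Set.mem_singleton_iff] at hz
      rw [hz]
      exact hx
    | algebraMap z => exact p.const z
    | add a c _ _ ha hc => exact p.ring.add_mem _ _ ha hc
    | mul a c _ _ ha hc => exact p.ring.mul_mem _ _ ha hc
  let i : Algebra.adjoin ℂ {x} →+* p.ring :=
    { toFun := fun y => ⟨y.1, hle y.1 y.2⟩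
      map_one' := rfl
      map_mul' := fun a c => rfl
      map_zero' := rfl
      map_add' := fun a c => rfl }
  obtain ⟨P, hP, hPb⟩ := hb
  have h1 : IsIntegral p.ring b := by
    refine ⟨P.map i, hP.map i, ?_⟩
    rw [Polynomial.eval₂_map]
    exact hPb
  obtain ⟨y, hy⟩ := IsIntegrallyClosed.isIntegral_iff.mp h1
  rw [← hy]
  exact y.2

end DED_

open DED_

theorem ded_proof (hFFX : Stmt_FFX) : Stmt_DED := by
  intro K _ _ hK x hx
  have hfin := hFFX K hK x hx
  have : IsPrincipalIdealRing (Algebra.adjoin ℂ {x}) := pid x hx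
  have : CharZero K := charZero_of_injective_algebraMap (algebraMap ℂ K).injective
  open IntermediateField.algebraAdjoinAdjoin in
  have h1 : IsDedekindDomain (integralClosure (Algebra.adjoin ℂ {x}) K) :=
    integralClosure.isDedekindDomain (Algebra.adjoin ℂ {x}) (IntermediateField.adjoin ℂ {x}) K
  open IntermediateField.algebraAdjoinAdjoin in
  have h2 : IsFractionRing (integralClosure (Algebra.adjoin ℂ {x}) K) K :=
    integralClosure.isFractionRing_of_finite_extension (IntermediateField.adjoin ℂ {x}) K
  refine ⟨(integralClosure (Algebra.adjoin ℂ {x}) K).restrictScalars ℂ, ?_, h1, h2, ?_⟩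
  · show x ∈ integralClosure (Algebra.adjoin ℂ {x}) K
    exact isIntegral_algebraMap (R := Algebra.adjoin ℂ {x})
      (x := (⟨x, Algebra.subset_adjoin rfl⟩ : Algebra.adjoin ℂ {x}))
  · intro p hp b hb
    exact mem_ring x p hp b hb

end Pool.Agent.RTB.Crv
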