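import Pool.Agent.RTB.Crv.Stmts

set_option autoImplicit false

namespace Pool.Agent.RTB.Crv

open Module

theorem DEGS_.dg_add {K : Type} [Field K] [Algebra ℂ K] (D D' : Pt K →₀ ℤ) :
    dg (D + D') = dg D + dg D' := by
  unfold dg
  exact Finsupp.sum_add_index' (fun _ => rfl) (fun _ _ _ => rfl)

theorem DEGS_.dg_nonneg {K : Type} [Field K] [Algebra ℂ K] (D : Pt K →₀ ℤ) (h : 0 ≤ D) :
    0 ≤ dg D := by
  unfold dg
  exact Finset.sum_nonneg (fun p _ => h p)

theorem degs_proof (hR2D : Stmt_R2D) (hDGM : Stmt_DGM) : Stmt_DEGS := by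
  intro K _ _ V g E s hE hs hsH
  obtain ⟨DM, DN, Dd, h1, h2, h3, h4⟩ := hR2D K V E s hs
  have h5 := (hDGM K V (E.sub s) DM h1).1
  have h6 := (hDGM K V E.det Dd h3).1
  have h7 : dg Dd = 2 * (g : ℤ) - 2 := by rw [← h6]; exact hE.dg
  have h8 : dg DM + dg DN = dg Dd := by rw [← h4]; exact (DEGS_.dg_add DM DN).symm
  have h9 : 0 ≤ DM := by
    intro p
    have h10 : (1 : K) ∈ E.sub s p := by
      show (1 : K) • s ∈ E.fib p
      rw [one_smul]
      exact (Submodule.mem_iInf _).mp hsH p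
    rw [h1 p, V.mem_Lp, V.ord_one] at h10
    rcases h10 with h10 | h10
    · exact absurd h10 one_ne_zero
    · show (0 : ℤ) ≤ DM p
      linarith
  have h11 := hE.ss s hs
  rw [h5, h6, h7] at h11
  exact ⟨DM, DN, Dd, h1, h2, h3, h4, h7, h9, DEGS_.dg_nonneg DM h9, by linarith, by linarith⟩

end Pool.Agent.RTB.Crv
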