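import Pool.Agent.RTB.Crv.Stmts

set_option autoImplicit false

namespace Pool.Agent.RTB.Crv

open Module

theorem dgm_proof (hIDX : Stmt_IDX) : Stmt_DGM := by
  intro K _ _ V M D hM
  have h3 : (⨅ p, M p) = V.L D := iInf_congr hM
  refine ⟨?_, ?_, h3⟩
  · have h1 : (fun p => idx (M p) p.O) = fun p => D p := by
      funext p
      rw [hM p]
      exact (hIDX K V p (D p)).2.1
    unfold deg dg
    rw [h1, Finsupp.sum]
    exact finsum_eq_sum_of_support_subset _ (by
      intro p hp
      rw [Finset.mem_coe, Finsupp.mem_support_iff]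
      exact hp)
  · unfold h0 Val.ell
    rw [h3]

end Pool.Agent.RTB.Crv
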