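import Pool.Agent.RTB.Crv.Stmts

set_option autoImplicit false

namespace Pool.Agent.RTB.Crv

theorem dvr_proof (hDED : Stmt_DED) (hLOC : Stmt_LOC) : Stmt_DVR := by
  intro K _ _ hK p
  have hK' := hK
  obtain ⟨x, hx, _⟩ := hK
  have main : ∀ y : K, Transcendental ℂ y → y ∈ p.ring →
      ∃ t : K, t ≠ 0 ∧ t ∈ p.ring.nonunits ∧ ∀ x : K, x ≠ 0 →
        ∃ n : ℤ, x * t ^ n ∈ p.ring ∧ (x * t ^ n)⁻¹ ∈ p.ring := by
    intro y hy hyp
    obtain ⟨B, _, hB1, hB2, hB3⟩ := hDED K hK' y hy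
    exact (hLOC K B hB1 hB2 p (hB3 p hyp)).2
  rcases p.ring.mem_or_inv_mem x with h | h
  · exact main x hx h
  · refine main x⁻¹ ?_ h
    intro hal
    apply hx
    have h2 := hal.inv
    rw [inv_inv] at h2
    exact h2

end Pool.Agent.RTB.Crv
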