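import Pool.Agent.RTB.KDefs

/-!
# squad RTB: definitions for the curve theory part (T1)
-/

set_option autoImplicit false

namespace Pool.Agent.RTB.Crv

open Module

/-- order functions at the points of the curve -/
structure Val (K : Type) [Field K] [Algebra ℂ K] where
  ord : Pt K → K → ℤ
  mul : ∀ p x y, x ≠ 0 → y ≠ 0 → ord p (x * y) = ord p x + ord p y
  mem : ∀ p x, x ≠ 0 → (x ∈ p.ring ↔ 0 ≤ ord p x)
  unif : ∀ p, ∃ t : K, t ≠ 0 ∧ ord p t = 1
  res : ∀ (p : Pt K) (x : K), x ∈ p.ring → ∃ z : ℂ, x - algebraMap ℂ K z = 0 ∨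
    0 < ord p (x - algebraMap ℂ K z)
  fin : ∀ x : K, x ≠ 0 → {p | ord p x ≠ 0}.Finite
  const : ∀ x : K, (∀ p : Pt K, x ∈ p.ring) → ∃ z : ℂ, x = algebraMap ℂ K z

section
variable {K : Type} [Field K] [Algebra ℂ K]

namespace Val
variable (V : Val K)

theorem ord_one (p : Pt K) : V.ord p 1 = 0 := by
  have h := V.mul p 1 1 one_ne_zero one_ne_zero
  rw [one_mul] at h
  linarith

theorem ord_inv (p : Pt K) {x : K} (hx : x ≠ 0) : V.ord p x⁻¹ = - V.ord p x := by
  have h := V.mul p x x⁻¹ hx (inv_ne_zero hx)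
  rw [mul_inv_cancel₀ hx, V.ord_one] at h
  linarith

theorem ord_add (p : Pt K) {x y : K} {n : ℤ} (hx : x = 0 ∨ n ≤ V.ord p x)
    (hy : y = 0 ∨ n ≤ V.ord p y) : x + y = 0 ∨ n ≤ V.ord p (x + y) := by
  rcases hx with hx | hx
  · rw [hx, zero_add]; exact hy
  rcases hy with hy | hy
  · rw [hy, add_zero]; exact Or.inr hx
  by_cases hx0 : x = 0
  · rw [hx0, zero_add]; exact Or.inr hy
  by_cases hy0 : y = 0
  · rw [hy0, add_zero]; exact Or.inr hx
  by_cases h : x + y = 0
  · exact Or.inl h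
  right
  have key : ∀ a b : K, a ≠ 0 → b ≠ 0 → a + b ≠ 0 → V.ord p a ≤ V.ord p b →
      V.ord p a ≤ V.ord p (a + b) := by
    intro a b ha hb hab hle
    have h1 : b * a⁻¹ ∈ p.ring := by
      rw [V.mem p _ (mul_ne_zero hb (inv_ne_zero ha)), V.mul p _ _ hb (inv_ne_zero ha),
        V.ord_inv p ha]
      linarith
    have h2 : (a + b) * a⁻¹ ∈ p.ring := by
      rw [add_mul, mul_inv_cancel₀ ha]
      exact p.ring.add_mem _ _ p.ring.one_mem h1
    rw [V.mem p _ (mul_ne_zero hab (inv_ne_zero ha)), V.mul p _ _ hab (inv_ne_zero ha),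
      V.ord_inv p ha] at h2
    linarith
  rcases le_total (V.ord p x) (V.ord p y) with h1 | h1
  · exact le_trans hx (key x y hx0 hy0 h h1)
  · rw [add_comm] at h ⊢
    exact le_trans hy (key y x hy0 hx0 h h1)

theorem ord_const (p : Pt K) {z : ℂ} (hz : z ≠ 0) : V.ord p (algebraMap ℂ K z) = 0 := by
  have h0 : algebraMap ℂ K z ≠ 0 := by
    rw [Ne, FaithfulSMul.algebraMap_eq_zero_iff]; exact hz
  have h1 := (V.mem p _ h0).mp (p.const z)
  have h2 := (V.mem p (algebraMap ℂ K z)⁻¹ (inv_ne_zero h0)).mp (by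
    rw [← map_inv₀]; exact p.const _)
  rw [V.ord_inv p h0] at h2
  linarith

/-- the functions of order at least `-n` at `p` -/
def Lp (p : Pt K) (n : ℤ) : Submodule ℂ K where
  carrier := {x | x = 0 ∨ -n ≤ V.ord p x}
  zero_mem' := Or.inl rfl
  add_mem' := fun hx hy => V.ord_add p hx hy
  smul_mem' := fun z x hx => by
    by_cases hz : z = 0
    · left; rw [hz, zero_smul]
    rcases hx with hx | hx
    · left; rw [hx, smul_zero]
    by_cases hx0 : x = 0
    · left; rw [hx0, smul_zero]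
    right
    have h0 : algebraMap ℂ K z ≠ 0 := by
      rw [Ne, FaithfulSMul.algebraMap_eq_zero_iff]; exact hz
    rw [Algebra.smul_def, V.mul p _ _ h0 hx0, V.ord_const p hz]
    linarith

theorem mem_Lp {p : Pt K} {n : ℤ} {x : K} : x ∈ V.Lp p n ↔ x = 0 ∨ -n ≤ V.ord p x := Iff.rfl

/-- the space of functions of the divisor `D` -/
def L (D : Pt K →₀ ℤ) : Submodule ℂ K := ⨅ p, V.Lp p (D p)

theorem mem_L {D : Pt K →₀ ℤ} {x : K} : x ∈ V.L D ↔ ∀ p, x ∈ V.Lp p (D p) := by
  simp [L, Submodule.mem_iInf]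

/-- dimension of `L D` -/
noncomputable def ell (D : Pt K →₀ ℤ) : ℤ := (finrank ℂ (V.L D) : ℤ)

open Classical in
/-- the divisor of a function -/
noncomputable def dv (x : K) : Pt K →₀ ℤ :=
  if h : x ≠ 0 then Finsupp.ofSupportFinite (fun p => V.ord p x) (V.fin x h) else 0

theorem dv_apply {x : K} (hx : x ≠ 0) (p : Pt K) : V.dv x p = V.ord p x := by
  rw [dv, dif_pos hx]; rfl

end Val

/-- the degree of a divisor -/
noncomputable def dg (D : Pt K →₀ ℤ) : ℤ := D.sum fun _ n => n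

/-- the divisor `n p` -/
noncomputable def np (p : Pt K) (n : ℤ) : Pt K →₀ ℤ := Finsupp.single p n

/-- facts on divisors on a curve of genus `g` with a suitable point -/
structure CF (g : ℕ) (V : Val K) : Prop where
  fd : ∀ D : Pt K →₀ ℤ, FiniteDimensional ℂ (V.L D)
  mono : ∀ D D' : Pt K →₀ ℤ, D ≤ D' → V.ell D' ≤ V.ell D + (dg D' - dg D)
  dv : ∀ x : K, x ≠ 0 → dg (V.dv x) = 0
  riem : ∀ D : Pt K →₀ ℤ, dg D + 1 - g ≤ V.ell D
  rr : ∀ D : Pt K →₀ ℤ, 2 * (g : ℤ) ≤ dg D → V.ell D = dg D + 1 - g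

/-- functions regular outside `p`, with a pole of order at most `n` at `p` -/
def Rp (p : Pt K) (n : ℕ) : Submodule ℂ K := ⨅ q, polar p n q

/-- `v ↦ det2 s v` -/
def detL (s : Fin 2 → K) : (Fin 2 → K) →ₗ[ℂ] K where
  toFun := fun v => det2 s v
  map_add' := fun v w => by simp only [det2, Pi.add_apply]; ring
  map_smul' := fun z v => by
    simp only [det2, Pi.smul_apply, RingHom.id_apply, Algebra.smul_def]; ring

/-- the quotient line bundle `E / sub s`, embedded by `det2 s` -/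
def _root_.Pool.Agent.RTB.VB2.quo (E : VB2 K) (s : Fin 2 → K) (p : Pt K) : Submodule ℂ K := (E.fib p).map (detL s)

/-- the global sections -/
def _root_.Pool.Agent.RTB.VB2.H (E : VB2 K) : Submodule ℂ (Fin 2 → K) := ⨅ p, E.fib p

/-- the global sections of `E (n pt)` -/
def HE (V : Val K) (E : VB2 K) (pt : Pt K) (n : ℤ) : Submodule ℂ (Fin 2 → K) where
  carrier := {v | ∀ (q : Pt K) (x : K), x ≠ 0 → np pt n q ≤ V.ord q x → x • v ∈ E.fib q}
  zero_mem' := fun q x _ _ => by rw [smul_zero]; exact (E.fib q).zero_mem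
  add_mem' := fun hv hw q x hx h => by
    rw [smul_add]; exact (E.fib q).add_mem (hv q x hx h) (hw q x hx h)
  smul_mem' := fun z v hv q x hx h => by
    rw [smul_comm]; exact (E.fib q).smul_mem z (hv q x hx h)

/-- the determinants of the pairs of vectors of `W` -/
def dets (W : Submodule ℂ (Fin 2 → K)) : Submodule ℂ K :=
  Submodule.span ℂ {x | ∃ v ∈ W, ∃ w ∈ W, x = det2 v w}

/-- the submodule over the local ring at `p` generated by `W` -/
def gnK (p : Pt K) (W : Submodule ℂ K) : Submodule ℂ K :=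
  Submodule.span ℂ {x | ∃ a ∈ p.ring, ∃ w ∈ W, x = a * w}

/-- the submodule over the local ring at `p` generated by `W` -/
def gnV (p : Pt K) (W : Submodule ℂ (Fin 2 → K)) : Submodule ℂ (Fin 2 → K) :=
  Submodule.span ℂ {x | ∃ a ∈ p.ring, ∃ w ∈ W, x = a • w}

end

end Pool.Agent.RTB.Crv
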