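import Pool.Agent.RTB.Crv.Stmts

/-!
# RTB, module ELL: finiteness and growth of `L D`
-/

set_option autoImplicit false

namespace Pool.Agent.RTB.Crv

open Module

namespace ELL_

variable {K : Type} [Field K] [Algebra ℂ K]

theorem dg_sub (D D' : Pt K →₀ ℤ) : dg (D - D') = dg D - dg D' := by
  rw [dg, dg, dg]
  exact Finsupp.sum_sub_index (fun _ _ _ => rfl)

theorem dg_single (p : Pt K) (n : ℤ) : dg (Finsupp.single p n) = n := by
  rw [dg, Finsupp.sum_single_index rfl]

theorem dg_nonneg {D : Pt K →₀ ℤ} (h : 0 ≤ D) : 0 ≤ dg D := by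
  rw [dg, Finsupp.sum]
  exact Finset.sum_nonneg (fun p _ => h p)

theorem L_mono (V : Val K) {D D' : Pt K →₀ ℤ} (h : D ≤ D') : V.L D ≤ V.L D' := by
  intro x hx
  rw [Val.mem_L] at hx ⊢
  intro p
  have h1 := hx p
  rw [Val.mem_Lp] at h1 ⊢
  rcases h1 with h1 | h1
  · exact Or.inl h1
  · right
    have h2 := h p
    linarith

theorem one_step (hLPQ : Stmt_LPQ) (V : Val K) (D : Pt K →₀ ℤ) (p : Pt K)
    (hfd : FiniteDimensional ℂ (V.L (D - Finsupp.single p 1))) :
    FiniteDimensional ℂ (V.L D) ∧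
      finrank ℂ (V.L D) ≤ finrank ℂ (V.L (D - Finsupp.single p 1)) + 1 := by
  obtain ⟨hle, hfq, hrk⟩ := hLPQ K V p (D p - 1) (D p) (by linarith)
  have hsub : ∀ x ∈ V.L D, x ∈ V.Lp p (D p) := fun x hx => (Val.mem_L V).mp hx p
  let φ : V.L D →ₗ[ℂ] (V.Lp p (D p) ⧸ ((V.Lp p (D p - 1)).comap (V.Lp p (D p)).subtype)) :=
    (Submodule.mkQ _).comp (Submodule.inclusion (show V.L D ≤ V.Lp p (D p) from hsub))
  have hle' : V.L (D - Finsupp.single p 1) ≤ V.L D := by
    apply L_mono
    intro q
    rw [Finsupp.sub_apply]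
    by_cases hq : p = q
    · rw [hq, Finsupp.single_eq_same]; linarith
    · rw [Finsupp.single_eq_of_ne (fun h => hq h.symm)]; linarith
  have hker : LinearMap.ker φ = (V.L (D - Finsupp.single p 1)).comap (V.L D).subtype := by
    ext x
    rw [LinearMap.mem_ker, Submodule.mem_comap]
    have h1 : φ x = 0 ↔ (x : K) ∈ V.Lp p (D p - 1) := by
      show Submodule.mkQ _ (Submodule.inclusion _ x) = 0 ↔ _
      rw [Submodule.mkQ_apply, Submodule.Quotient.mk_eq_zero, Submodule.mem_comap]
      rfl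
    rw [h1, Submodule.subtype_apply, Val.mem_L]
    constructor
    · intro h q
      rw [Finsupp.sub_apply]
      by_cases hq : p = q
      · rw [← hq, Finsupp.single_eq_same]; exact h
      · rw [Finsupp.single_eq_of_ne (fun h => hq h.symm), sub_zero]
        exact (Val.mem_L V).mp x.2 q
    · intro h
      have h2 := h p
      rw [Finsupp.sub_apply, Finsupp.single_eq_same] at h2
      exact h2
  have hk1 : FiniteDimensional ℂ (LinearMap.ker φ) := by
    rw [hker]
    exact Module.Finite.equiv (Submodule.comapSubtypeEquivOfLe hle').symm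
  have hk2 : finrank ℂ (LinearMap.ker φ) = finrank ℂ (V.L (D - Finsupp.single p 1)) := by
    rw [hker]
    exact LinearEquiv.finrank_eq (Submodule.comapSubtypeEquivOfLe hle')
  have hfr : FiniteDimensional ℂ (LinearMap.range φ) := inferInstance
  have hq : FiniteDimensional ℂ (V.L D ⧸ LinearMap.ker φ) :=
    Module.Finite.equiv (LinearMap.quotKerEquivRange φ).symm
  have hfd2 : FiniteDimensional ℂ (V.L D) := Module.Finite.of_submodule_quotient (LinearMap.ker φ)
  refine ⟨hfd2, ?_⟩
  have h1 := LinearMap.finrank_range_add_finrank_ker φ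
  have h2 : finrank ℂ (LinearMap.range φ) ≤ 1 := by
    refine le_trans (Submodule.finrank_le _) ?_
    have h3 : (finrank ℂ (V.Lp p (D p) ⧸ ((V.Lp p (D p - 1)).comap (V.Lp p (D p)).subtype)) : ℤ)
        = 1 := by rw [hrk]; ring
    exact_mod_cast le_of_eq h3
  rw [hk2] at h1
  omega

theorem steps (hLPQ : Stmt_LPQ) (V : Val K) (n : ℕ) : ∀ D D' : Pt K →₀ ℤ, D ≤ D' →
    dg D' - dg D = n → FiniteDimensional ℂ (V.L D) →
    FiniteDimensional ℂ (V.L D') ∧ finrank ℂ (V.L D') ≤ finrank ℂ (V.L D) + n := by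
  induction n with
  | zero =>
    intro D D' hD hn hfd
    have hDD : D = D' := by
      by_contra hne
      obtain ⟨p, hp⟩ : ∃ p, D p ≠ D' p := by
        by_contra hall
        push Not at hall
        exact hne (Finsupp.ext hall)
      have hlt : D p < D' p := lt_of_le_of_ne (hD p) hp
      have h1 : (0 : Pt K →₀ ℤ) ≤ D' - D - Finsupp.single p 1 := by
        intro q
        rw [Finsupp.sub_apply, Finsupp.sub_apply, Finsupp.zero_apply]
        have h2 := hD q
        by_cases hq : p = q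
        · rw [← hq, Finsupp.single_eq_same]; linarith
        · rw [Finsupp.single_eq_of_ne (fun h => hq h.symm)]; linarith
      have h2 := dg_nonneg h1
      rw [dg_sub, dg_sub, dg_single] at h2
      have h3 : dg D' - dg D = 0 := by rw [hn]; rfl
      linarith
    rw [← hDD]
    exact ⟨hfd, by omega⟩
  | succ n ih =>
    intro D D' hD hn hfd
    obtain ⟨p, hp⟩ : ∃ p, D p ≠ D' p := by
      by_contra hall
      push Not at hall
      have h1 : D = D' := Finsupp.ext hall
      rw [h1, sub_self] at hn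
      push_cast at hn
      linarith
    have hlt : D p < D' p := lt_of_le_of_ne (hD p) hp
    have h1 : D ≤ D' - Finsupp.single p 1 := by
      intro q
      rw [Finsupp.sub_apply]
      have h2 := hD q
      by_cases hq : p = q
      · rw [← hq, Finsupp.single_eq_same]; linarith
      · rw [Finsupp.single_eq_of_ne (fun h => hq h.symm)]; linarith
    have h2 : dg (D' - Finsupp.single p 1) - dg D = n := by
      rw [dg_sub, dg_single]
      push_cast at hn
      linarith
    obtain ⟨h3, h4⟩ := ih D _ h1 h2 hfd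
    obtain ⟨h5, h6⟩ := one_step hLPQ V D' p h3
    exact ⟨h5, by omega⟩

theorem fd_zero (V : Val K) : FiniteDimensional ℂ (V.L 0) := by
  have h : V.L 0 ≤ LinearMap.range (Algebra.linearMap ℂ K) := by
    intro x hx
    have h1 : ∀ p : Pt K, x ∈ p.ring := by
      intro p
      have h2 := (Val.mem_L V).mp hx p
      rw [Val.mem_Lp, Finsupp.zero_apply, neg_zero] at h2
      rcases h2 with h2 | h2
      · rw [h2]; exact p.ring.zero_mem
      · by_cases hx0 : x = 0
        · rw [hx0]; exact p.ring.zero_mem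
        · exact (V.mem p x hx0).mpr h2
    obtain ⟨z, hz⟩ := V.const x h1
    exact ⟨z, hz.symm⟩
  exact Submodule.finiteDimensional_of_le h

theorem fd_all (hLPQ : Stmt_LPQ) (V : Val K) (D : Pt K →₀ ℤ) : FiniteDimensional ℂ (V.L D) := by
  have h1 : (0 : Pt K →₀ ℤ) ≤ D ⊔ 0 := le_sup_right
  have h2 : 0 ≤ dg (D ⊔ 0) := dg_nonneg h1
  obtain ⟨n, hn⟩ := Int.eq_ofNat_of_zero_le h2
  have h3 : dg (D ⊔ 0) - dg (0 : Pt K →₀ ℤ) = n := by
    rw [hn, dg, Finsupp.sum_zero_index, sub_zero]
  have h4 := (steps hLPQ V n 0 (D ⊔ 0) h1 h3 (fd_zero V)).1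
  exact Submodule.finiteDimensional_of_le (L_mono V (le_sup_left : D ≤ D ⊔ 0))

end ELL_

open ELL_ in
theorem ell_proof (hLPQ : Stmt_LPQ) : Stmt_ELL := by
  intro K _ _ V D D' hD
  refine ⟨L_mono V hD, fd_all hLPQ V D', ?_⟩
  have h1 : (0 : Pt K →₀ ℤ) ≤ D' - D := by
    intro q
    rw [Finsupp.sub_apply, Finsupp.zero_apply]
    have h2 := hD q
    linarith
  have h2 := dg_nonneg h1
  rw [dg_sub] at h2
  obtain ⟨n, hn⟩ := Int.eq_ofNat_of_zero_le h2
  have h3 := (steps hLPQ V n D D' hD hn (fd_all hLPQ V D)).2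
  rw [hn, Val.ell, Val.ell]
  exact_mod_cast h3

end Pool.Agent.RTB.Crv
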