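import Pool.Agent.RTB.Crv.Stmts

/-!
# squad RTB, module C.FFX: a function field is finite over every `ℂ(x)`
-/

set_option autoImplicit false

namespace Pool.Agent.RTB.Crv

open scoped IntermediateField.algebraAdjoinAdjoin in
theorem ffx_proof : Stmt_FFX := by
  intro K _ _ hK x hx
  obtain ⟨x0, hx0, hfin⟩ := hK
  -- transcendence degree at most one
  have halg0 : Algebra.IsAlgebraic (IntermediateField.adjoin ℂ {x0}) K := inferInstance
  have halg1 : Algebra.IsAlgebraic (Algebra.adjoin ℂ {x0}) K :=
    (IsFractionRing.comap_isAlgebraic_iff (A := Algebra.adjoin ℂ {x0})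
      (K := IntermediateField.adjoin ℂ {x0}) (C := K)).mpr halg0
  have htr : Algebra.trdeg ℂ K ≤ Cardinal.mk ({x0} : Set K) :=
    Algebra.IsAlgebraic.trdeg_le_cardinalMk ℂ ({x0} : Set K)
  have htr1 : Algebra.trdeg ℂ K ≤ Cardinal.mk Unit := by
    refine le_trans htr ?_
    simp
  -- `x` is a transcendence basis
  have hind : AlgebraicIndependent ℂ (fun _ : Unit => x) := by
    rw [algebraicIndependent_unique_type_iff]
    exact hx
  have hbas : IsTranscendenceBasis ℂ (fun _ : Unit => x) :=
    hind.isTranscendenceBasis_of_trdeg_le_of_finite htr1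
  have halg := hbas.isAlgebraic_field
  have hrange : Set.range (fun _ : Unit => x) = {x} := by
    ext y; simp [eq_comm]
  rw [hrange] at halg
  -- finite generation
  have h1 : Algebra.EssFiniteType ℂ (IntermediateField.adjoin ℂ {x0}) := by
    rw [IntermediateField.essFiniteType_iff]
    exact ⟨{x0}, by simp⟩
  have h2 : Algebra.EssFiniteType ℂ K :=
    Algebra.EssFiniteType.comp ℂ (IntermediateField.adjoin ℂ {x0}) K
  have h3 : Algebra.EssFiniteType (IntermediateField.adjoin ℂ {x}) K :=
    Algebra.EssFiniteType.of_comp ℂ (IntermediateField.adjoin ℂ {x}) K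
  obtain ⟨s, hs⟩ := IntermediateField.fg_top (IntermediateField.adjoin ℂ {x}) K
  have h4 : FiniteDimensional (IntermediateField.adjoin ℂ {x})
      (IntermediateField.adjoin (IntermediateField.adjoin ℂ {x}) (s : Set K)) :=
    IntermediateField.finiteDimensional_adjoin (fun y _ => (halg.isAlgebraic y).isIntegral)
  rw [hs] at h4
  exact Module.Finite.equiv
    (IntermediateField.topEquiv (F := IntermediateField.adjoin ℂ {x}) (E := K)).toLinearEquiv

end Pool.Agent.RTB.Crv
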