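import Pool.Agent.RTB.Crv.Stmts

/-!
# squad RTB, module C.FZP: a function has finitely many zeros and poles
-/

set_option autoImplicit false

open Polynomial

namespace Pool.Agent.RTB.Crv

open Module

namespace FZP_

theorem const_of_not {K : Type} [Field K] [Algebra ℂ K] (x : K) (hx : ¬ Transcendental ℂ x) :
    ∃ z : ℂ, x = algebraMap ℂ K z := by
  have h1 : IsAlgebraic ℂ x := by
    by_contra h
    exact hx h
  have h2 : IsIntegral ℂ x := h1.isIntegral
  have h3 := IsAlgClosed.degree_eq_one_of_irreducible ℂ (minpoly.irreducible h2)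
  obtain ⟨z, hz⟩ := minpoly.mem_range_of_degree_eq_one ℂ x h3
  exact ⟨z, hz.symm⟩

theorem pt_ext {K : Type} [Field K] [Algebra ℂ K] {p q : Pt K} (h : p.ring = q.ring) : p = q := by
  cases p
  cases q
  cases h
  rfl

theorem fin_nonunits (hDED : Stmt_DED) (hLOC : Stmt_LOC) {K : Type} [Field K] [Algebra ℂ K]
    (hK : IsFunctionField K) (x : K) (hx : Transcendental ℂ x) :
    {p : Pt K | x ∈ p.ring.nonunits}.Finite := by
  obtain ⟨B, hxB, hB, hBK, hBp⟩ := hDED K hK x hx
  have hring : ∀ p : Pt K, x ∈ p.ring.nonunits → x ∈ p.ring := fun p hp =>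
    p.ring.nonunits_subset hp
  have hx0 : x ≠ 0 := by
    rintro rfl
    exact hx (isAlgebraic_zero)
  let i : ∀ p : {p : Pt K | x ∈ p.ring.nonunits}, B →+* p.1.ring := fun p =>
    { toFun := fun y => ⟨y.1, hBp p.1 (hring p.1 p.2) y.1 y.2⟩
      map_one' := rfl
      map_mul' := fun a c => rfl
      map_zero' := rfl
      map_add' := fun a c => rfl }
  have hmem : ∀ (p : {p : Pt K | x ∈ p.ring.nonunits}) (b : B),
      b ∈ (IsLocalRing.maximalIdeal p.1.ring).comap (i p) ↔ (b : K) ∈ p.1.ring.nonunits := by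
    intro p b
    rw [Ideal.mem_comap]
    exact (ValuationSubring.coe_mem_nonunits_iff (A := p.1.ring) (a := i p b)).symm
  let v : {p : Pt K | x ∈ p.ring.nonunits} →
      {v : IsDedekindDomain.HeightOneSpectrum B | v.asIdeal ∣ Ideal.span {(⟨x, hxB⟩ : B)}} :=
    fun p => ⟨⟨(IsLocalRing.maximalIdeal p.1.ring).comap (i p), inferInstance, by
      intro h
      have h1 : (⟨x, hxB⟩ : B) ∈ (IsLocalRing.maximalIdeal p.1.ring).comap (i p) :=
        (hmem p ⟨x, hxB⟩).2 p.2
      rw [h, Ideal.mem_bot] at h1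
      exact hx0 (congrArg Subtype.val h1)⟩, by
      rw [Set.mem_ofPred_eq, Ideal.dvd_span_singleton]
      exact (hmem p ⟨x, hxB⟩).2 p.2⟩
  have hfin : Finite
      {v : IsDedekindDomain.HeightOneSpectrum B | v.asIdeal ∣ Ideal.span {(⟨x, hxB⟩ : B)}} := by
    apply Set.Finite.to_subtype
    apply Ideal.finite_factors
    rw [Ne, Ideal.zero_eq_bot, Ideal.span_singleton_eq_bot]
    intro h
    exact hx0 (congrArg Subtype.val h)
  have hinj : Function.Injective v := by
    intro p q hpq
    have h1 : (IsLocalRing.maximalIdeal p.1.ring).comap (i p) =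
        (IsLocalRing.maximalIdeal q.1.ring).comap (i q) :=
      congrArg (fun w => w.1.asIdeal) hpq
    have h2 : ∀ b ∈ B, b ∈ p.1.ring.nonunits ↔ b ∈ q.1.ring.nonunits := by
      intro b hb
      rw [← hmem p ⟨b, hb⟩, ← hmem q ⟨b, hb⟩, h1]
    apply Subtype.ext
    apply pt_ext
    ext y
    rw [(hLOC K B hB hBK p.1 (hBp p.1 (hring p.1 p.2))).1 y,
      (hLOC K B hB hBK q.1 (hBp q.1 (hring q.1 q.2))).1 y]
    constructor
    · rintro ⟨a, ha, b, hb, hb2, rfl⟩
      exact ⟨a, ha, b, hb, fun h => hb2 ((h2 b hb).2 h), rfl⟩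
    · rintro ⟨a, ha, b, hb, hb2, rfl⟩
      exact ⟨a, ha, b, hb, fun h => hb2 ((h2 b hb).1 h), rfl⟩
  have : Finite {p : Pt K | x ∈ p.ring.nonunits} := Finite.of_injective v hinj
  exact Set.toFinite _

end FZP_

open FZP_

theorem fzp_proof (hDED : Stmt_DED) (hLOC : Stmt_LOC) : Stmt_FZP := by
  intro K _ _ hK x hx0
  by_cases hx : Transcendental ℂ x
  · have hx' : Transcendental ℂ x⁻¹ := by
      intro h
      apply hx
      have := h.inv
      rwa [inv_inv] at this
    refine ((fin_nonunits hDED hLOC hK x hx).union (fin_nonunits hDED hLOC hK x⁻¹ hx')).subset ?_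
    intro p hp
    rw [Set.mem_ofPred_eq, not_and_or] at hp
    rw [Set.mem_union, Set.mem_ofPred_eq, Set.mem_ofPred_eq]
    rcases hp with hp | hp
    · right
      rw [ValuationSubring.mem_nonunits_iff, map_inv₀]
      rw [← ValuationSubring.valuation_le_one_iff, not_le] at hp
      exact inv_lt_one_of_one_lt₀ hp
    · left
      rw [ValuationSubring.mem_nonunits_iff]
      rw [← ValuationSubring.valuation_le_one_iff, not_le, map_inv₀] at hp
      by_contra h
      rw [not_lt] at h
      exact absurd hp (not_lt.mpr (inv_le_one_of_one_le₀ h))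
  · obtain ⟨z, hz⟩ := const_of_not x hx
    have h : {p : Pt K | ¬ (x ∈ p.ring ∧ x⁻¹ ∈ p.ring)} = ∅ := by
      rw [Set.eq_empty_iff_forall_notMem]
      intro p hp
      apply hp
      rw [hz]
      refine ⟨p.const z, ?_⟩
      rw [← map_inv₀]
      exact p.const _
    rw [h]
    exact Set.finite_empty

end Pool.Agent.RTB.Crv
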