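import Pool.Agent.RTB.Crv.Stmts

/-!
# squad RTB, module C.GENB: the subsheaf generated by sections
-/

set_option autoImplicit false
set_option linter.unusedSectionVars false

namespace Pool.Agent.RTB.Crv

namespace GENB_

variable {K : Type} [Field K] [Algebra ℂ K]

theorem det2_add_left (u v w : Fin 2 → K) : det2 (u + v) w = det2 u w + det2 v w := by
  simp only [det2, Pi.add_apply]; ring

theorem det2_add_right (u v w : Fin 2 → K) : det2 u (v + w) = det2 u v + det2 u w := by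
  simp only [det2, Pi.add_apply]; ring

theorem det2_smulK_left (a : K) (u w : Fin 2 → K) : det2 (a • u) w = a * det2 u w := by
  simp only [det2, Pi.smul_apply, smul_eq_mul]; ring

theorem det2_smulC_left (z : ℂ) (u w : Fin 2 → K) : det2 (z • u) w = z • det2 u w := by
  simp only [det2, Pi.smul_apply, Algebra.smul_def]; ring

theorem det2_smulC_right (z : ℂ) (u w : Fin 2 → K) : det2 u (z • w) = z • det2 u w := by
  simp only [det2, Pi.smul_apply, Algebra.smul_def]; ring

theorem det2_zero_left (w : Fin 2 → K) : det2 0 w = 0 := by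
  simp only [det2, Pi.zero_apply]; ring

theorem det2_zero_right (w : Fin 2 → K) : det2 w 0 = 0 := by
  simp only [det2, Pi.zero_apply]; ring

theorem cramer (v w u : Fin 2 → K) (h : det2 v w ≠ 0) :
    u = (det2 u w / det2 v w) • v + (det2 v u / det2 v w) • w := by
  have key : ∀ i, u i = (det2 u w / det2 v w) * v i + (det2 v u / det2 v w) * w i := by
    intro i
    rw [div_mul_eq_mul_div, div_mul_eq_mul_div, ← add_div, eq_div_iff h]
    fin_cases i
    · simp only [det2, Fin.zero_eta]; ring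
    · simp only [det2, Fin.mk_one]; ring
  funext i
  exact key i

/-- the lattice generated by two vectors -/
def lat (p : Pt K) (e e' : Fin 2 → K) : Submodule ℂ (Fin 2 → K) where
  carrier := {v | ∃ a ∈ p.ring, ∃ b ∈ p.ring, v = a • e + b • e'}
  zero_mem' := ⟨0, p.ring.zero_mem, 0, p.ring.zero_mem, by simp⟩
  add_mem' := by
    rintro _ _ ⟨a, ha, b, hb, rfl⟩ ⟨c, hc, d, hd, rfl⟩
    exact ⟨a + c, p.ring.add_mem _ _ ha hc, b + d, p.ring.add_mem _ _ hb hd, by
      rw [add_smul, add_smul]; abel⟩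
  smul_mem' := by
    rintro z _ ⟨a, ha, b, hb, rfl⟩
    exact ⟨z • a, by rw [Algebra.smul_def]; exact p.ring.mul_mem _ _ (p.const z) ha,
      z • b, by rw [Algebra.smul_def]; exact p.ring.mul_mem _ _ (p.const z) hb, by
      rw [smul_add, smul_assoc, smul_assoc]⟩

theorem mem_lat {p : Pt K} {e e' v : Fin 2 → K} :
    v ∈ lat p e e' ↔ ∃ a ∈ p.ring, ∃ b ∈ p.ring, v = a • e + b • e' := Iff.rfl

theorem lat_smul {p : Pt K} {e e' v : Fin 2 → K} {a : K} (ha : a ∈ p.ring)
    (hv : v ∈ lat p e e') : a • v ∈ lat p e e' := by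
  obtain ⟨b, hb, c, hc, rfl⟩ := hv
  exact ⟨a * b, p.ring.mul_mem _ _ ha hb, a * c, p.ring.mul_mem _ _ ha hc, by
    rw [smul_add, smul_smul, smul_smul]⟩

theorem smul_mem_gnV {p : Pt K} {W : Submodule ℂ (Fin 2 → K)} {w : Fin 2 → K} {a : K}
    (ha : a ∈ p.ring) (hw : w ∈ W) : a • w ∈ gnV p W :=
  Submodule.subset_span ⟨a, ha, w, hw, rfl⟩

theorem lat_le_gnV {p : Pt K} {W : Submodule ℂ (Fin 2 → K)} {e e' : Fin 2 → K}
    (he : e ∈ W) (he' : e' ∈ W) : lat p e e' ≤ gnV p W := by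
  rintro _ ⟨a, ha, b, hb, rfl⟩
  exact Submodule.add_mem _ (smul_mem_gnV ha he) (smul_mem_gnV hb he')

theorem gnV_le_lat {p : Pt K} {W : Submodule ℂ (Fin 2 → K)} {e e' : Fin 2 → K}
    (h : W ≤ lat p e e') : gnV p W ≤ lat p e e' := by
  refine Submodule.span_le.mpr ?_
  rintro _ ⟨a, ha, w, hw, rfl⟩
  exact lat_smul ha (h hw)

theorem exists_det {S : Set (Fin 2 → K)}
    (h : ∃ v ∈ Submodule.span ℂ S, ∃ w ∈ Submodule.span ℂ S, det2 v w ≠ 0) :
    ∃ v ∈ S, ∃ w ∈ S, det2 v w ≠ 0 := by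
  by_contra hc
  push Not at hc
  obtain ⟨v, hv, w, hw, hvw⟩ := h
  apply hvw
  have h1 : ∀ u ∈ S, ∀ w ∈ Submodule.span ℂ S, det2 u w = 0 := by
    intro u hu w hw
    refine Submodule.span_induction (p := fun w _ => det2 u w = 0) ?_ ?_ ?_ ?_ hw
    · exact fun x hx => hc u hu x hx
    · exact det2_zero_right u
    · intro x y _ _ hx hy
      rw [det2_add_right, hx, hy, add_zero]
    · intro z x _ hx
      rw [det2_smulC_right, hx, smul_zero]
  refine Submodule.span_induction (p := fun v _ => det2 v w = 0) ?_ ?_ ?_ ?_ hv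
  · exact fun x hx => h1 x hx w hw
  · exact det2_zero_left w
  · intro x y _ _ hx hy
    rw [det2_add_left, hx, hy, add_zero]
  · intro z x _ hx
    rw [det2_smulC_left, hx, smul_zero]

theorem exists_basis (V : Val K) (p : Pt K) (S : Finset (Fin 2 → K))
    (h : ∃ v ∈ S, ∃ w ∈ S, det2 v w ≠ 0) :
    ∃ e ∈ S, ∃ e' ∈ S, det2 e e' ≠ 0 ∧ ∀ u ∈ S, u ∈ lat p e e' := by
  classical
  set T : Finset ((Fin 2 → K) × (Fin 2 → K)) := (S ×ˢ S).filter (fun x => det2 x.1 x.2 ≠ 0) with hT
  have hne : T.Nonempty := by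
    obtain ⟨v, hv, w, hw, hvw⟩ := h
    exact ⟨(v, w), by rw [hT, Finset.mem_filter, Finset.mem_product]; exact ⟨⟨hv, hw⟩, hvw⟩⟩
  obtain ⟨⟨e, e'⟩, hm, hmin⟩ := Finset.exists_min_image T (fun x => V.ord p (det2 x.1 x.2)) hne
  rw [hT, Finset.mem_filter, Finset.mem_product] at hm
  obtain ⟨⟨he, he'⟩, hd⟩ := hm
  simp only at he he' hd
  have key : ∀ x y : Fin 2 → K, x ∈ S → y ∈ S → det2 x y / det2 e e' ∈ p.ring := by
    intro x y hx hy
    by_cases h0 : det2 x y = 0
    · rw [h0, zero_div]; exact p.ring.zero_mem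
    have h1 := hmin (x, y) (by
      rw [hT, Finset.mem_filter, Finset.mem_product]; exact ⟨⟨hx, hy⟩, h0⟩)
    simp only at h1
    rw [div_eq_mul_inv, V.mem p _ (mul_ne_zero h0 (inv_ne_zero hd)),
      V.mul p _ _ h0 (inv_ne_zero hd), V.ord_inv p hd]
    linarith
  exact ⟨e, he, e', he', hd, fun u hu => ⟨_, key u e' hu he', _, key e u he hu,
    cramer e e' u hd⟩⟩

theorem loc_basis (V : Val K) (p : Pt K) (W : Submodule ℂ (Fin 2 → K))
    (hW : FiniteDimensional ℂ W) (h : ∃ v ∈ W, ∃ w ∈ W, det2 v w ≠ 0) :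
    ∃ e ∈ W, ∃ e' ∈ W, det2 e e' ≠ 0 ∧ gnV p W = lat p e e' := by
  obtain ⟨S, hS⟩ := (Module.finite_def.mp hW : (⊤ : Submodule ℂ W).FG)
  have hfg : W.FG := (Submodule.fg_top W).mp ⟨S, hS⟩
  obtain ⟨S, hS⟩ := hfg
  have h2 : ∃ v ∈ S, ∃ w ∈ S, det2 v w ≠ 0 := by
    have := exists_det (S := (S : Set (Fin 2 → K))) (by rw [hS]; exact h)
    simpa using this
  obtain ⟨e, he, e', he', hd, hl⟩ := exists_basis V p S h2
  have hSW : ∀ u ∈ S, u ∈ W := fun u hu => by
    rw [← hS]; exact Submodule.subset_span hu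
  refine ⟨e, hSW e he, e', hSW e' he', hd, le_antisymm ?_ ?_⟩
  · apply gnV_le_lat
    rw [← hS]
    exact Submodule.span_le.mpr fun u hu => hl u hu
  · exact lat_le_gnV (hSW e he) (hSW e' he')

theorem fin_not_mem (V : Val K) (x : K) : {p : Pt K | x ∉ p.ring}.Finite := by
  by_cases hx : x = 0
  · subst hx
    refine Set.Finite.subset Set.finite_empty ?_
    intro p hp
    exact absurd p.ring.zero_mem hp
  · refine (V.fin x hx).subset ?_
    intro p hp h0
    exact hp ((V.mem p x hx).mpr (le_of_eq h0.symm))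

/-- all but finitely many points are good for `W` -/
theorem fin_W (V : Val K) (W : Submodule ℂ (Fin 2 → K)) (hW : FiniteDimensional ℂ W) :
    {p : Pt K | ¬ ∀ w ∈ W, ∀ i, w i ∈ p.ring}.Finite := by
  obtain ⟨S, hS⟩ := (Module.finite_def.mp hW : (⊤ : Submodule ℂ W).FG)
  have hfg : W.FG := (Submodule.fg_top W).mp ⟨S, hS⟩
  obtain ⟨S, hS⟩ := hfg
  have h1 : (⋃ u ∈ S, ⋃ i : Fin 2, {p : Pt K | u i ∉ p.ring}).Finite := by
    refine Set.Finite.biUnion S.finite_toSet fun u _ => Set.finite_iUnion fun i => fin_not_mem V _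
  refine h1.subset ?_
  intro p hp
  by_contra hc
  apply hp
  have h2 : ∀ u ∈ S, ∀ i, u i ∈ p.ring := by
    intro u hu i
    by_contra h3
    exact hc (Set.mem_biUnion hu (Set.mem_iUnion.mpr ⟨i, h3⟩))
  intro w hw i
  rw [← hS] at hw
  refine Submodule.span_induction (p := fun w _ => w i ∈ p.ring) ?_ ?_ ?_ ?_ hw
  · exact fun x hx => h2 x hx i
  · exact p.ring.zero_mem
  · intro x y _ _ hx hy
    exact p.ring.add_mem _ _ hx hy
  · intro z x _ hx
    rw [Pi.smul_apply, Algebra.smul_def]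
    exact p.ring.mul_mem _ _ (p.const z) hx

end GENB_

open GENB_ in
theorem genb_proof : Stmt_GENB := by
  intro K _ _ V W hW h
  have hloc := fun p : Pt K => loc_basis V p W hW h
  have htriv : {p : Pt K | ¬ ∀ v : Fin 2 → K, v ∈ gnV p W ↔
      (v 0 ∈ p.ring ∧ v 1 ∈ p.ring)}.Finite := by
    obtain ⟨v0, hv0, w0, hw0, hd⟩ := h
    refine ((fin_W V W hW).union (V.fin _ hd)).subset ?_
    intro p hp
    by_contra hc
    rw [Set.mem_union, not_or] at hc
    obtain ⟨h1, h2⟩ := hc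
    have h1' : ∀ w ∈ W, ∀ i, w i ∈ p.ring := by
      by_contra h3; exact h1 h3
    have h2' : V.ord p (det2 v0 w0) = 0 := by
      by_contra h3; exact h2 h3
    apply hp
    intro v
    constructor
    · intro hv
      have hall : ∀ i, v i ∈ p.ring := by
        intro i
        refine Submodule.span_induction (p := fun v _ => v i ∈ p.ring) ?_ ?_ ?_ ?_ hv
        · rintro _ ⟨a, ha, w, hw, rfl⟩
          exact p.ring.mul_mem _ _ ha (h1' w hw i)
        · exact p.ring.zero_mem
        · intro x y _ _ hx hy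
          exact p.ring.add_mem _ _ hx hy
        · intro z x _ hx
          rw [Pi.smul_apply, Algebra.smul_def]
          exact p.ring.mul_mem _ _ (p.const z) hx
      exact ⟨hall 0, hall 1⟩
    · rintro ⟨hv1, hv2⟩
      have hdi : (det2 v0 w0)⁻¹ ∈ p.ring := by
        rw [V.mem p _ (inv_ne_zero hd), V.ord_inv p hd, h2']; simp
      have hsub : ∀ a b : K, a ∈ p.ring → b ∈ p.ring → a - b ∈ p.ring := by
        intro a b ha hb
        rw [sub_eq_add_neg]; exact p.ring.add_mem _ _ ha (p.ring.neg_mem _ hb)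
      rw [cramer v0 w0 v hd]
      refine Submodule.add_mem _ (smul_mem_gnV ?_ hv0) (smul_mem_gnV ?_ hw0)
      · rw [div_eq_mul_inv]
        exact p.ring.mul_mem _ _ (hsub _ _ (p.ring.mul_mem _ _ hv1 (h1' w0 hw0 1))
          (p.ring.mul_mem _ _ hv2 (h1' w0 hw0 0))) hdi
      · rw [div_eq_mul_inv]
        exact p.ring.mul_mem _ _ (hsub _ _ (p.ring.mul_mem _ _ (h1' v0 hv0 0) hv2)
          (p.ring.mul_mem _ _ (h1' v0 hv0 1) hv1)) hdi
  refine ⟨⟨fun p => gnV p W, ?_, htriv⟩, fun p => rfl, ?_, ?_⟩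
  · intro p
    obtain ⟨e, _, e', _, hd, hl⟩ := hloc p
    exact ⟨e, e', hd, fun v => by rw [hl]; exact mem_lat⟩
  · intro w hw
    unfold Pool.Agent.RTB.VB2.H
    rw [Submodule.mem_iInf]
    intro p
    have := smul_mem_gnV (p := p) p.ring.one_mem hw
    rwa [one_smul] at this
  · intro p
    obtain ⟨e, he, e', he', hd, hl⟩ := hloc p
    apply le_antisymm
    · refine Submodule.span_le.mpr ?_
      rintro _ ⟨v, hv, w, hw, rfl⟩
      change v ∈ gnV p W at hv
      change w ∈ gnV p W at hw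
      rw [hl] at hv hw
      obtain ⟨a, ha, b, hb, rfl⟩ := hv
      obtain ⟨c, hc, d, hd', rfl⟩ := hw
      have h1 : det2 (a • e + b • e') (c • e + d • e') = (a * d - b * c) * det2 e e' := by
        simp only [det2, Pi.add_apply, Pi.smul_apply, smul_eq_mul]; ring
      refine Submodule.subset_span ⟨a * d - b * c, ?_, det2 e e',
        Submodule.subset_span ⟨e, he, e', he', rfl⟩, h1⟩
      rw [sub_eq_add_neg]
      exact p.ring.add_mem _ _ (p.ring.mul_mem _ _ ha hd')
        (p.ring.neg_mem _ (p.ring.mul_mem _ _ hb hc))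
    · refine Submodule.span_le.mpr ?_
      rintro _ ⟨a, ha, w, hw, rfl⟩
      have h1 : dets W ≤ (VB2.det ⟨fun p => gnV p W, fun p => by
          obtain ⟨e, _, e', _, hd, hl⟩ := hloc p
          exact ⟨e, e', hd, fun v => by rw [hl]; exact mem_lat⟩, htriv⟩ p).comap
          (LinearMap.mulLeft ℂ a) := by
        refine Submodule.span_le.mpr ?_
        rintro _ ⟨v, hv, w', hw', rfl⟩
        rw [SetLike.mem_coe, Submodule.mem_comap, LinearMap.mulLeft_apply]
        refine Submodule.subset_span ⟨a • v, smul_mem_gnV ha hv, w', ?_, ?_⟩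
        · have := smul_mem_gnV (p := p) p.ring.one_mem hw'
          rwa [one_smul] at this
        · rw [det2_smulK_left]
      exact h1 hw

end Pool.Agent.RTB.Crv
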