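import Pool.Agent.RTB.Crv.Stmts

set_option autoImplicit false

namespace Pool.Agent.RTB.Crv

open Module

theorem gns_proof (hLDV : Stmt_LDV) (hDGM : Stmt_DGM) : Stmt_GNS := by
  intro K _ _ V g
  unfold IsGenus
  constructor
  · rintro ⟨⟨M, hM, hg⟩, hub⟩
    constructor
    · intro D
      have h1 : IsLineBundle (fun p => V.Lp p (D p)) := (hLDV K V _).mpr ⟨D, fun _ => rfl⟩
      obtain ⟨h2, h3, -⟩ := hDGM K V (fun p => V.Lp p (D p)) D (fun _ => rfl)
      have h4 := hub ⟨_, h1, rfl⟩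
      rw [h2, h3] at h4
      exact h4
    · obtain ⟨D, hD⟩ := (hLDV K V M).mp hM
      obtain ⟨h2, h3, -⟩ := hDGM K V M D hD
      refine ⟨D, ?_⟩
      rw [← h2, ← h3]
      exact hg.symm
  · rintro ⟨hub, D, hD⟩
    constructor
    · have h1 : IsLineBundle (fun p => V.Lp p (D p)) := (hLDV K V _).mpr ⟨D, fun _ => rfl⟩
      obtain ⟨h2, h3, -⟩ := hDGM K V (fun p => V.Lp p (D p)) D (fun _ => rfl)
      refine ⟨_, h1, ?_⟩
      rw [h2, h3]
      exact hD.symm
    · rintro n ⟨M, hM, rfl⟩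
      obtain ⟨D, hD⟩ := (hLDV K V M).mp hM
      obtain ⟨h2, h3, -⟩ := hDGM K V M D hD
      rw [h2, h3]
      exact hub D

end Pool.Agent.RTB.Crv
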