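import Pool.Agent.RTB.Crv.Stmts

/-!
# squad RTB, module C.IDX: the relative index
-/

set_option autoImplicit false

namespace Pool.Agent.RTB.Crv

open Module

namespace IDX_

variable {K : Type} [Field K] [Algebra ℂ K]

theorem O_eq (V : Val K) (p : Pt K) : p.O = V.Lp p 0 := by
  ext x
  rw [V.mem_Lp]
  show x ∈ p.ring ↔ _
  by_cases hx : x = 0
  · rw [hx]
    simp [p.ring.zero_mem]
  · rw [V.mem p x hx, neg_zero]
    constructor
    · intro h
      exact Or.inr h
    · rintro (h | h)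
      · exact absurd h hx
      · exact h

theorem quot_top {P Q : Submodule ℂ K} (h : P ≤ Q) :
    finrank ℂ (P ⧸ (Q.comap P.subtype)) = 0 := by
  have h1 : Q.comap P.subtype = ⊤ := by
    rw [eq_top_iff]
    intro x _
    exact h x.2
  rw [h1]
  exact finrank_zero_of_subsingleton

theorem idx_eq (hLPQ : Stmt_LPQ) (V : Val K) (p : Pt K) (n : ℤ) : idx (V.Lp p n) p.O = n := by
  rw [O_eq V p, idx]
  rcases le_total 0 n with hn | hn
  · obtain ⟨h1, _, h3⟩ := hLPQ K V p 0 n hn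
    rw [h3, quot_top h1]
    simp
  · obtain ⟨h1, _, h3⟩ := hLPQ K V p n 0 hn
    rw [h3, quot_top h1]
    simp

end IDX_

theorem idx_proof (hLPQ : Stmt_LPQ) : Stmt_IDX := by
  intro K _ _ V p n
  refine ⟨IDX_.O_eq V p, IDX_.idx_eq hLPQ V p n, ?_⟩
  intro m hm
  rw [← IDX_.idx_eq hLPQ V p m, hm, IDX_.idx_eq hLPQ V p n]

end Pool.Agent.RTB.Crv
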