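import Pool.Agent.RTB.Crv.Stmts

/-!
# squad RTB, module C.LDV: line bundles are divisors
-/

set_option autoImplicit false

namespace Pool.Agent.RTB.Crv

open Module

namespace LDV_

variable {K : Type} [Field K] [Algebra ℂ K]

theorem ord_pow (V : Val K) (p : Pt K) {t : K} (ht : t ≠ 0) (n : ℕ) :
    V.ord p (t ^ n) = n * V.ord p t := by
  induction n with
  | zero => simp [V.ord_one]
  | succ n ih =>
    rw [pow_succ, V.mul p _ _ (pow_ne_zero n ht) ht, ih]
    push_cast
    ring

theorem ord_zpow (V : Val K) (p : Pt K) {t : K} (ht : t ≠ 0) (n : ℤ) :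
    V.ord p (t ^ n) = n * V.ord p t := by
  obtain ⟨m, rfl | rfl⟩ := n.eq_nat_or_neg
  · rw [zpow_natCast, ord_pow V p ht]
  · rw [zpow_neg, zpow_natCast, V.ord_inv p (pow_ne_zero m ht), ord_pow V p ht]
    ring

theorem mem_iff (V : Val K) (p : Pt K) {f : K} (hf : f ≠ 0) (x : K) :
    (∃ a ∈ p.ring, x = a * f) ↔ x ∈ V.Lp p (-V.ord p f) := by
  rw [V.mem_Lp, neg_neg]
  constructor
  · rintro ⟨a, ha, rfl⟩
    by_cases ha0 : a = 0
    · left
      rw [ha0, zero_mul]
    · right
      rw [V.mul p a f ha0 hf]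
      have := (V.mem p a ha0).1 ha
      linarith
  · rintro (h | h)
    · exact ⟨0, p.ring.zero_mem, by rw [h, zero_mul]⟩
    · by_cases hx : x = 0
      · exact ⟨0, p.ring.zero_mem, by rw [hx, zero_mul]⟩
      · refine ⟨x * f⁻¹, ?_, ?_⟩
        · rw [V.mem p _ (mul_ne_zero hx (inv_ne_zero hf)), V.mul p _ _ hx (inv_ne_zero hf),
            V.ord_inv p hf]
          linarith
        · rw [mul_assoc, inv_mul_cancel₀ hf, mul_one]

end LDV_

theorem ldv_proof (hIDX : Stmt_IDX) : Stmt_LDV := by
  intro K _ _ V M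
  constructor
  · rintro ⟨h1, h2⟩
    choose f hf0 hf using h1
    have hM : ∀ p, M p = V.Lp p (-V.ord p (f p)) := by
      intro p
      ext x
      rw [hf p x, LDV_.mem_iff V p (hf0 p)]
    have hfin : (Function.support fun p => -V.ord p (f p)).Finite := by
      apply h2.subset
      intro p hp hMp
      apply hp
      have h3 := (hIDX K V p 0).2.2 (-V.ord p (f p))
      apply h3
      rw [← hM p, ← (hIDX K V p 0).1]
      exact hMp
    exact ⟨Finsupp.ofSupportFinite _ hfin, fun p => hM p⟩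
  · rintro ⟨D, hD⟩
    constructor
    · intro p
      obtain ⟨t, ht0, ht⟩ := V.unif p
      refine ⟨t ^ (-D p), zpow_ne_zero _ ht0, fun x => ?_⟩
      rw [LDV_.mem_iff V p (zpow_ne_zero _ ht0), LDV_.ord_zpow V p ht0, ht, mul_one, neg_neg,
        hD p]
    · apply D.support.finite_toSet.subset
      intro p hp
      rw [Finset.mem_coe, Finsupp.mem_support_iff]
      intro h0
      apply hp
      rw [hD p, h0]
      exact (hIDX K V p 0).1.symm

end Pool.Agent.RTB.Crv
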