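import Pool.Agent.RTB.Crv.Stmts

/-!
# squad RTB, module C.LOC: a point over a Dedekind ring is a localisation
-/

set_option autoImplicit false

namespace Pool.Agent.RTB.Crv

open Module

namespace LOC_

open IsDedekindDomain WithZero

section
variable {K : Type} [Field K] [Algebra ℂ K]

/-- the centre of a point on `B` -/
def cen (B : Subalgebra ℂ K) (p : Pt K) (hB : ∀ b ∈ B, b ∈ p.ring) : Ideal B where
  carrier := {b | (b : K) ∈ p.ring.nonunits}
  zero_mem' := p.ring.nonunits.zero_mem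
  add_mem' := fun ha hb => p.ring.nonunits.add_mem ha hb
  smul_mem' := fun c x hx => by
    have h1 : p.ring.valuation (c : K) ≤ 1 := (p.ring.valuation_le_one_iff _).mpr (hB _ c.2)
    have h2 : p.ring.valuation (x : K) < 1 := p.ring.mem_nonunits_iff.mp hx
    show ((c * x : B) : K) ∈ p.ring.nonunits
    rw [p.ring.mem_nonunits_iff]
    push_cast
    rw [map_mul]
    exact mul_lt_one_of_nonneg_of_lt_one_right h1 zero_le h2

theorem mem_cen {B : Subalgebra ℂ K} {p : Pt K} {hB : ∀ b ∈ B, b ∈ p.ring} {b : B} :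
    b ∈ cen B p hB ↔ (b : K) ∈ p.ring.nonunits := Iff.rfl

theorem prime (B : Subalgebra ℂ K) (p : Pt K) (hB : ∀ b ∈ B, b ∈ p.ring) :
    (cen B p hB).IsPrime := by
  rw [Ideal.isPrime_iff]
  refine ⟨?_, ?_⟩
  · rw [Ne, Ideal.eq_top_iff_one, mem_cen, p.ring.mem_nonunits_iff]
    push_cast
    rw [map_one]
    exact lt_irrefl _
  · intro x y hxy
    by_contra hcon
    push Not at hcon
    obtain ⟨hx, hy⟩ := hcon
    rw [mem_cen, p.ring.mem_nonunits_iff, not_lt] at hx hy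
    rw [mem_cen, p.ring.mem_nonunits_iff] at hxy
    have h1 := le_antisymm ((p.ring.valuation_le_one_iff _).mpr (hB _ x.2)) hx
    have h2 := le_antisymm ((p.ring.valuation_le_one_iff _).mpr (hB _ y.2)) hy
    push_cast at hxy
    rw [map_mul, h1, h2, one_mul] at hxy
    exact lt_irrefl _ hxy

theorem inv_mem (B : Subalgebra ℂ K) (p : Pt K) (hB : ∀ b ∈ B, b ∈ p.ring) (b : B)
    (hb : b ∉ cen B p hB) : (b : K) ≠ 0 ∧ (b : K)⁻¹ ∈ p.ring := by
  rw [mem_cen, p.ring.mem_nonunits_iff_or, not_or, not_not] at hb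
  exact hb

theorem ne_bot (B : Subalgebra ℂ K) [IsFractionRing B K] (p : Pt K)
    (hB : ∀ b ∈ B, b ∈ p.ring) : cen B p hB ≠ ⊥ := by
  intro h
  apply p.ne_top
  rw [eq_top_iff]
  intro x _
  obtain ⟨a, b, hb, rfl⟩ := IsFractionRing.div_surjective (A := B) x
  have hb0 : b ≠ 0 := nonZeroDivisors.ne_zero hb
  have hb1 : b ∉ cen B p hB := by rw [h]; exact hb0
  rw [div_eq_mul_inv]
  exact p.ring.mul_mem _ _ (hB _ a.2) (inv_mem B p hB b hb1).2

variable (B : Subalgebra ℂ K) [IsDedekindDomain B] [IsFractionRing B K] (p : Pt K)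
  (hB : ∀ b ∈ B, b ∈ p.ring)

/-- the centre as a maximal ideal -/
def ht : HeightOneSpectrum B := ⟨cen B p hB, prime B p hB, ne_bot B p hB⟩

theorem frac (y : K) (hy : (ht B p hB).valuation K y ≤ 1) :
    ∃ a b : B, b ∉ cen B p hB ∧ y * b = a := by
  obtain ⟨n, d, h⟩ := (ht B p hB).exists_primeCompl_mul_eq_of_integer y hy
  exact ⟨n, d, d.2, h⟩

theorem mem_of_le (y : K) (hy : (ht B p hB).valuation K y ≤ 1) : y ∈ p.ring := by
  obtain ⟨a, b, hb, h⟩ := frac B p hB y hy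
  obtain ⟨h0, h1⟩ := inv_mem B p hB b hb
  have : y = a * (b : K)⁻¹ := by rw [← h, mul_assoc, mul_inv_cancel₀ h0, mul_one]
  rw [this]
  exact p.ring.mul_mem _ _ (hB _ a.2) h1

theorem nonunit_of_lt (y : K) (hy : (ht B p hB).valuation K y < 1) : y ∈ p.ring.nonunits := by
  obtain ⟨a, b, hb, h⟩ := frac B p hB y hy.le
  obtain ⟨h0, h1⟩ := inv_mem B p hB b hb
  have e1 : y = a * (b : K)⁻¹ := by rw [← h, mul_assoc, mul_inv_cancel₀ h0, mul_one]
  have ha : a ∈ cen B p hB := by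
    have h2 : (ht B p hB).valuation K (algebraMap B K a) < 1 := by
      have h3 : algebraMap B K a = y * algebraMap B K b := h.symm
      rw [h3, map_mul]
      exact mul_lt_one_of_lt_of_le hy ((ht B p hB).valuation_le_one b)
    exact ((ht B p hB).valuation_lt_one_iff_mem a).mp h2
  rw [mem_cen, p.ring.mem_nonunits_iff] at ha
  rw [p.ring.mem_nonunits_iff, e1, map_mul]
  exact mul_lt_one_of_lt_of_le ha ((p.ring.valuation_le_one_iff _).mpr h1)

theorem exists_zpow (x : K) (hx : x ≠ 0) (π : K)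
    (hπ : (ht B p hB).valuation K π = exp (-1 : ℤ)) :
    ∃ n : ℤ, (ht B p hB).valuation K x = exp n ∧
      (ht B p hB).valuation K (x * π ^ n) = 1 := by
  have h0 : (ht B p hB).valuation K x ≠ 0 := by
    rw [Ne, map_eq_zero]; exact hx
  refine ⟨log ((ht B p hB).valuation K x), (exp_log h0).symm, ?_⟩
  rw [map_mul, map_zpow₀, hπ, ← exp_zsmul]
  nth_rewrite 1 [← exp_log h0]
  rw [← exp_add]
  simp

theorem le_one_of_mem (y : K) (hy : y ∈ p.ring) : (ht B p hB).valuation K y ≤ 1 := by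
  by_contra hcon
  rw [not_le] at hcon
  have hy0 : y ≠ 0 := by
    rintro rfl
    rw [map_zero] at hcon
    exact absurd hcon (not_lt.mpr zero_le)
  obtain ⟨π, hπ⟩ := (ht B p hB).valuation_exists_uniformizer K
  obtain ⟨n, hn, hu⟩ := exists_zpow B p hB y hy0 π hπ
  have hn1 : 0 < n := by
    rw [hn, ← exp_zero, exp_lt_exp] at hcon
    exact hcon
  obtain ⟨k, rfl⟩ : ∃ k : ℕ, n = (k : ℤ) + 1 := ⟨(n - 1).toNat, by omega⟩
  have hπ1 : (ht B p hB).valuation K π < 1 := by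
    rw [hπ, ← exp_zero, exp_lt_exp]; norm_num
  have h1 := nonunit_of_lt B p hB π hπ1
  rw [p.ring.mem_nonunits_iff] at h1
  have h2 : (y * π ^ ((k : ℤ) + 1))⁻¹ ∈ p.ring := by
    apply mem_of_le B p hB
    rw [map_inv₀, hu, inv_one]
  have h2' := (p.ring.valuation_le_one_iff _).mpr h2
  have h3 := (p.ring.valuation_le_one_iff _).mpr hy
  have h4 : p.ring.valuation (y * π ^ ((k : ℤ) + 1)) < 1 := by
    have e1 : ((k : ℤ) + 1) = ((k + 1 : ℕ) : ℤ) := by push_cast; ring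
    rw [e1, zpow_natCast, map_mul, map_pow]
    exact mul_lt_one_of_nonneg_of_lt_one_right h3 zero_le (pow_lt_one₀ zero_le h1 (by omega))
  have hne : y * π ^ ((k : ℤ) + 1) ≠ 0 := by
    intro h
    rw [h, map_zero] at hu
    exact zero_ne_one hu
  have h5 : p.ring.valuation ((y * π ^ ((k : ℤ) + 1)) * (y * π ^ ((k : ℤ) + 1))⁻¹) < 1 := by
    rw [map_mul]
    exact mul_lt_one_of_lt_of_le h4 h2'
  rw [mul_inv_cancel₀ hne, map_one] at h5
  exact lt_irrefl _ h5

end

end LOC_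

theorem loc_proof : Stmt_LOC := by
  intro K _ _ B hD hF p hB
  refine ⟨?_, ?_⟩
  · intro y
    constructor
    · intro hy
      obtain ⟨a, b, hb, h⟩ := LOC_.frac B p hB y (LOC_.le_one_of_mem B p hB y hy)
      obtain ⟨h0, -⟩ := LOC_.inv_mem B p hB b hb
      refine ⟨a, a.2, b, b.2, hb, ?_⟩
      rw [eq_div_iff h0, h]
    · rintro ⟨a, ha, b, hb, hn, rfl⟩
      obtain ⟨h0, h1⟩ := LOC_.inv_mem B p hB ⟨b, hb⟩ hn
      rw [div_eq_mul_inv]
      exact p.ring.mul_mem _ _ (hB _ ha) h1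
  · obtain ⟨π, hπ⟩ := (LOC_.ht B p hB).valuation_exists_uniformizer K
    have hπ1 : (LOC_.ht B p hB).valuation K π < 1 := by
      rw [hπ, ← WithZero.exp_zero, WithZero.exp_lt_exp]; norm_num
    refine ⟨π, ?_, LOC_.nonunit_of_lt B p hB π hπ1, ?_⟩
    · rintro rfl
      rw [map_zero] at hπ
      exact WithZero.exp_ne_zero hπ.symm
    · intro x hx
      obtain ⟨n, -, hu⟩ := LOC_.exists_zpow B p hB x hx π hπ
      refine ⟨n, LOC_.mem_of_le B p hB _ hu.le, LOC_.mem_of_le B p hB _ ?_⟩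
      rw [map_inv₀, hu, inv_one]

end Pool.Agent.RTB.Crv
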