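import Pool.Agent.RTB.Crv.Stmts

/-!
# squad RTB, module C.LPQ: dimension of the local quotients
-/

set_option autoImplicit false

namespace Pool.Agent.RTB.Crv

open Module

namespace LPQ_

section
variable {K : Type} [Field K] [Algebra ℂ K]

/-- additivity of the dimension of quotients -/
theorem tower (A B C : Submodule ℂ K) (hAB : A ≤ B) (hBC : B ≤ C)
    (h1 : FiniteDimensional ℂ (B ⧸ A.comap B.subtype))
    (h2 : FiniteDimensional ℂ (C ⧸ B.comap C.subtype)) :
    FiniteDimensional ℂ (C ⧸ A.comap C.subtype) ∧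
    finrank ℂ (C ⧸ A.comap C.subtype) = finrank ℂ (C ⧸ B.comap C.subtype) +
      finrank ℂ (B ⧸ A.comap B.subtype) := by
  have hle : A.comap C.subtype ≤ B.comap C.subtype := Submodule.comap_mono hAB
  set g : (C ⧸ A.comap C.subtype) →ₗ[ℂ] (C ⧸ B.comap C.subtype) := Submodule.factor hle with hg
  have hgs : Function.Surjective g := Submodule.factor_surjective hle
  set e : B →ₗ[ℂ] (C ⧸ A.comap C.subtype) :=
    (A.comap C.subtype).mkQ.comp (Submodule.inclusion hBC) with he
  have hke : LinearMap.ker e = A.comap B.subtype := by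
    ext b
    rw [LinearMap.mem_ker, he, LinearMap.comp_apply, Submodule.mkQ_apply,
      Submodule.Quotient.mk_eq_zero]
    simp
  have hre : LinearMap.range e = LinearMap.ker g := by
    ext q
    constructor
    · rintro ⟨b, rfl⟩
      rw [LinearMap.mem_ker, he, LinearMap.comp_apply, hg, Submodule.factor_mk,
        Submodule.mkQ_apply, Submodule.Quotient.mk_eq_zero]
      simp
    · intro hq
      obtain ⟨c, rfl⟩ := Submodule.Quotient.mk_surjective _ q
      rw [LinearMap.mem_ker, hg, ← Submodule.mkQ_apply, Submodule.factor_mk, Submodule.mkQ_apply,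
        Submodule.Quotient.mk_eq_zero] at hq
      refine ⟨⟨(c : K), hq⟩, ?_⟩
      rw [he, LinearMap.comp_apply, Submodule.mkQ_apply]
      congr 1
  have eq1 : (B ⧸ A.comap B.subtype) ≃ₗ[ℂ] LinearMap.ker g :=
    (Submodule.quotEquivOfEq _ _ hke.symm).trans
      (e.quotKerEquivRange.trans (LinearEquiv.ofEq _ _ hre))
  have eq2 : ((C ⧸ A.comap C.subtype) ⧸ LinearMap.ker g) ≃ₗ[ℂ] (C ⧸ B.comap C.subtype) :=
    g.quotKerEquivOfSurjective hgs
  have : FiniteDimensional ℂ (LinearMap.ker g) := LinearEquiv.finiteDimensional eq1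
  have : FiniteDimensional ℂ ((C ⧸ A.comap C.subtype) ⧸ LinearMap.ker g) :=
    LinearEquiv.finiteDimensional eq2.symm
  have hfin : FiniteDimensional ℂ (C ⧸ A.comap C.subtype) :=
    Module.Finite.of_submodule_quotient (LinearMap.ker g)
  refine ⟨hfin, ?_⟩
  have h3 := Submodule.finrank_quotient_add_finrank (LinearMap.ker g)
  rw [← h3, eq2.finrank_eq, eq1.finrank_eq]

variable (V : Val K)

theorem ord_pow (p : Pt K) {t : K} (ht : t ≠ 0) (h1 : V.ord p t = 1) (n : ℕ) :
    V.ord p (t ^ n) = n := by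
  induction n with
  | zero => rw [pow_zero, V.ord_one]; rfl
  | succ n ih => rw [pow_succ, V.mul p _ _ (pow_ne_zero n ht) ht, ih, h1]; push_cast; ring

theorem ord_zpow (p : Pt K) {t : K} (ht : t ≠ 0) (h1 : V.ord p t = 1) (n : ℤ) :
    V.ord p (t ^ n) = n := by
  obtain ⟨k, rfl | rfl⟩ := n.eq_nat_or_neg
  · rw [zpow_natCast, ord_pow V p ht h1]
  · rw [zpow_neg, zpow_natCast, V.ord_inv p (pow_ne_zero k ht), ord_pow V p ht h1]

theorem mono (p : Pt K) {m n : ℤ} (h : m ≤ n) : V.Lp p m ≤ V.Lp p n := by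
  intro x hx
  rw [V.mem_Lp] at hx ⊢
  rcases hx with hx | hx
  · exact Or.inl hx
  · right; linarith

theorem step (p : Pt K) (n : ℤ) :
    finrank ℂ (V.Lp p (n + 1) ⧸ ((V.Lp p n).comap (V.Lp p (n + 1)).subtype)) = 1 := by
  obtain ⟨t, ht, h1⟩ := V.unif p
  have hmem : t ^ (-(n + 1)) ∈ V.Lp p (n + 1) := by
    rw [V.mem_Lp]; right; rw [ord_zpow V p ht h1]
  have hnot : t ^ (-(n + 1)) ∉ V.Lp p n := by
    rw [V.mem_Lp]
    rintro (h | h)
    · exact zpow_ne_zero _ ht h
    · rw [ord_zpow V p ht h1] at h; linarith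
  set v : V.Lp p (n + 1) ⧸ ((V.Lp p n).comap (V.Lp p (n + 1)).subtype) :=
    Submodule.Quotient.mk ⟨t ^ (-(n + 1)), hmem⟩ with hv
  have hv0 : v ≠ 0 := by
    rw [hv, Ne, Submodule.Quotient.mk_eq_zero]
    exact hnot
  rw [finrank_eq_one_iff_of_nonzero' v hv0]
  intro w
  obtain ⟨⟨x, hx⟩, rfl⟩ := Submodule.Quotient.mk_surjective _ w
  have hring : x * t ^ (n + 1) ∈ p.ring := by
    by_cases hx0 : x = 0
    · rw [hx0, zero_mul]; exact p.ring.zero_mem
    rw [V.mem p _ (mul_ne_zero hx0 (zpow_ne_zero _ ht)), V.mul p _ _ hx0 (zpow_ne_zero _ ht),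
      ord_zpow V p ht h1]
    rw [V.mem_Lp] at hx
    rcases hx with hx | hx
    · exact absurd hx hx0
    · linarith
  obtain ⟨z, hz⟩ := V.res p _ hring
  refine ⟨z, ?_⟩
  rw [hv, ← Submodule.Quotient.mk_smul, Submodule.Quotient.eq]
  have hkey : z • t ^ (-(n + 1)) - x =
      -((x * t ^ (n + 1) - algebraMap ℂ K z) * t ^ (-(n + 1))) := by
    rw [Algebra.smul_def, sub_mul, mul_assoc, ← zpow_add₀ ht, add_neg_cancel, zpow_zero]
    ring
  have hgoal : z • t ^ (-(n + 1)) - x ∈ V.Lp p n := by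
    rw [hkey]
    apply (V.Lp p n).neg_mem
    rw [V.mem_Lp]
    rcases hz with hz | hz
    · left; rw [hz, zero_mul]
    · by_cases h0 : x * t ^ (n + 1) - algebraMap ℂ K z = 0
      · left; rw [h0, zero_mul]
      right
      rw [V.mul p _ _ h0 (zpow_ne_zero _ ht), ord_zpow V p ht h1]
      linarith
  exact hgoal

theorem main (p : Pt K) (m : ℤ) (k : ℕ) :
    FiniteDimensional ℂ (V.Lp p (m + k) ⧸ ((V.Lp p m).comap (V.Lp p (m + k)).subtype)) ∧
    finrank ℂ (V.Lp p (m + k) ⧸ ((V.Lp p m).comap (V.Lp p (m + k)).subtype)) = k := by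
  induction k with
  | zero =>
    have htop : (V.Lp p m).comap (V.Lp p (m + (0 : ℕ))).subtype = ⊤ := by
      rw [eq_top_iff]
      rintro ⟨x, hx⟩ _
      have h2 : V.Lp p (m + (0 : ℕ)) = V.Lp p m := by
        rw [Nat.cast_zero, add_zero]
      rw [Submodule.mem_comap]
      show x ∈ V.Lp p m
      rw [← h2]; exact hx
    have : Subsingleton (V.Lp p (m + (0 : ℕ)) ⧸
        ((V.Lp p m).comap (V.Lp p (m + (0 : ℕ))).subtype)) := by
      rw [htop]; infer_instance
    refine ⟨inferInstance, ?_⟩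
    exact finrank_zero_of_subsingleton
  | succ k ih =>
    obtain ⟨h1, h2⟩ := ih
    have h3 := step V p (m + k)
    have e1 : m + ((k + 1 : ℕ) : ℤ) = m + k + 1 := by push_cast; ring
    rw [e1]
    have h4 : FiniteDimensional ℂ
        (V.Lp p (m + k + 1) ⧸ ((V.Lp p (m + k)).comap (V.Lp p (m + k + 1)).subtype)) :=
      FiniteDimensional.of_finrank_pos (by rw [h3]; exact one_pos)
    have h5 := tower (V.Lp p m) (V.Lp p (m + k)) (V.Lp p (m + k + 1))
      (mono V p (by linarith [Int.natCast_nonneg k])) (mono V p (by linarith)) h1 h4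
    refine ⟨h5.1, ?_⟩
    rw [h5.2, h3, h2]; ring

end

end LPQ_

theorem lpq_proof : Stmt_LPQ := by
  intro K _ _ V p m n hmn
  obtain ⟨k, hk⟩ := Int.eq_ofNat_of_zero_le (sub_nonneg.mpr hmn)
  have hn : n = m + k := by linarith
  subst hn
  obtain ⟨h1, h2⟩ := LPQ_.main V p m k
  refine ⟨LPQ_.mono V p hmn, h1, ?_⟩
  rw [h2]; ring

end Pool.Agent.RTB.Crv
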