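import Pool.Agent.RTB.Crv.Stmts

/-!
# squad RTB: module PEM (base point free pencil trick)
-/

set_option autoImplicit false

namespace Pool.Agent.RTB.Crv

open Module

namespace PEM_

variable {K : Type} [Field K] [Algebra ℂ K]

theorem dg_add (D D' : Pt K →₀ ℤ) : dg (D + D') = dg D + dg D' := by
  unfold dg
  exact Finsupp.sum_add_index' (fun _ => rfl) (fun _ _ _ => rfl)

theorem dg_neg (D : Pt K →₀ ℤ) : dg (-D) = - dg D := by
  have h := dg_add D (-D)
  rw [add_neg_cancel] at h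
  have h0 : dg (0 : Pt K →₀ ℤ) = 0 := by unfold dg; exact Finsupp.sum_zero_index
  rw [h0] at h
  linarith

theorem dg_sub (D D' : Pt K →₀ ℤ) : dg (D - D') = dg D - dg D' := by
  rw [sub_eq_add_neg, dg_add, dg_neg]
  ring

theorem dg_np (p : Pt K) (n : ℤ) : dg (np p n) = n := by
  unfold dg np
  exact Finsupp.sum_single_index rfl

/-- products -/
theorem mul_mem_Lp (V : Val K) {p : Pt K} {a b : ℤ} {x y : K} (hx : x ∈ V.Lp p a)
    (hy : y ∈ V.Lp p b) : x * y ∈ V.Lp p (a + b) := by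
  rw [V.mem_Lp] at *
  by_cases hx0 : x = 0
  · left; rw [hx0, zero_mul]
  by_cases hy0 : y = 0
  · left; rw [hy0, mul_zero]
  right
  rcases hx with hx | hx
  · exact absurd hx hx0
  rcases hy with hy | hy
  · exact absurd hy hy0
  rw [V.mul p x y hx0 hy0]
  linarith

theorem mul_mem_L (V : Val K) {D D' : Pt K →₀ ℤ} {x y : K} (hx : x ∈ V.L D)
    (hy : y ∈ V.L D') : x * y ∈ V.L (D + D') := by
  rw [V.mem_L] at *
  intro p
  rw [Finsupp.add_apply]
  exact mul_mem_Lp V (hx p) (hy p)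

/-- the map `(a, b) ↦ a w1 + b w2` -/
def phi (w1 w2 : K) (R : Submodule ℂ K) : (R × R) →ₗ[ℂ] K :=
  (LinearMap.mulRight ℂ w1 ∘ₗ R.subtype).coprod (LinearMap.mulRight ℂ w2 ∘ₗ R.subtype)

theorem phi_apply (w1 w2 : K) (R : Submodule ℂ K) (x : R × R) :
    phi w1 w2 R x = (x.1 : K) * w1 + (x.2 : K) * w2 := rfl

theorem ker_bound (V : Val K) (D N : Pt K →₀ ℤ) (w1 w2 : K) (h1 : w1 ≠ 0) (h2 : w2 ≠ 0)
    (hord : ∀ p, V.ord p w1 = - D p ∨ V.ord p w2 = - D p)
    (hfd : FiniteDimensional ℂ (V.L (N - D))) :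
    finrank ℂ (LinearMap.ker (phi w1 w2 (V.L N))) ≤ finrank ℂ (V.L (N - D)) := by
  have hmem : ∀ x : (V.L N) × (V.L N), phi w1 w2 (V.L N) x = 0 →
      (x.1 : K) * w2⁻¹ ∈ V.L (N - D) := by
    intro x hx
    rw [phi_apply] at hx
    rw [V.mem_L]
    intro p
    rw [V.mem_Lp]
    by_cases ha : (x.1 : K) = 0
    · left; rw [ha, zero_mul]
    right
    have hb : (x.2 : K) ≠ 0 := by
      intro hb
      rw [hb, zero_mul, add_zero] at hx
      rcases mul_eq_zero.mp hx with h | h
      · exact ha h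
      · exact h1 h
    have ha' : -N p ≤ V.ord p (x.1 : K) := by
      rcases (V.mem_L.mp x.1.2) p with h | h
      · exact absurd h ha
      · exact h
    have hb' : -N p ≤ V.ord p (x.2 : K) := by
      rcases (V.mem_L.mp x.2.2) p with h | h
      · exact absurd h hb
      · exact h
    rw [Finsupp.sub_apply]
    rcases hord p with h | h
    · have e : (x.1 : K) * w2⁻¹ = (-1) * ((x.2 : K) * w1⁻¹) := by
        field_simp
        linear_combination hx
      have hm1 : V.ord p (-1 : K) = 0 := by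
        have := V.ord_const p (z := (-1 : ℂ)) (by norm_num)
        rw [map_neg, map_one] at this
        exact this
      rw [e, V.mul p _ _ (by norm_num) (mul_ne_zero hb (inv_ne_zero h1)), hm1,
        V.mul p _ _ hb (inv_ne_zero h1), V.ord_inv p h1, h]
      linarith
    · rw [V.mul p _ _ ha (inv_ne_zero h2), V.ord_inv p h2, h]
      linarith
  let f : (LinearMap.ker (phi w1 w2 (V.L N))) →ₗ[ℂ] (V.L (N - D)) :=
    LinearMap.codRestrict (V.L (N - D))
      (LinearMap.mulRight ℂ w2⁻¹ ∘ₗ (V.L N).subtype ∘ₗ LinearMap.fst ℂ (V.L N) (V.L N) ∘ₗ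
        (LinearMap.ker (phi w1 w2 (V.L N))).subtype)
      (fun x => hmem x.1 (LinearMap.mem_ker.mp x.2))
  have hf : Function.Injective f := by
    intro x y hxy
    have hx1 : ((x.1.1 : V.L N) : K) * w2⁻¹ = ((y.1.1 : V.L N) : K) * w2⁻¹ :=
      congrArg Subtype.val hxy
    have ha : ((x.1.1 : V.L N) : K) = ((y.1.1 : V.L N) : K) :=
      mul_right_cancel₀ (inv_ne_zero h2) hx1
    have hx2 := LinearMap.mem_ker.mp x.2
    have hy2 := LinearMap.mem_ker.mp y.2
    rw [phi_apply] at hx2 hy2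
    rw [ha] at hx2
    have hb : ((x.1.2 : V.L N) : K) = ((y.1.2 : V.L N) : K) := by
      apply mul_right_cancel₀ h2
      linear_combination hx2 - hy2
    apply Subtype.ext
    apply Prod.ext
    · exact Subtype.ext ha
    · exact Subtype.ext hb
  exact LinearMap.finrank_le_finrank_of_injective hf

end PEM_

open PEM_ in
theorem pem_proof (hPOL : Stmt_POL) : Stmt_PEM := by
  intro K _ _ V g pt D W w1 w2 m hg hCF hD hW hw1 hw2 h1 h2 hord hm
  have hR : Rp pt m = V.L (np pt (m : ℤ)) := (hPOL K V pt pt m).2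
  rw [hR]
  have hmg : 4 * (g : ℤ) ≤ (m : ℤ) := by exact_mod_cast hm
  have hg' : (1 : ℤ) ≤ (g : ℤ) := by exact_mod_cast hg
  -- dimensions
  have hfR := hCF.fd (np pt (m : ℤ))
  have hfS := hCF.fd (D + np pt (m : ℤ))
  have hfK := hCF.fd (np pt (m : ℤ) - D)
  have dR : V.ell (np pt (m : ℤ)) = m + 1 - g := by
    have := hCF.rr (np pt (m : ℤ)) (by rw [dg_np]; linarith)
    rw [dg_np] at this
    exact this
  have dS : V.ell (D + np pt (m : ℤ)) = m + g - 1 := by
    have := hCF.rr (D + np pt (m : ℤ)) (by rw [dg_add, dg_np, hD]; linarith)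
    rw [dg_add, dg_np, hD] at this
    linarith
  have dK : V.ell (np pt (m : ℤ) - D) = m - 3 * g + 3 := by
    have := hCF.rr (np pt (m : ℤ) - D) (by rw [dg_sub, dg_np, hD]; linarith)
    rw [dg_sub, dg_np, hD] at this
    linarith
  unfold Val.ell at dR dS dK
  -- upper bound
  have hle : (V.L (np pt (m : ℤ)) * W : Submodule ℂ K) ≤ V.L (D + np pt (m : ℤ)) := by
    rw [Submodule.mul_le]
    intro a ha b hb
    rw [mul_comm]
    exact mul_mem_L V (hW hb) ha
  have hup : finrank ℂ (V.L (np pt (m : ℤ)) * W : Submodule ℂ K) ≤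
      finrank ℂ (V.L (D + np pt (m : ℤ))) := Submodule.finrank_mono hle
  -- lower bound
  have hfRW : FiniteDimensional ℂ (V.L (np pt (m : ℤ)) * W : Submodule ℂ K) :=
    Submodule.finiteDimensional_of_le hle
  have hrange : LinearMap.range (phi w1 w2 (V.L (np pt (m : ℤ)))) ≤
      (V.L (np pt (m : ℤ)) * W : Submodule ℂ K) := by
    rintro _ ⟨x, rfl⟩
    rw [phi_apply]
    exact Submodule.add_mem _ (Submodule.mul_mem_mul x.1.2 hw1)
      (Submodule.mul_mem_mul x.2.2 hw2)
  have hlow : finrank ℂ (LinearMap.range (phi w1 w2 (V.L (np pt (m : ℤ))))) ≤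
      finrank ℂ (V.L (np pt (m : ℤ)) * W : Submodule ℂ K) := Submodule.finrank_mono hrange
  have hrn := LinearMap.finrank_range_add_finrank_ker (phi w1 w2 (V.L (np pt (m : ℤ))))
  rw [Module.finrank_prod] at hrn
  have hkb := ker_bound V D (np pt (m : ℤ)) w1 w2 h1 h2 hord hfK
  omega

end Pool.Agent.RTB.Crv
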