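import Pool.Agent.RTB.Crv.Stmts

/-!
# squad RTB, module C.PEN: a pencil without base points
-/

set_option autoImplicit false

namespace Pool.Agent.RTB.Crv

open Module

namespace PEN_

variable {K : Type} [Field K] [Algebra ℂ K]

theorem ord_pow (V : Val K) (p : Pt K) {t : K} (ht : t ≠ 0) (n : ℕ) :
    V.ord p (t ^ n) = n * V.ord p t := by
  induction n with
  | zero => rw [pow_zero, V.ord_one]; simp
  | succ n ih =>
    rw [pow_succ, V.mul p _ _ (pow_ne_zero n ht) ht, ih]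
    push_cast
    ring

theorem ord_zpow (V : Val K) (p : Pt K) {t : K} (ht : t ≠ 0) (n : ℤ) :
    V.ord p (t ^ n) = n * V.ord p t := by
  obtain ⟨m, rfl | rfl⟩ := n.eq_nat_or_neg
  · rw [zpow_natCast, ord_pow V p ht]
  · rw [zpow_neg, zpow_natCast, V.ord_inv p (pow_ne_zero m ht), ord_pow V p ht]
    ring

theorem exists_ord (V : Val K) (p : Pt K) (n : ℤ) : ∃ x : K, x ≠ 0 ∧ V.ord p x = n := by
  obtain ⟨t, ht, h1⟩ := V.unif p
  exact ⟨t ^ n, zpow_ne_zero n ht, by rw [ord_zpow V p ht, h1, mul_one]⟩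

theorem not_le (V : Val K) (p : Pt K) (n : ℤ) : ¬ V.Lp p n ≤ V.Lp p (n - 1) := by
  intro h
  obtain ⟨x, hx, hn⟩ := exists_ord V p (-n)
  have h1 : x ∈ V.Lp p n := (V.mem_Lp).mpr (Or.inr (by rw [hn]))
  rcases (V.mem_Lp).mp (h h1) with h2 | h2
  · exact hx h2
  · rw [hn] at h2
    linarith

theorem mul_mem_Lp (V : Val K) (p : Pt K) (n : ℤ) {a w : K} (ha : a ∈ p.ring)
    (hw : w ∈ V.Lp p n) : a * w ∈ V.Lp p n := by
  by_cases ha0 : a = 0
  · rw [ha0, zero_mul]
    exact Submodule.zero_mem _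
  rcases (V.mem_Lp).mp hw with h | h
  · rw [h, mul_zero]
    exact Submodule.zero_mem _
  by_cases hw0 : w = 0
  · rw [hw0, mul_zero]
    exact Submodule.zero_mem _
  rw [V.mem_Lp]
  right
  rw [V.mul p a w ha0 hw0]
  have := (V.mem p a ha0).mp ha
  linarith

theorem gnK_le (V : Val K) (p : Pt K) (n : ℤ) (W : Submodule ℂ K) (h : W ≤ V.Lp p n) :
    gnK p W ≤ V.Lp p n := by
  unfold gnK
  rw [Submodule.span_le]
  rintro x ⟨a, ha, w, hw, rfl⟩
  exact mul_mem_Lp V p n ha (h hw)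

end PEN_

open PEN_ in
theorem pen_proof : Stmt_PEN := by
  intro K _ _ V p0 D W hW _
  have hWle : ∀ p, W ≤ V.Lp p (D p) := by
    intro p w hw
    rw [hW p]
    exact Submodule.subset_span ⟨1, p.ring.one_mem, w, hw, by rw [one_mul]⟩
  have hnle : ∀ p, ¬ W ≤ V.Lp p (D p - 1) := by
    intro p h
    have h1 := gnK_le V p _ W h
    rw [← hW p] at h1
    exact not_le V p (D p) h1
  have hord : ∀ p w, w ∈ W → w ∉ V.Lp p (D p - 1) → w ≠ 0 ∧ V.ord p w = - D p := by
    intro p w hw h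
    have h1 := (V.mem_Lp).mp (hWle p hw)
    rw [V.mem_Lp] at h
    push Not at h
    refine ⟨h.1, ?_⟩
    have h2 := h1.resolve_left h.1
    linarith [h.2]
  obtain ⟨w1, hw1, h1⟩ := Set.not_subset.mp (hnle p0)
  have hw10 := (hord p0 w1 hw1 h1).1
  let S : Set (Pt K) := {p | V.ord p w1 ≠ - D p}
  have hS : S.Finite := by
    refine ((V.fin w1 hw10).union D.support.finite_toSet).subset ?_
    intro p hp
    by_cases h : V.ord p w1 = 0
    · right
      rw [Finset.mem_coe, Finsupp.mem_support_iff]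
      intro hD
      apply hp
      rw [h, hD, neg_zero]
    · left
      exact h
  by_cases hSe : S = ∅
  · refine ⟨w1, hw1, w1, hw1, hw10, hw10, fun p => Or.inl ?_⟩
    by_contra h
    have : p ∈ S := h
    rw [hSe] at this
    exact this
  · haveI : Finite S := hS
    have key : ∃ w2 ∈ W, ∀ p ∈ S, w2 ∉ V.Lp p (D p - 1) := by
      by_contra hcon
      push Not at hcon
      have hcov : (⋃ i : S, (((V.Lp i.1 (D i.1 - 1)).comap W.subtype : Subspace ℂ W) : Set W)) =
          Set.univ := by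
        rw [Set.eq_univ_iff_forall]
        intro w
        obtain ⟨p, hp, h⟩ := hcon w.1 w.2
        rw [Set.mem_iUnion]
        exact ⟨⟨p, hp⟩, h⟩
      obtain ⟨i, hi⟩ := Subspace.exists_eq_top_of_iUnion_eq_univ hcov
      apply hnle i.1
      intro w hw
      have : (⟨w, hw⟩ : W) ∈ ((V.Lp i.1 (D i.1 - 1)).comap W.subtype : Subspace ℂ W) := by
        rw [hi]; exact Submodule.mem_top
      exact this
    obtain ⟨w2, hw2, h2⟩ := key
    obtain ⟨q, hq⟩ := Set.nonempty_iff_ne_empty.mpr hSe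
    refine ⟨w1, hw1, w2, hw2, hw10, (hord q w2 hw2 (h2 q hq)).1, fun p => ?_⟩
    by_cases hp : p ∈ S
    · right
      exact (hord p w2 hw2 (h2 p hp)).2
    · left
      by_contra h
      exact hp h

end Pool.Agent.RTB.Crv
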