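import Pool.Agent.RTB.Crv.Stmts

set_option autoImplicit false

namespace Pool.Agent.RTB.Crv

open Module

namespace POL_

section
variable {K : Type} [Field K] [Algebra ℂ K] (V : Val K)

/-- a nonzero nonunit has positive order -/
theorem pos_of_nonunit (p : Pt K) (a : K) (h0 : a ≠ 0) (ha : a ∈ p.ring) (hn : a ∈ p.ring.nonunits) :
    1 ≤ V.ord p a := by
  have h1 := (V.mem p a h0).mp ha
  by_contra h2
  have h3 : V.ord p a = 0 := by omega
  have h4 : a⁻¹ ∈ p.ring := by
    rw [V.mem p _ (inv_ne_zero h0), V.ord_inv p h0, h3]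
    simp
  have h5 := (p.ring.mem_nonunits_iff).mp hn
  have h6 := (p.ring.valuation_le_one_iff _).mpr h4
  have h7 : p.ring.valuation a * p.ring.valuation a⁻¹ = 1 := by
    rw [← map_mul, mul_inv_cancel₀ h0, map_one]
  have h8 : p.ring.valuation a * p.ring.valuation a⁻¹ ≤ p.ring.valuation a * 1 :=
    mul_le_mul_right h6 _
  rw [h7, mul_one] at h8
  exact absurd h5 (not_lt.mpr h8)

/-- an element of positive order is a nonunit -/
theorem nonunit_of_pos (p : Pt K) (a : K) (h0 : a ≠ 0) (ha : 1 ≤ V.ord p a) :
    a ∈ p.ring.nonunits := by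
  rw [p.ring.mem_nonunits_iff]
  have h1 : a ∈ p.ring := (V.mem p a h0).mpr (by linarith)
  rcases lt_or_eq_of_le ((p.ring.valuation_le_one_iff _).mpr h1) with h2 | h2
  · exact h2
  exfalso
  have h3 : p.ring.valuation a⁻¹ ≤ 1 := by
    rw [map_inv₀, h2, inv_one]
  have h4 := (p.ring.valuation_le_one_iff _).mp h3
  rw [V.mem p _ (inv_ne_zero h0), V.ord_inv p h0] at h4
  linarith

theorem ord_pow (p : Pt K) (a : K) (h0 : a ≠ 0) (n : ℕ) : V.ord p (a ^ n) = n * V.ord p a := by
  induction n with
  | zero => rw [pow_zero, V.ord_one]; simp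
  | succ n ih =>
    rw [pow_succ, V.mul p _ _ (pow_ne_zero n h0) h0, ih]
    push_cast
    ring

end

end POL_

open POL_

theorem pol_proof : Stmt_POL := by
  have main : ∀ (K : Type) [Field K] [Algebra ℂ K] (V : Val K) (p q : Pt K) (n : ℕ),
      polar p n q = V.Lp q (np p (n : ℤ) q) := by
    intro K _ _ V p q n
    ext x
    have hm : x ∈ polar p n q ↔ (q ≠ p → x ∈ q.ring) ∧
      (q = p → ∀ a ∈ p.ring, a ∈ p.ring.nonunits → x * a ^ n ∈ p.ring) := Iff.rfl
    rw [hm, V.mem_Lp]
    by_cases hx : x = 0
    · constructor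
      · intro _; exact Or.inl hx
      · intro _
        refine ⟨fun _ => by rw [hx]; exact q.ring.zero_mem, fun _ a _ _ => ?_⟩
        rw [hx, zero_mul]; exact p.ring.zero_mem
    by_cases hqp : q = p
    · subst hqp
      have h1 : np q (n : ℤ) q = n := by
        unfold np; exact Finsupp.single_eq_same
      rw [h1]
      constructor
      · rintro ⟨-, h⟩
        right
        obtain ⟨t, ht0, ht⟩ := V.unif q
        have h2 := h rfl t ((V.mem q t ht0).mpr (by rw [ht]; norm_num))
          (nonunit_of_pos V q t ht0 (by rw [ht]))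
        rw [V.mem q _ (mul_ne_zero hx (pow_ne_zero n ht0)), V.mul q _ _ hx (pow_ne_zero n ht0),
          ord_pow V q t ht0, ht] at h2
        linarith
      · intro h
        refine ⟨fun h' => absurd rfl h', fun _ a ha hn => ?_⟩
        rcases h with h | h
        · exact absurd h hx
        by_cases ha0 : a = 0
        · by_cases hn0 : n = 0
          · subst hn0
            rw [pow_zero, mul_one, V.mem q x hx]
            simpa using h
          · rw [ha0, zero_pow hn0, mul_zero]; exact q.ring.zero_mem
        have h2 := pos_of_nonunit V q a ha0 ha hn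
        rw [V.mem q _ (mul_ne_zero hx (pow_ne_zero n ha0)), V.mul q _ _ hx (pow_ne_zero n ha0),
          ord_pow V q a ha0]
        have h3 : (n : ℤ) * 1 ≤ n * V.ord q a :=
          mul_le_mul_of_nonneg_left h2 (Int.natCast_nonneg n)
        linarith
    · have h1 : np p (n : ℤ) q = 0 := by
        unfold np; exact Finsupp.single_eq_of_ne hqp
      rw [h1, neg_zero]
      constructor
      · rintro ⟨h, -⟩
        right
        exact (V.mem q x hx).mp (h hqp)
      · intro h
        rcases h with h | h
        · exact absurd h hx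
        exact ⟨fun _ => (V.mem q x hx).mpr h, fun h' => absurd h' hqp⟩
  intro K _ _ V p q n
  refine ⟨main K V p q n, ?_⟩
  unfold Rp Val.L
  exact iInf_congr (fun q' => main K V p q' n)

end Pool.Agent.RTB.Crv
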