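import Pool.Agent.RTB.Crv.Stmts

set_option autoImplicit false

namespace Pool.Agent.RTB.Crv

open Module

namespace R2D_

variable {K : Type} [Field K] [Algebra ℂ K]

theorem mem_O {p : Pt K} {x : K} : x ∈ p.O ↔ x ∈ p.ring := Iff.rfl

/-- an element of order `0` is a unit -/
theorem unit_mem (V : Val K) (p : Pt K) {x : K} (hx : x ≠ 0) (h : V.ord p x = 0) :
    x ∈ p.ring ∧ x⁻¹ ∈ p.ring := by
  rw [V.mem p x hx, V.mem p _ (inv_ne_zero hx), V.ord_inv p hx, h]
  simp

/-- outside a finite set everything is trivial -/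
theorem trivial_at (V : Val K) (E : VB2 K) (p : Pt K) (s : Fin 2 → K) (hs : s ≠ 0)
    (ht : ∀ v : Fin 2 → K, v ∈ E.fib p ↔ (v 0 ∈ p.ring ∧ v 1 ∈ p.ring))
    (h0 : s 0 ≠ 0 → V.ord p (s 0) = 0) (h1 : s 1 ≠ 0 → V.ord p (s 1) = 0) :
    E.sub s p = p.O ∧ E.quo s p = p.O := by
  have m0 : s 0 ∈ p.ring := by
    by_cases h : s 0 = 0
    · rw [h]; exact p.ring.zero_mem
    · exact (unit_mem V p h (h0 h)).1
  have m1 : s 1 ∈ p.ring := by
    by_cases h : s 1 = 0
    · rw [h]; exact p.ring.zero_mem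
    · exact (unit_mem V p h (h1 h)).1
  have hne : s 0 ≠ 0 ∨ s 1 ≠ 0 := by
    by_contra hcon
    push Not at hcon
    apply hs
    funext i
    fin_cases i
    · exact hcon.1
    · exact hcon.2
  constructor
  · ext f
    have hf : f ∈ E.sub s p ↔ f • s ∈ E.fib p := Iff.rfl
    rw [hf, ht, mem_O]
    simp only [Pi.smul_apply, smul_eq_mul]
    constructor
    · rintro ⟨a0, a1⟩
      rcases hne with h | h
      · have := p.ring.mul_mem _ _ a0 (unit_mem V p h (h0 h)).2
        rwa [mul_assoc, mul_inv_cancel₀ h, mul_one] at this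
      · have := p.ring.mul_mem _ _ a1 (unit_mem V p h (h1 h)).2
        rwa [mul_assoc, mul_inv_cancel₀ h, mul_one] at this
    · intro hf
      exact ⟨p.ring.mul_mem _ _ hf m0, p.ring.mul_mem _ _ hf m1⟩
  · ext y
    rw [mem_O]
    constructor
    · rintro ⟨v, hv, rfl⟩
      have hv' := (ht v).1 hv
      show det2 s v ∈ p.ring
      unfold det2
      exact sub_mem (p.ring.mul_mem _ _ m0 hv'.2) (p.ring.mul_mem _ _ m1 hv'.1)
    · intro hy
      rcases hne with h | h
      · refine ⟨![0, y * (s 0)⁻¹], ?_, ?_⟩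
        · rw [SetLike.mem_coe, ht]
          refine ⟨?_, ?_⟩
          · simp
          · simpa using p.ring.mul_mem _ _ hy (unit_mem V p h (h0 h)).2
        · show det2 s _ = y
          unfold det2
          simp only [Matrix.cons_val_zero, Matrix.cons_val_one, mul_zero, sub_zero]
          field_simp
      · refine ⟨![-(y * (s 1)⁻¹), 0], ?_, ?_⟩
        · rw [SetLike.mem_coe, ht]
          refine ⟨?_, ?_⟩
          · simpa using p.ring.neg_mem _ (p.ring.mul_mem _ _ hy (unit_mem V p h (h1 h)).2)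
          · simp
        · show det2 s _ = y
          unfold det2
          simp only [Matrix.cons_val_zero, Matrix.cons_val_one, mul_zero, zero_sub]
          field_simp

end R2D_

open R2D_ in
theorem r2d_proof (hR2L : Stmt_R2L) (hIDX : Stmt_IDX) : Stmt_R2D := by
  intro K _ _ V E s hs
  have hl : ∀ p : Pt K, ∃ m n d : ℤ, E.sub s p = V.Lp p m ∧ E.quo s p = V.Lp p n ∧
    E.det p = V.Lp p d ∧ m + n = d := fun p => hR2L K V E p s hs
  choose mf nf df hm hn hd hmnd using hl
  -- the bad set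
  have hfin : ({p | ¬ ∀ v : Fin 2 → K, v ∈ E.fib p ↔ (v 0 ∈ p.ring ∧ v 1 ∈ p.ring)} ∪
      {p | s 0 ≠ 0 ∧ V.ord p (s 0) ≠ 0} ∪ {p | s 1 ≠ 0 ∧ V.ord p (s 1) ≠ 0}).Finite := by
    refine (E.triv.union ?_).union ?_
    · by_cases h : s 0 = 0
      · refine Set.Finite.subset Set.finite_empty ?_
        rintro p ⟨hp, -⟩
        exact absurd h hp
      · exact (V.fin _ h).subset (fun p hp => hp.2)
    · by_cases h : s 1 = 0
      · refine Set.Finite.subset Set.finite_empty ?_
        rintro p ⟨hp, -⟩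
        exact absurd h hp
      · exact (V.fin _ h).subset (fun p hp => hp.2)
  have hout : ∀ p, mf p ≠ 0 ∨ nf p ≠ 0 → p ∈
      ({p | ¬ ∀ v : Fin 2 → K, v ∈ E.fib p ↔ (v 0 ∈ p.ring ∧ v 1 ∈ p.ring)} ∪
      {p | s 0 ≠ 0 ∧ V.ord p (s 0) ≠ 0} ∪ {p | s 1 ≠ 0 ∧ V.ord p (s 1) ≠ 0}) := by
    intro p hp
    by_contra hcon
    have c1 : ∀ v : Fin 2 → K, v ∈ E.fib p ↔ (v 0 ∈ p.ring ∧ v 1 ∈ p.ring) := by
      by_contra h
      exact hcon (Or.inl (Or.inl h))
    have c2 : s 0 ≠ 0 → V.ord p (s 0) = 0 := by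
      intro h
      by_contra h'
      exact hcon (Or.inl (Or.inr ⟨h, h'⟩))
    have c3 : s 1 ≠ 0 → V.ord p (s 1) = 0 := by
      intro h
      by_contra h'
      exact hcon (Or.inr ⟨h, h'⟩)
    obtain ⟨t1, t2⟩ := trivial_at V E p s hs c1 c2 c3
    obtain ⟨i1, -, i3⟩ := hIDX K V p 0
    have e1 : mf p = 0 := i3 _ (by rw [← hm, t1, i1])
    have e2 : nf p = 0 := i3 _ (by rw [← hn, t2, i1])
    rcases hp with h | h
    · exact h e1
    · exact h e2
  have fm : (Function.support mf).Finite := hfin.subset (fun p hp => hout p (Or.inl hp))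
  have fn : (Function.support nf).Finite := hfin.subset (fun p hp => hout p (Or.inr hp))
  refine ⟨Finsupp.ofSupportFinite mf fm, Finsupp.ofSupportFinite nf fn,
    Finsupp.ofSupportFinite mf fm + Finsupp.ofSupportFinite nf fn, ?_, ?_, ?_, rfl⟩
  · intro p
    exact hm p
  · intro p
    exact hn p
  · intro p
    have h1 : (Finsupp.ofSupportFinite mf fm + Finsupp.ofSupportFinite nf fn) p = df p :=
      hmnd p
    rw [h1]
    exact hd p

end Pool.Agent.RTB.Crv
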