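import Pool.Agent.RTB.Crv.Stmts

set_option autoImplicit false

namespace Pool.Agent.RTB.Crv

open Module

namespace R2H_

variable {K : Type} [Field K] [Algebra ℂ K]

theorem ord_pow (V : Val K) (p : Pt K) {t : K} (ht : t ≠ 0) (n : ℕ) :
    V.ord p (t ^ n) = n * V.ord p t := by
  induction n with
  | zero => rw [pow_zero, V.ord_one]; simp
  | succ n ih =>
    rw [pow_succ, V.mul p _ _ (pow_ne_zero n ht) ht, ih]
    push_cast
    ring

theorem ord_zpow (V : Val K) (p : Pt K) {t : K} (ht : t ≠ 0) (n : ℤ) :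
    V.ord p (t ^ n) = n * V.ord p t := by
  obtain ⟨m, rfl | rfl⟩ := n.eq_nat_or_neg
  · rw [zpow_natCast, ord_pow V p ht]
  · rw [zpow_neg, zpow_natCast, V.ord_inv p (pow_ne_zero m ht), ord_pow V p ht]
    ring

theorem exists_ord (V : Val K) (p : Pt K) (n : ℤ) : ∃ x : K, x ≠ 0 ∧ V.ord p x = n := by
  obtain ⟨t, ht, h1⟩ := V.unif p
  exact ⟨t ^ n, zpow_ne_zero n ht, by rw [ord_zpow V p ht, h1, mul_one]⟩

theorem exists_smul {s v : Fin 2 → K} (hs : s ≠ 0) (h : det2 s v = 0) :
    ∃ f : K, v = f • s := by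
  unfold det2 at h
  have hne : s 0 ≠ 0 ∨ s 1 ≠ 0 := by
    by_contra hcon
    push Not at hcon
    apply hs
    funext i
    fin_cases i
    · exact hcon.1
    · exact hcon.2
  rcases hne with h0 | h0
  · refine ⟨v 0 / s 0, ?_⟩
    funext i
    fin_cases i
    · simp only [Pi.smul_apply, smul_eq_mul, Fin.zero_eta]
      field_simp
    · simp only [Pi.smul_apply, smul_eq_mul, Fin.mk_one]
      field_simp
      linear_combination h
  · refine ⟨v 1 / s 1, ?_⟩
    funext i
    fin_cases i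
    · simp only [Pi.smul_apply, smul_eq_mul, Fin.zero_eta]
      field_simp
      linear_combination -h
    · simp only [Pi.smul_apply, smul_eq_mul, Fin.mk_one]
      field_simp

/-- membership in `Lp` after multiplication by an element of exact order -/
theorem mem_Lp_add (V : Val K) (q : Pt K) {x y : K} {m d : ℤ} (hx : x ≠ 0)
    (hxo : V.ord q x = m) (h : x * y ∈ V.Lp q d) : y ∈ V.Lp q (d + m) := by
  by_cases hy : y = 0
  · exact Or.inl hy
  rcases h with h | h
  · exact absurd h (mul_ne_zero hx hy)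
  · right
    rw [V.mul q _ _ hx hy, hxo] at h
    linarith

/-- `f ↦ f • s` -/
def psi (s : Fin 2 → K) : K →ₗ[ℂ] (Fin 2 → K) where
  toFun := fun f => f • s
  map_add' := fun a b => add_smul a b s
  map_smul' := fun z a => by
    rw [RingHom.id_apply, smul_assoc]

end R2H_

open R2H_ in
theorem r2h_proof : Stmt_R2H := by
  intro K _ _ V E pt s DM DN n hs hM hN fM fN
  have hmap : (HE V E pt n).map (detL s) ≤ V.L (DN + np pt n) := by
    rintro y ⟨v, hv, rfl⟩
    rw [V.mem_L]
    intro q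
    obtain ⟨x, hx, hxo⟩ := exists_ord V q (np pt n q)
    have h1 := hv q x hx hxo.ge
    have h2 : x * det2 s v ∈ E.quo s q := by
      refine ⟨x • v, h1, ?_⟩
      show det2 s (x • v) = x * det2 s v
      simp only [det2, Pi.smul_apply, smul_eq_mul]
      ring
    rw [hN q] at h2
    rw [Finsupp.add_apply]
    exact mem_Lp_add V q hx hxo h2
  have hker : HE V E pt n ⊓ LinearMap.ker (detL s) ≤ (V.L (DM + np pt n)).map (psi s) := by
    rintro v ⟨hv, hv0⟩
    obtain ⟨f, rfl⟩ := exists_smul hs (LinearMap.mem_ker.1 hv0)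
    refine ⟨f, ?_, rfl⟩
    rw [SetLike.mem_coe, V.mem_L]
    intro q
    obtain ⟨x, hx, hxo⟩ := exists_ord V q (np pt n q)
    have h1 := hv q x hx hxo.ge
    have h2 : x * f ∈ E.sub s q := by
      show (x * f) • s ∈ E.fib q
      rw [mul_smul]
      exact h1
    rw [hM q] at h2
    rw [Finsupp.add_apply]
    exact mem_Lp_add V q hx hxo h2
  have fd1 : FiniteDimensional ℂ ((HE V E pt n).map (detL s)) :=
    Submodule.finiteDimensional_of_le hmap
  have fd2 : FiniteDimensional ℂ ((HE V E pt n ⊓ LinearMap.ker (detL s) :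
      Submodule ℂ (Fin 2 → K))) := Submodule.finiteDimensional_of_le hker
  have hFG : (HE V E pt n).FG :=
    Submodule.fg_of_fg_map_of_fg_inf_ker (detL s) (Module.Finite.iff_fg.1 fd1)
      (Module.Finite.iff_fg.1 fd2)
  have fd : FiniteDimensional ℂ (HE V E pt n) := Module.Finite.iff_fg.2 hFG
  refine ⟨fd, ?_⟩
  have h1 := LinearMap.finrank_range_add_finrank_ker ((detL s).domRestrict (HE V E pt n))
  have h2 : LinearMap.range ((detL s).domRestrict (HE V E pt n)) ≤ V.L (DN + np pt n) := by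
    rintro y ⟨⟨v, hv⟩, rfl⟩
    exact hmap ⟨v, hv, rfl⟩
  have h3 := Submodule.finrank_mono h2
  have h4 : (LinearMap.ker ((detL s).domRestrict (HE V E pt n))).map (HE V E pt n).subtype
      ≤ (V.L (DM + np pt n)).map (psi s) := by
    rintro y ⟨⟨v, hv⟩, hv0, rfl⟩
    exact hker ⟨hv, LinearMap.mem_ker.2 (LinearMap.mem_ker.1 hv0)⟩
  have h5 := Submodule.finrank_mono h4
  rw [Submodule.finrank_map_subtype_eq] at h5
  have h6 : finrank ℂ ((V.L (DM + np pt n)).map (psi s)) ≤ finrank ℂ (V.L (DM + np pt n)) :=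
    Submodule.finrank_map_le _ _
  have h7 : finrank ℂ (HE V E pt n) ≤ finrank ℂ (V.L (DM + np pt n)) +
      finrank ℂ (V.L (DN + np pt n)) := by omega
  show (finrank ℂ (HE V E pt n) : ℤ) ≤ (finrank ℂ (V.L (DM + np pt n)) : ℤ) +
      (finrank ℂ (V.L (DN + np pt n)) : ℤ)
  exact_mod_cast h7

end Pool.Agent.RTB.Crv
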