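import Pool.Agent.RTB.Crv.Stmts

/-!
# squad RTB, module C.R2L: local theory of rank two
-/

set_option autoImplicit false

namespace Pool.Agent.RTB.Crv

open Module

namespace R2L_

variable {K : Type} [Field K] [Algebra ℂ K]

theorem mem_ring (V : Val K) (p : Pt K) (x : K) : x ∈ p.ring ↔ x = 0 ∨ 0 ≤ V.ord p x := by
  by_cases hx : x = 0
  · subst hx
    exact ⟨fun _ => Or.inl rfl, fun _ => p.ring.zero_mem⟩
  · rw [V.mem p x hx]
    exact ⟨Or.inr, fun h => h.resolve_left hx⟩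

theorem mem_Lp_mul (V : Val K) (p : Pt K) (f μ : K) (hμ : μ ≠ 0) :
    f ∈ V.Lp p (V.ord p μ) ↔ f * μ ∈ p.ring := by
  rw [V.mem_Lp, mem_ring V]
  by_cases hf : f = 0
  · subst hf
    simp
  · rw [V.mul p f μ hf hμ]
    constructor
    · rintro (h | h)
      · exact absurd h hf
      · right; linarith
    · rintro (h | h)
      · exact absurd h (mul_ne_zero hf hμ)
      · right; linarith

theorem mem_Lp_gen (V : Val K) (p : Pt K) (x δ : K) (hδ : δ ≠ 0) :
    x ∈ V.Lp p (-V.ord p δ) ↔ ∃ a ∈ p.ring, x = a * δ := by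
  have h := mem_Lp_mul V p x δ⁻¹ (inv_ne_zero hδ)
  rw [V.ord_inv p hδ] at h
  rw [h]
  constructor
  · intro h1
    exact ⟨x * δ⁻¹, h1, by rw [mul_assoc, inv_mul_cancel₀ hδ, mul_one]⟩
  · rintro ⟨a, ha, rfl⟩
    rwa [mul_assoc, mul_inv_cancel₀ hδ, mul_one]

theorem gen (p : Pt K) (α β : K) (h : ¬ (α = 0 ∧ β = 0)) :
    ∃ μ : K, μ ≠ 0 ∧ (∃ a ∈ p.ring, α = a * μ) ∧ (∃ b ∈ p.ring, β = b * μ) ∧
      ∃ u ∈ p.ring, ∃ v ∈ p.ring, μ = u * α + v * β := by
  by_cases hα : α = 0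
  · have hβ : β ≠ 0 := fun hb => h ⟨hα, hb⟩
    exact ⟨β, hβ, ⟨0, p.ring.zero_mem, by rw [zero_mul, hα]⟩, ⟨1, p.ring.one_mem, by rw [one_mul]⟩,
      0, p.ring.zero_mem, 1, p.ring.one_mem, by rw [zero_mul, one_mul, zero_add]⟩
  · rcases p.ring.mem_or_inv_mem (β * α⁻¹) with h1 | h1
    · exact ⟨α, hα, ⟨1, p.ring.one_mem, by rw [one_mul]⟩,
        ⟨β * α⁻¹, h1, by rw [mul_assoc, inv_mul_cancel₀ hα, mul_one]⟩,
        1, p.ring.one_mem, 0, p.ring.zero_mem, by rw [zero_mul, one_mul, add_zero]⟩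
    · by_cases hβ : β = 0
      · exact ⟨α, hα, ⟨1, p.ring.one_mem, by rw [one_mul]⟩,
          ⟨0, p.ring.zero_mem, by rw [zero_mul, hβ]⟩,
          1, p.ring.one_mem, 0, p.ring.zero_mem, by rw [zero_mul, one_mul, add_zero]⟩
      · rw [mul_inv, inv_inv] at h1
        exact ⟨β, hβ, ⟨β⁻¹ * α, h1, by rw [mul_comm β⁻¹, mul_assoc, inv_mul_cancel₀ hβ, mul_one]⟩,
          ⟨1, p.ring.one_mem, by rw [one_mul]⟩,
          0, p.ring.zero_mem, 1, p.ring.one_mem, by rw [zero_mul, one_mul, zero_add]⟩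

theorem cramer (e e' s : Fin 2 → K) (hδ : det2 e e' ≠ 0) :
    s = (det2 s e' * (det2 e e')⁻¹) • e + (det2 e s * (det2 e e')⁻¹) • e' := by
  have key : ∀ i, det2 e e' * s i = det2 s e' * e i + det2 e s * e' i := by
    intro i
    fin_cases i <;> simp only [det2, Fin.zero_eta, Fin.mk_one, Fin.isValue] <;> ring
  funext i
  have h := key i
  simp only [Pi.add_apply, Pi.smul_apply, smul_eq_mul]
  have h2 : s i = (det2 e e')⁻¹ * (det2 e e' * s i) := by
    rw [← mul_assoc, inv_mul_cancel₀ hδ, one_mul]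
  rw [h2, h]
  ring

theorem det2_comb (e e' : Fin 2 → K) (a b c d : K) :
    det2 (a • e + b • e') (c • e + d • e') = (a * d - b * c) * det2 e e' := by
  simp only [det2, Pi.add_apply, Pi.smul_apply, smul_eq_mul]
  ring

theorem comb_inj (e e' : Fin 2 → K) (hδ : det2 e e' ≠ 0) {a b c d : K}
    (h : a • e + b • e' = c • e + d • e') : a = c ∧ b = d := by
  have h1 := congrArg (fun v => det2 v e') h
  have h2 := congrArg (fun v => det2 e v) h
  simp only [det2, Pi.add_apply, Pi.smul_apply, smul_eq_mul] at h1 h2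
  simp only [det2] at hδ
  constructor
  · apply mul_right_cancel₀ hδ
    linear_combination h1
  · apply mul_right_cancel₀ hδ
    linear_combination h2

end R2L_

open R2L_ in
theorem r2l_proof : Stmt_R2L := by
  intro K _ _ V E p s hs
  obtain ⟨e, e', hδ, hfib⟩ := E.loc p
  set δ := det2 e e' with hδdef
  set α := det2 s e' * δ⁻¹ with hα
  set β := det2 e s * δ⁻¹ with hβ
  have hs' : s = α • e + β • e' := cramer e e' s hδ
  have hne : ¬ (α = 0 ∧ β = 0) := by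
    rintro ⟨h1, h2⟩
    apply hs
    rw [hs', h1, h2, zero_smul, zero_smul, zero_add]
  obtain ⟨μ, hμ, ⟨a', ha', hαμ⟩, ⟨b', hb', hβμ⟩, u, hu, v, hv, hμuv⟩ := gen p α β hne
  refine ⟨V.ord p μ, -(V.ord p (μ * δ)), -V.ord p δ, ?_, ?_, ?_, ?_⟩
  · ext f
    rw [mem_Lp_mul V p f μ hμ]
    show f • s ∈ E.fib p ↔ _
    rw [hfib]
    constructor
    · rintro ⟨a, ha, b, hb, hab⟩
      rw [hs', smul_add, smul_smul, smul_smul] at hab
      obtain ⟨h1, h2⟩ := comb_inj e e' hδ hab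
      rw [hμuv]
      have h3 : f * (u * α + v * β) = u * (f * α) + v * (f * β) := by ring
      rw [h3, h1, h2]
      exact p.ring.add_mem _ _ (p.ring.mul_mem _ _ hu ha) (p.ring.mul_mem _ _ hv hb)
    · intro h
      refine ⟨a' * (f * μ), p.ring.mul_mem _ _ ha' h, b' * (f * μ), p.ring.mul_mem _ _ hb' h, ?_⟩
      rw [hs', smul_add, smul_smul, smul_smul]
      congr 2
      · rw [hαμ]; ring
      · rw [hβμ]; ring
  · ext x
    rw [mem_Lp_gen V p x (μ * δ) (mul_ne_zero hμ hδ)]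
    show x ∈ (E.fib p).map (detL s) ↔ _
    rw [Submodule.mem_map]
    constructor
    · rintro ⟨w, hw, rfl⟩
      obtain ⟨c, hc, d, hd, rfl⟩ := (hfib w).mp hw
      refine ⟨a' * d - b' * c, p.ring.sub_mem (p.ring.mul_mem _ _ ha' hd) (p.ring.mul_mem _ _ hb' hc), ?_⟩
      show det2 s (c • e + d • e') = _
      rw [hs', det2_comb, ← hδdef]
      rw [hαμ, hβμ]; ring
    · rintro ⟨a, ha, rfl⟩
      refine ⟨(-(a * v)) • e + (a * u) • e', (hfib _).mpr ⟨_, p.ring.neg_mem _ (p.ring.mul_mem _ _ ha hv),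
        _, p.ring.mul_mem _ _ ha hu, rfl⟩, ?_⟩
      show det2 s _ = _
      rw [hs', det2_comb, ← hδdef, hμuv]
      ring
  · ext x
    rw [mem_Lp_gen V p x δ hδ]
    constructor
    · intro hx
      unfold VB2.det at hx
      rw [← mem_Lp_gen V p x δ hδ]
      refine (Submodule.span_le.mpr ?_) hx
      rintro y ⟨w1, hw1, w2, hw2, rfl⟩
      obtain ⟨a, ha, b, hb, rfl⟩ := (hfib w1).mp hw1
      obtain ⟨c, hc, d, hd, rfl⟩ := (hfib w2).mp hw2
      show _ ∈ V.Lp p (-V.ord p δ)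
      rw [mem_Lp_gen V p _ δ hδ]
      exact ⟨a * d - b * c, p.ring.sub_mem (p.ring.mul_mem _ _ ha hd)
        (p.ring.mul_mem _ _ hb hc), det2_comb e e' a b c d⟩
    · rintro ⟨a, ha, rfl⟩
      apply Submodule.subset_span
      refine ⟨a • e + (0 : K) • e', (hfib _).mpr ⟨a, ha, 0, p.ring.zero_mem, rfl⟩,
        (0 : K) • e + (1 : K) • e', (hfib _).mpr ⟨0, p.ring.zero_mem, 1, p.ring.one_mem, rfl⟩, ?_⟩
      rw [det2_comb]
      ring
  · rw [V.mul p μ δ hμ hδ]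
    ring

end Pool.Agent.RTB.Crv
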