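import Pool.Agent.RTB.Crv.Stmts

set_option autoImplicit false

/-!
# squad RTB, module C.RES: the residue fields are `ℂ`
-/

open Polynomial

namespace Pool.Agent.RTB.Crv

namespace RES_

variable {K : Type} [Field K] [Algebra ℂ K]

lemma fac (x : K) : ∀ (n : ℕ) (Q : ℂ[X]), Q.natDegree = n → Q ≠ 0 →
    ∃ (c : ℂ) (s : Multiset ℂ), c ≠ 0 ∧
      aeval x Q = algebraMap ℂ K c * (s.map (fun z => x - algebraMap ℂ K z)).prod := by
  intro n
  induction n with
  | zero =>
    intro Q hQ h0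
    rw [natDegree_eq_zero] at hQ
    obtain ⟨c, rfl⟩ := hQ
    refine ⟨c, 0, ?_, ?_⟩
    · rintro rfl
      exact h0 (by simp)
    · simp
  | succ n ih =>
    intro Q hQ h0
    obtain ⟨a, ha⟩ := IsAlgClosed.exists_root Q (by
      rw [degree_eq_natDegree h0, hQ]
      exact_mod_cast Nat.succ_ne_zero n)
    obtain ⟨Q', rfl⟩ := dvd_iff_isRoot.mpr ha
    have hQ'0 : Q' ≠ 0 := right_ne_zero_of_mul h0
    have hd : Q'.natDegree = n := by
      rw [natDegree_mul (X_sub_C_ne_zero a) hQ'0, natDegree_X_sub_C] at hQ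
      omega
    obtain ⟨c, s, hc, hs⟩ := ih Q' hd hQ'0
    refine ⟨c, a ::ₘ s, hc, ?_⟩
    rw [map_mul, hs, Multiset.map_cons, Multiset.prod_cons]
    simp only [map_sub, aeval_X, aeval_C]
    ring

lemma alg_const (x : K) (Q : ℂ[X]) (hQ : Q ≠ 0) (h : aeval x Q = 0) :
    ∃ z : ℂ, x = algebraMap ℂ K z := by
  obtain ⟨c, s, hc, hs⟩ := fac x _ Q rfl hQ
  rw [h] at hs
  have hc' : algebraMap ℂ K c ≠ 0 := by
    rw [Ne, FaithfulSMul.algebraMap_eq_zero_iff]; exact hc
  have h1 := (mul_eq_zero.mp hs.symm).resolve_left hc'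
  rw [Multiset.prod_eq_zero_iff, Multiset.mem_map] at h1
  obtain ⟨z, _, hz⟩ := h1
  exact ⟨z, sub_eq_zero.mp hz⟩

lemma val_const (p : Pt K) {z : ℂ} (hz : z ≠ 0) : p.ring.valuation (algebraMap ℂ K z) = 1 := by
  have h1 := (p.ring.valuation_le_one_iff _).mpr (p.const z)
  have h2 := (p.ring.valuation_le_one_iff _).mpr (p.const z⁻¹)
  have h0 : algebraMap ℂ K z ≠ 0 := by
    rw [Ne, FaithfulSMul.algebraMap_eq_zero_iff]; exact hz
  have h3 : p.ring.valuation (algebraMap ℂ K z) * p.ring.valuation (algebraMap ℂ K z⁻¹) = 1 := by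
    rw [← map_mul, ← map_mul, mul_inv_cancel₀ hz, map_one, map_one]
  apply le_antisymm h1
  calc (1 : p.ring.ValueGroup) =
      p.ring.valuation (algebraMap ℂ K z) * p.ring.valuation (algebraMap ℂ K z⁻¹) := h3.symm
    _ ≤ p.ring.valuation (algebraMap ℂ K z) * 1 := by gcongr
    _ = _ := mul_one _

lemma val_poly (p : Pt K) (x : K) (hx : ∀ z : ℂ, p.ring.valuation (x - algebraMap ℂ K z) = 1)
    (Q : ℂ[X]) (hQ : Q ≠ 0) : p.ring.valuation (aeval x Q) = 1 := by
  obtain ⟨c, s, hc, hs⟩ := fac x _ Q rfl hQ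
  rw [hs, map_mul, val_const p hc, one_mul]
  clear hs
  induction s using Multiset.induction_on with
  | empty => simp
  | cons a s ih => rw [Multiset.map_cons, Multiset.prod_cons, map_mul, hx, ih, one_mul]

open IntermediateField.algebraAdjoinAdjoin in
lemma alg_rel (t x : K) (hfin : FiniteDimensional (IntermediateField.adjoin ℂ {t}) K) :
    ∃ P : ℂ[X][X], P ≠ 0 ∧ P.eval₂ (aeval t : ℂ[X] →ₐ[ℂ] K).toRingHom x = 0 := by
  have h1 : IsAlgebraic (IntermediateField.adjoin ℂ {t}) x := IsAlgebraic.of_finite _ x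
  have h2 : IsAlgebraic (Algebra.adjoin ℂ {t}) x :=
    (IsFractionRing.isAlgebraic_iff (Algebra.adjoin ℂ {t}) (IntermediateField.adjoin ℂ {t}) K).mpr
      h1
  obtain ⟨Q, hQ, hQx⟩ := h2
  let f : ℂ[X] →ₐ[ℂ] Algebra.adjoin ℂ {t} :=
    aeval (⟨t, Algebra.self_mem_adjoin_singleton ℂ t⟩ : Algebra.adjoin ℂ {t})
  have hf : ∀ q : ℂ[X], ((f q : Algebra.adjoin ℂ {t}) : K) = aeval t q := by
    intro q
    have := Polynomial.aeval_algebraMap_apply K
      (⟨t, Algebra.self_mem_adjoin_singleton ℂ t⟩ : Algebra.adjoin ℂ {t}) q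
    exact this.symm
  have hsurj : Function.Surjective f.toRingHom := by
    rintro ⟨y, hy⟩
    obtain ⟨q, hq⟩ := Algebra.adjoin_mem_exists_aeval ℂ t hy
    exact ⟨q, Subtype.ext ((hf q).trans hq)⟩
  obtain ⟨P, rfl⟩ := Polynomial.map_surjective f.toRingHom hsurj Q
  refine ⟨P, ?_, ?_⟩
  · rintro rfl
    exact hQ (by simp)
  · rw [aeval_def, eval₂_map] at hQx
    have h3 : (algebraMap (Algebra.adjoin ℂ {t}) K).comp f.toRingHom =
        (aeval t : ℂ[X] →ₐ[ℂ] K).toRingHom := by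
      apply RingHom.ext
      intro q
      exact hf q
    rw [h3] at hQx
    exact hQx

end RES_

open RES_

theorem res_proof (hFFX : Stmt_FFX) : Stmt_RES := by
  intro K _ _ hK p x hx
  by_contra hcon
  push Not at hcon
  -- the valuation of `x - z` is `1`
  have hv : ∀ z : ℂ, p.ring.valuation (x - algebraMap ℂ K z) = 1 := by
    intro z
    have h1 : p.ring.valuation (x - algebraMap ℂ K z) ≤ 1 :=
      (p.ring.valuation_le_one_iff _).mpr (p.ring.sub_mem hx (p.const z))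
    have h2 := hcon z
    rw [ValuationSubring.mem_nonunits_iff, not_lt] at h2
    exact le_antisymm h1 h2
  -- an element of the maximal ideal
  obtain ⟨y, hy⟩ : ∃ y : K, y ∉ p.ring := by
    by_contra h
    push Not at h
    exact p.ne_top (top_unique fun z _ => h z)
  have hy0 : y ≠ 0 := by
    rintro rfl
    exact hy p.ring.zero_mem
  have ht : y⁻¹ ∈ p.ring.nonunits := by
    rw [ValuationSubring.inv_mem_nonunits_iff]
    exact Or.inr hy
  have ht0 : y⁻¹ ≠ 0 := inv_ne_zero hy0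
  have htr : Transcendental ℂ y⁻¹ := by
    rintro ⟨Q, hQ, hQt⟩
    obtain ⟨z, hz⟩ := alg_const _ Q hQ hQt
    apply hy
    have : y = algebraMap ℂ K z⁻¹ := by
      rw [map_inv₀, ← hz, inv_inv]
    rw [this]
    exact p.const _
  obtain ⟨P, hP, hPx⟩ := alg_rel y⁻¹ x (hFFX K hK _ htr)
  -- divide by the power of `T`
  have hCX : ¬ IsUnit (C (X : ℂ[X]) : ℂ[X][X]) := by
    rw [Polynomial.isUnit_C]
    exact not_isUnit_X
  obtain ⟨P', hP', hnd⟩ :=
    (FiniteMultiplicity.of_not_isUnit hCX hP).exists_eq_pow_mul_and_not_dvd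
  have hP'x : P'.eval₂ (aeval y⁻¹ : ℂ[X] →ₐ[ℂ] K).toRingHom x = 0 := by
    rw [hP', eval₂_mul, eval₂_pow, eval₂_C] at hPx
    have h1 : ((aeval y⁻¹ : ℂ[X] →ₐ[ℂ] K).toRingHom (X : ℂ[X])) = y⁻¹ := by
      show aeval y⁻¹ (X : ℂ[X]) = y⁻¹
      rw [aeval_X]
    rw [h1] at hPx
    exact (mul_eq_zero.mp hPx).resolve_left (pow_ne_zero _ ht0)
  rw [C_dvd_iff_dvd_coeff] at hnd
  push Not at hnd
  obtain ⟨i, hi⟩ := hnd
  rw [X_dvd_iff] at hi
  -- the reduction
  set Q : ℂ[X] := P'.map (constantCoeff : ℂ[X] →+* ℂ) with hQdef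
  have hQ0 : Q ≠ 0 := by
    intro h
    apply hi
    have : Q.coeff i = 0 := by rw [h, coeff_zero]
    rw [hQdef, coeff_map] at this
    exact this
  have h1 := val_poly p x hv Q hQ0
  have h2 : aeval x Q = - ∑ j ∈ Finset.range (P'.natDegree + 1),
      (aeval y⁻¹ (P'.coeff j) - algebraMap ℂ K ((P'.coeff j).coeff 0)) * x ^ j := by
    have e1 : aeval x Q = ∑ j ∈ Finset.range (P'.natDegree + 1),
        algebraMap ℂ K ((P'.coeff j).coeff 0) * x ^ j := by
      rw [aeval_def, hQdef, eval₂_map, eval₂_eq_sum_range]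
      rfl
    have e2 : (0 : K) = ∑ j ∈ Finset.range (P'.natDegree + 1),
        aeval y⁻¹ (P'.coeff j) * x ^ j := by
      rw [← hP'x, eval₂_eq_sum_range]
      rfl
    rw [e1]
    simp only [sub_mul, Finset.sum_sub_distrib]
    rw [← e2]
    ring
  have hmulmem : ∀ a b : K, a ∈ p.ring.nonunits → b ∈ p.ring → a * b ∈ p.ring.nonunits := by
    intro a b ha hb
    rw [ValuationSubring.mem_nonunits_iff] at ha ⊢
    have hb' := (p.ring.valuation_le_one_iff _).mpr hb
    rw [map_mul]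
    calc p.ring.valuation a * p.ring.valuation b ≤ p.ring.valuation a * 1 := by gcongr
      _ = p.ring.valuation a := mul_one _
      _ < 1 := ha
  have htring : y⁻¹ ∈ p.ring := ValuationSubring.nonunits_subset ht
  have hpoly : ∀ q : ℂ[X], aeval y⁻¹ q ∈ p.ring := by
    intro q
    rw [aeval_eq_sum_range]
    apply p.ring.toSubring.sum_mem
    intro j _
    rw [Algebra.smul_def]
    exact p.ring.mul_mem _ _ (p.const _) (p.ring.toSubring.pow_mem htring j)
  have h3 : aeval x Q ∈ p.ring.nonunits := by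
    rw [h2]
    apply p.ring.nonunits.neg_mem
    apply p.ring.nonunits.sum_mem
    intro j _
    apply hmulmem
    · have e3 : aeval y⁻¹ (P'.coeff j) - algebraMap ℂ K ((P'.coeff j).coeff 0) =
          y⁻¹ * aeval y⁻¹ (P'.coeff j).divX := by
        conv_lhs => rw [← divX_mul_X_add (P'.coeff j)]
        simp only [map_add, map_mul, aeval_X, aeval_C, coeff_add, mul_coeff_zero, coeff_X_zero,
          mul_zero, coeff_C_zero, zero_add]
        ring
      rw [e3]
      exact hmulmem _ _ ht (hpoly _)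
    · exact p.ring.toSubring.pow_mem hx j
  rw [ValuationSubring.mem_nonunits_iff, h1] at h3
  exact lt_irrefl _ h3

end Pool.Agent.RTB.Crv
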