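import Pool.Agent.RTB.Crv.Stmts

set_option autoImplicit false

namespace Pool.Agent.RTB.Crv

open Module

theorem smh_proof (hPOL : Stmt_POL) : Stmt_SMH := by
  intro K _ _ V E pt W n hW
  rw [smSp, Submodule.span_le]
  rintro y ⟨r, hr, v, hv, rfl⟩
  show ∀ (q : Pt K) (x : K), x ≠ 0 → np pt (n : ℤ) q ≤ V.ord q x → x • (r • v) ∈ E.fib q
  intro q x hx hord
  rw [(hPOL K V pt pt n).2, V.mem_L] at hr
  have h1 := hr q
  rw [V.mem_Lp] at h1
  have h2 : x * r ∈ q.ring := by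
    rcases h1 with h1 | h1
    · rw [h1, mul_zero]; exact q.ring.zero_mem
    by_cases hr0 : r = 0
    · rw [hr0, mul_zero]; exact q.ring.zero_mem
    rw [V.mem q _ (mul_ne_zero hx hr0), V.mul q _ _ hx hr0]
    linarith
  have h3 : v ∈ E.fib q := (Submodule.mem_iInf _).mp (hW hv) q
  obtain ⟨e, e', -, he⟩ := E.loc q
  obtain ⟨a, ha, b, hb, hab⟩ := (he v).mp h3
  rw [he]
  refine ⟨x * r * a, q.ring.mul_mem _ _ h2 ha, x * r * b, q.ring.mul_mem _ _ h2 hb, ?_⟩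
  rw [hab]
  simp only [smul_add, smul_smul, mul_assoc]

end Pool.Agent.RTB.Crv
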