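import Pool.Agent.RTB.Crv.Stmts

set_option autoImplicit false

namespace Pool.Agent.RTB.Crv

open Module

theorem TAA_.dg_add_np {K : Type} [Field K] [Algebra ℂ K] (D : Pt K →₀ ℤ) (p : Pt K) (n : ℤ) :
    dg (D + np p n) = dg D + n := by
  unfold dg np
  rw [Finsupp.sum_add_index' (fun _ => rfl) (fun _ _ _ => rfl), Finsupp.sum_single_index rfl]

theorem taa_proof (hDEGS : Stmt_DEGS) (hR2H : Stmt_R2H) : Stmt_TAA := by
  intro K _ _ V g E pt n hg hCF hE hne hn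
  obtain ⟨s, hs, hs0⟩ := Submodule.exists_mem_ne_zero_of_ne_bot hne
  obtain ⟨DM, DN, Dd, h1, h2, h3, h4, h5, h6, h7, h8, h9⟩ := hDEGS K V g E s hE hs0 hs
  have hn' : 2 * (g : ℤ) ≤ n := by exact_mod_cast hn
  have hg' : 1 ≤ (g : ℤ) := by exact_mod_cast hg
  have h10 := hCF.rr (DM + np pt (n : ℤ)) (by rw [TAA_.dg_add_np]; linarith)
  have h11 := hCF.rr (DN + np pt (n : ℤ)) (by rw [TAA_.dg_add_np]; linarith)
  rw [TAA_.dg_add_np] at h10 h11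
  obtain ⟨h12, h13⟩ := hR2H K V E pt s DM DN n hs0 h1 h2 (hCF.fd _) (hCF.fd _)
  refine ⟨h12, ?_⟩
  have h14 : (finrank ℂ (HE V E pt (n : ℤ)) : ℤ) ≤ 2 * (n : ℤ) := by linarith
  exact_mod_cast h14

end Pool.Agent.RTB.Crv
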