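import Pool.Agent.RTB.Crv.Stmts

set_option autoImplicit false

namespace Pool.Agent.RTB.Crv

open Module

theorem TAL_.dg_add_np {K : Type} [Field K] [Algebra ℂ K] (D : Pt K →₀ ℤ) (p : Pt K) (n : ℤ) :
    dg (D + np p n) = dg D + n := by
  unfold dg np
  rw [Finsupp.sum_add_index' (fun _ => rfl) (fun _ _ _ => rfl), Finsupp.sum_single_index rfl]

theorem TAL_.dg_sub {K : Type} [Field K] [Algebra ℂ K] (D D' : Pt K →₀ ℤ) :
    dg (D - D') = dg D - dg D' := by
  unfold dg
  exact Finsupp.sum_sub_index (fun _ _ _ => rfl)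

theorem TAL_.dg_np {K : Type} [Field K] [Algebra ℂ K] (p : Pt K) (n : ℤ) :
    dg (np p n) = n := by
  unfold dg np
  exact Finsupp.sum_single_index rfl

/-- `f ↦ f • s` -/
def TAL_.mulS {K : Type} [Field K] [Algebra ℂ K] (s : Fin 2 → K) : K →ₗ[ℂ] (Fin 2 → K) where
  toFun := fun f => f • s
  map_add' := fun f h => add_smul f h s
  map_smul' := fun z f => smul_assoc z f s

/-- vectors proportional to `s` -/
theorem TAL_.prop {K : Type} [Field K] (s v : Fin 2 → K) (hs : s ≠ 0) (h : det2 s v = 0) :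
    ∃ f : K, v = f • s := by
  have h' : s 0 * v 1 = s 1 * v 0 := by
    unfold det2 at h; linear_combination h
  by_cases h0 : s 0 = 0
  · have h1 : s 1 ≠ 0 := by
      intro h1
      apply hs
      funext i
      fin_cases i
      · exact h0
      · exact h1
    refine ⟨v 1 / s 1, ?_⟩
    rw [h0, zero_mul] at h'
    have h2 : v 0 = 0 := by
      rcases mul_eq_zero.mp h'.symm with h3 | h3
      · exact absurd h3 h1
      · exact h3
    funext i
    fin_cases i
    · show v 0 = v 1 / s 1 * s 0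
      rw [h2, h0, mul_zero]
    · show v 1 = v 1 / s 1 * s 1
      rw [div_mul_cancel₀ _ h1]
  · refine ⟨v 0 / s 0, ?_⟩
    funext i
    fin_cases i
    · show v 0 = v 0 / s 0 * s 0
      rw [div_mul_cancel₀ _ h0]
    · show v 1 = v 0 / s 0 * s 1
      field_simp
      linear_combination h'

/-- products of functions in `L D` and `L D'` -/
theorem TAL_.mul_mem {K : Type} [Field K] [Algebra ℂ K] (V : Val K) (D D' : Pt K →₀ ℤ) (x y : K)
    (hx : x ∈ V.L D) (hy : y ∈ V.L D') : x * y ∈ V.L (D + D') := by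
  rw [V.mem_L] at hx hy ⊢
  intro p
  have h1 := hx p
  have h2 := hy p
  rw [V.mem_Lp] at h1 h2 ⊢
  by_cases hx0 : x = 0
  · left; rw [hx0, zero_mul]
  by_cases hy0 : y = 0
  · left; rw [hy0, mul_zero]
  right
  rcases h1 with h1 | h1
  · exact absurd h1 hx0
  rcases h2 with h2 | h2
  · exact absurd h2 hy0
  rw [V.mul p x y hx0 hy0, Finsupp.add_apply]
  linarith

open TAL_

theorem tal_proof (hDEGS : Stmt_DEGS) (hPOL : Stmt_POL) : Stmt_TAL := by
  intro K _ _ V g k E pt W hg hCF hE hW hk hWk hiso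
  have hWb : W ≠ ⊥ := by
    intro h
    rw [h, finrank_bot] at hWk
    omega
  obtain ⟨s, hs, hs0⟩ := Submodule.exists_mem_ne_zero_of_ne_bot hWb
  obtain ⟨DM, DN, Dd, h1, h2, h3, h4, h5, h6, h7, h8, h9⟩ := hDEGS K V g E s hE hs0 (hW hs)
  -- the function `f0`
  have h10 := hCF.riem (np pt ((3 * g : ℕ) : ℤ) - DM)
  rw [TAL_.dg_sub, TAL_.dg_np] at h10
  have h11 : 0 < V.ell (np pt ((3 * g : ℕ) : ℤ) - DM) := by
    have h9 : ((3 * g : ℕ) : ℤ) = 3 * (g : ℤ) := by push_cast; ring
    have h12 : (0 : ℤ) ≤ g := Int.natCast_nonneg g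
    linarith
  have h12 : V.L (np pt ((3 * g : ℕ) : ℤ) - DM) ≠ ⊥ := by
    intro h
    rw [Val.ell, h, finrank_bot] at h11
    simp at h11
  obtain ⟨f0, hf, hf0⟩ := Submodule.exists_mem_ne_zero_of_ne_bot h12
  -- the space `W1`
  let W1 : Submodule ℂ K := W.comap (mulS s)
  have hinj : Function.Injective (mulS s) := by
    intro a c h
    have h13 : a • s = c • s := h
    have h14 : (a - c) • s = 0 := by rw [sub_smul, h13, sub_self]
    rcases smul_eq_zero.mp h14 with h15 | h15
    · exact sub_eq_zero.mp h15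
    · exact absurd h15 hs0
  have hmap : W1.map (mulS s) = W := by
    apply le_antisymm
    · rintro x ⟨a, ha, rfl⟩
      exact ha
    · intro u hu
      obtain ⟨f, rfl⟩ := TAL_.prop s u hs0 (hiso s hs u hu)
      exact ⟨f, hu, rfl⟩
  have hW1k : finrank ℂ W1 = k := by
    rw [← hWk]
    conv_rhs => rw [← hmap]
    exact (LinearEquiv.finrank_eq (Submodule.equivMapOfInjective (mulS s) hinj W1))
  have hW1 : W1 ≤ V.L DM := by
    intro f hf1
    rw [V.mem_L]
    intro q
    have h13 : f ∈ E.sub s q := (Submodule.mem_iInf _).mp (hW hf1) q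
    rw [h1 q] at h13
    exact h13
  -- the space `U`
  let mf : K →ₗ[ℂ] K := LinearMap.mulLeft ℂ f0
  have hmf : Function.Injective mf := by
    intro a c h
    exact mul_left_cancel₀ hf0 h
  refine ⟨W1.map mf, ?_, ?_, ?_⟩
  · rintro x ⟨a, ha, rfl⟩
    rw [(hPOL K V pt pt (3 * g)).2]
    have h13 := TAL_.mul_mem V _ _ f0 a hf (hW1 ha)
    rw [sub_add_cancel] at h13
    exact h13
  · rw [← hW1k]
    exact (LinearEquiv.finrank_eq (Submodule.equivMapOfInjective mf hmf W1)).symm
  · intro n hn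
    have hn' : 2 * (g : ℤ) ≤ n := by exact_mod_cast hn
    have h13 := hCF.rr (DM + np pt (n : ℤ)) (by rw [TAL_.dg_add_np]; linarith)
    rw [TAL_.dg_add_np] at h13
    have := hCF.fd (DM + np pt (n : ℤ))
    have h14 : (Rp pt n * W1.map mf : Submodule ℂ K) ≤ (V.L (DM + np pt (n : ℤ))).map mf := by
      rw [Submodule.mul_le]
      rintro r hr x ⟨a, ha, rfl⟩
      rw [(hPOL K V pt pt n).2] at hr
      refine ⟨a * r, TAL_.mul_mem V _ _ a r (hW1 ha) hr, ?_⟩
      show f0 * (a * r) = r * (f0 * a)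
      ring
    have h15 := Submodule.finrank_mono h14
    have h16 := Submodule.finrank_map_le mf (V.L (DM + np pt (n : ℤ)))
    have h17 : ((finrank ℂ (V.L (DM + np pt (n : ℤ))) : ℕ) : ℤ) ≤ n := by
      have : V.ell (DM + np pt (n : ℤ)) = ((finrank ℂ (V.L (DM + np pt (n : ℤ))) : ℕ) : ℤ) := rfl
      rw [← this]
      linarith
    have h18 : finrank ℂ (V.L (DM + np pt (n : ℤ))) ≤ n := by exact_mod_cast h17
    omega

end Pool.Agent.RTB.Crv
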