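import Pool.Agent.RTB.Crv.Stmts

set_option autoImplicit false

namespace Pool.Agent.RTB.Crv

open Module

theorem TBU_.dg_add_np {K : Type} [Field K] [Algebra ℂ K] (D : Pt K →₀ ℤ) (p : Pt K) (n : ℤ) :
    dg (D + np p n) = dg D + n := by
  unfold dg np
  rw [Finsupp.sum_add_index' (fun _ => rfl) (fun _ _ _ => rfl), Finsupp.sum_single_index rfl]

/-- `f ↦ f • s` -/
def TBU_.mulS {K : Type} [Field K] [Algebra ℂ K] (s : Fin 2 → K) : K →ₗ[ℂ] (Fin 2 → K) where
  toFun := fun f => f • s
  map_add' := fun f h => add_smul f h s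
  map_smul' := fun z f => smul_assoc z f s

/-- vectors proportional to `s` -/
theorem TBU_.prop {K : Type} [Field K] (s v : Fin 2 → K) (hs : s ≠ 0) (h : det2 s v = 0) :
    ∃ f : K, v = f • s := by
  have h' : s 0 * v 1 = s 1 * v 0 := by
    unfold det2 at h; linear_combination h
  by_cases h0 : s 0 = 0
  · have h1 : s 1 ≠ 0 := by
      intro h1
      apply hs
      funext i
      fin_cases i
      · exact h0
      · exact h1
    refine ⟨v 1 / s 1, ?_⟩
    rw [h0, zero_mul] at h'
    have h2 : v 0 = 0 := by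
      rcases mul_eq_zero.mp h'.symm with h3 | h3
      · exact absurd h3 h1
      · exact h3
    funext i
    fin_cases i
    · show v 0 = v 1 / s 1 * s 0
      rw [h2, h0, mul_zero]
    · show v 1 = v 1 / s 1 * s 1
      rw [div_mul_cancel₀ _ h1]
  · refine ⟨v 0 / s 0, ?_⟩
    funext i
    fin_cases i
    · show v 0 = v 0 / s 0 * s 0
      rw [div_mul_cancel₀ _ h0]
    · show v 1 = v 0 / s 0 * s 1
      field_simp
      linear_combination h'

open TBU_

theorem tbu_proof (hDEGS : Stmt_DEGS) (hPOL : Stmt_POL) : Stmt_TBU := by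
  intro K _ _ V g E pt U n hg hCF hE hU hiso hn
  by_cases hb : U = ⊥
  · have h1 : smSp (Rp pt n) U ≤ ⊥ := by
      rw [smSp, Submodule.span_le]
      rintro x ⟨r, -, u, hu, rfl⟩
      rw [hb, Submodule.mem_bot] at hu
      rw [hu, smul_zero]
      exact Submodule.zero_mem _
    have h2 : smSp (Rp pt n) U = ⊥ := le_bot_iff.mp h1
    rw [h2]
    exact ⟨inferInstance, by rw [finrank_bot]; exact Nat.zero_le n⟩
  obtain ⟨s, hs, hs0⟩ := Submodule.exists_mem_ne_zero_of_ne_bot hb
  obtain ⟨DM, DN, Dd, h1, h2, h3, h4, h5, h6, h7, h8, h9⟩ := hDEGS K V g E s hE hs0 (hU hs)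
  have hn' : 2 * (g : ℤ) ≤ n := by exact_mod_cast hn
  have h10 := hCF.rr (DM + np pt (n : ℤ)) (by rw [TBU_.dg_add_np]; linarith)
  rw [TBU_.dg_add_np] at h10
  have := hCF.fd (DM + np pt (n : ℤ))
  have h11 : smSp (Rp pt n) U ≤ (V.L (DM + np pt (n : ℤ))).map (mulS s) := by
    rw [smSp, Submodule.span_le]
    rintro x ⟨r, hr, u, hu, rfl⟩
    obtain ⟨f, rfl⟩ := TBU_.prop s u hs0 (hiso s hs u hu)
    refine ⟨r * f, ?_, ?_⟩
    · rw [(hPOL K V pt pt n).2] at hr
      show r * f ∈ V.L (DM + np pt (n : ℤ))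
      rw [V.mem_L] at hr ⊢
      intro q
      have h12 := hr q
      have h13 : f ∈ E.sub s q := (Submodule.mem_iInf _).mp (hU hu) q
      rw [h1 q] at h13
      rw [V.mem_Lp] at h12 h13 ⊢
      by_cases hr0 : r = 0
      · left; rw [hr0, zero_mul]
      by_cases hf0 : f = 0
      · left; rw [hf0, mul_zero]
      right
      rcases h12 with h12 | h12
      · exact absurd h12 hr0
      rcases h13 with h13 | h13
      · exact absurd h13 hf0
      rw [V.mul q r f hr0 hf0, Finsupp.add_apply]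
      linarith
    · exact mul_smul r f s
  refine ⟨Submodule.finiteDimensional_of_le h11, ?_⟩
  have h12 := Submodule.finrank_mono h11
  have h13 := Submodule.finrank_map_le (mulS s) (V.L (DM + np pt (n : ℤ)))
  have h14 : ((finrank ℂ (V.L (DM + np pt (n : ℤ))) : ℕ) : ℤ) ≤ n := by
    have : V.ell (DM + np pt (n : ℤ)) = ((finrank ℂ (V.L (DM + np pt (n : ℤ))) : ℕ) : ℤ) := rfl
    rw [← this]
    linarith
  have h15 : finrank ℂ (V.L (DM + np pt (n : ℤ))) ≤ n := by exact_mod_cast h14
  omega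

end Pool.Agent.RTB.Crv
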