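import Pool.Agent.RTB.Crv.Stmts

set_option autoImplicit false

namespace Pool.Agent.RTB.Crv

open Module

theorem tcc_proof (hR2D : Stmt_R2D) (hDGM : Stmt_DGM) (hELL : Stmt_ELL) : Stmt_TCC := by
  intro K _ _ V E W hW
  have h1 : dets W ≤ ⨅ p, E.det p := by
    rw [dets, Submodule.span_le]
    rintro x ⟨v, hv, w, hw, rfl⟩
    show det2 v w ∈ ⨅ p, E.det p
    rw [Submodule.mem_iInf]
    intro p
    exact Submodule.subset_span ⟨v, (Submodule.mem_iInf _).mp (hW hv) p, w,
      (Submodule.mem_iInf _).mp (hW hw) p, rfl⟩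
  obtain ⟨DM, DN, Dd, -, -, hDd, -⟩ := hR2D K V E ![1, 0] (by
    intro h
    have := congrFun h 0
    simp at this)
  obtain ⟨-, -, h4⟩ := hDGM K V E.det Dd hDd
  have h5 : FiniteDimensional ℂ (⨅ p, E.det p : Submodule ℂ K) := by
    rw [h4]; exact (hELL K V Dd Dd le_rfl).2.1
  exact ⟨h1, Submodule.finiteDimensional_of_le h1, Submodule.finrank_mono h1⟩

end Pool.Agent.RTB.Crv
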