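import Pool.Agent.RTB.Crv.Stmts

set_option autoImplicit false

namespace Pool.Agent.RTB.Crv

open Module

theorem tdd_proof (hTDG : Stmt_TDG) (hPEN : Stmt_PEN) (hPEM : Stmt_PEM) (hTCC : Stmt_TCC)
    (hR2D : Stmt_R2D) (hDGM : Stmt_DGM) : Stmt_TDD := by
  intro K _ _ V g E pt W n m hg hCF hE hWH hWf hgen hn h2n hm
  have h1 := hTDG K V g E pt W n hg hCF hE hWH hWf hgen hn h2n
  obtain ⟨DM, DN, Dd, -, -, hDd, -⟩ := hR2D K V E ![1, 0] (by
    intro h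
    have := congrFun h 0
    simp at this)
  obtain ⟨h2, -, h4⟩ := hDGM K V E.det Dd hDd
  obtain ⟨h5, h6, -⟩ := hTCC K V E W hWH
  obtain ⟨w1, hw1, w2, hw2, hw10, hw20, hw⟩ := hPEN K V pt Dd (dets W)
    (fun p => by rw [← hDd p]; exact h1 p) h6
  have h7 : dg Dd = 2 * (g : ℤ) - 2 := by rw [← h2]; exact hE.dg
  exact hPEM K V g pt Dd (dets W) w1 w2 m hg hCF h7 (by rw [← h4]; exact h5) hw1 hw2 hw10 hw20
    hw hm

end Pool.Agent.RTB.Crv
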