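import Pool.Agent.RTB.Crv.Stmts

/-! If `E` has as few sections as possible, the determinant is generated by the determinants of
the sections. -/

set_option autoImplicit false

namespace Pool.Agent.RTB.Crv

open Module

namespace TDG_

variable {K : Type} [Field K] [Algebra ℂ K]

theorem dg_add (D D' : Pt K →₀ ℤ) : dg (D + D') = dg D + dg D' := by
  unfold dg
  exact Finsupp.sum_add_index' (fun _ => rfl) (fun _ _ _ => rfl)

theorem dg_np (p : Pt K) (n : ℤ) : dg (np p n) = n := by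
  unfold dg np
  exact Finsupp.sum_single_index rfl

theorem dg_nonneg {D : Pt K →₀ ℤ} (h : ∀ p, 0 ≤ D p) : 0 ≤ dg D := by
  unfold dg Finsupp.sum
  exact Finset.sum_nonneg fun p _ => h p

theorem eq_zero_of {D : Pt K →₀ ℤ} (h : ∀ p, 0 ≤ D p) (h0 : dg D ≤ 0) (p : Pt K) : D p = 0 := by
  by_contra hp
  have h1 : 0 < dg D := by
    unfold dg Finsupp.sum
    apply Finset.sum_pos' (fun q _ => h q)
    exact ⟨p, Finsupp.mem_support_iff.2 hp, lt_of_le_of_ne (h p) (Ne.symm hp)⟩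
  linarith

theorem ord_pow (V : Val K) (p : Pt K) {t : K} (ht : t ≠ 0) (n : ℕ) :
    V.ord p (t ^ n) = n * V.ord p t := by
  induction n with
  | zero => rw [pow_zero, V.ord_one]; simp
  | succ n ih =>
    rw [pow_succ, V.mul p _ _ (pow_ne_zero n ht) ht, ih]
    push_cast
    ring

/-- there is a function of every order -/
theorem exists_ord (V : Val K) (p : Pt K) (n : ℤ) : ∃ x : K, x ≠ 0 ∧ V.ord p x = n := by
  obtain ⟨t, ht, ht1⟩ := V.unif p
  rcases Int.eq_nat_or_neg n with ⟨m, rfl | rfl⟩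
  · exact ⟨t ^ m, pow_ne_zero m ht, by rw [ord_pow V p ht, ht1, mul_one]⟩
  · refine ⟨(t ^ m)⁻¹, inv_ne_zero (pow_ne_zero m ht), ?_⟩
    rw [V.ord_inv p (pow_ne_zero m ht), ord_pow V p ht, ht1, mul_one]

theorem le_of_Lp_le (V : Val K) (p : Pt K) {m n : ℤ} (h : V.Lp p m ≤ V.Lp p n) : m ≤ n := by
  obtain ⟨x, hx, hx1⟩ := exists_ord V p (-m)
  have h1 : x ∈ V.Lp p m := V.mem_Lp.2 (Or.inr (by rw [hx1]))
  rcases V.mem_Lp.1 (h h1) with h2 | h2
  · exact absurd h2 hx
  · rw [hx1] at h2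
    linarith

theorem smul_fib (E : VB2 K) (p : Pt K) {a : K} (ha : a ∈ p.ring) {v : Fin 2 → K}
    (hv : v ∈ E.fib p) : a • v ∈ E.fib p := by
  obtain ⟨e, e', -, h⟩ := E.loc p
  obtain ⟨x, hx, y, hy, rfl⟩ := (h v).1 hv
  refine (h _).2 ⟨a * x, p.ring.mul_mem _ _ ha hx, a * y, p.ring.mul_mem _ _ ha hy, ?_⟩
  rw [smul_add, smul_smul, smul_smul]

end TDG_

open TDG_ in
theorem tdg_proof (hGENB : Stmt_GENB) (hR2D : Stmt_R2D) (hR2H : Stmt_R2H) (hSMH : Stmt_SMH)
    (hDGM : Stmt_DGM) (_hIDX : Stmt_IDX) : Stmt_TDG := by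
  intro K _ _ V g E pt W n hg hCF hE hW hfd hvw hn hfin
  obtain ⟨v, hv, w, hw, hdet⟩ := hvw
  obtain ⟨E', hE'1, hE'2, hE'3⟩ := hGENB K V W hfd ⟨v, hv, w, hw, hdet⟩
  have hv0 : v ≠ 0 := by
    rintro rfl
    apply hdet
    simp [det2]
  have hfib : ∀ p, E'.fib p ≤ E.fib p := by
    intro p
    rw [hE'1 p]
    unfold gnV
    rw [Submodule.span_le]
    rintro x ⟨a, ha, u, hu, rfl⟩
    have hu' : u ∈ E.fib p := by
      have := hW hu
      unfold VB2.H at this
      exact (Submodule.mem_iInf _).1 this p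
    exact smul_fib E p ha hu'
  have hWfib : ∀ u ∈ W, ∀ p, u ∈ E'.fib p := by
    intro u hu p
    have := hE'2 hu
    unfold VB2.H at this
    exact (Submodule.mem_iInf _).1 this p
  obtain ⟨DM', DN', Dd', h1', h2', h3', h4'⟩ := hR2D K V E' v hv0
  obtain ⟨DM, DN, Dd, h1, h2, h3, h4⟩ := hR2D K V E v hv0
  have hdd : ∀ p, Dd' p ≤ Dd p := by
    intro p
    apply le_of_Lp_le V p
    rw [← h3' p, ← h3 p]
    unfold VB2.det
    apply Submodule.span_mono
    rintro x ⟨a, ha, b, hb, rfl⟩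
    exact ⟨a, hfib p ha, b, hfib p hb, rfl⟩
  have hdgE : dg Dd = 2 * (g : ℤ) - 2 := by
    rw [← (hDGM K V E.det Dd h3).1]
    exact hE.dg
  have hDM : ∀ p, 0 ≤ DM' p := by
    intro p
    have hm : (1 : K) ∈ E'.sub v p := by
      show (1 : K) • v ∈ E'.fib p
      rw [one_smul]
      exact hWfib v hv p
    rw [h1' p] at hm
    rcases V.mem_Lp.1 hm with h | h
    · exact absurd h one_ne_zero
    · rw [V.ord_one] at h
      linarith
  have hDN : 0 ≤ dg DN' := by
    have h5 : 0 ≤ dg (DN' + V.dv (det2 v w)) := by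
      apply dg_nonneg
      intro p
      have hm : det2 v w ∈ E'.quo v p := by
        unfold VB2.quo
        exact ⟨w, hWfib w hw p, rfl⟩
      rw [h2' p] at hm
      rw [Finsupp.add_apply, V.dv_apply hdet]
      rcases V.mem_Lp.1 hm with h | h
      · exact absurd h hdet
      · linarith
    rw [dg_add, hCF.dv _ hdet] at h5
    linarith
  have hDM0 : 0 ≤ dg DM' := dg_nonneg hDM
  have hn' : 2 * (g : ℤ) ≤ n := by exact_mod_cast hn
  obtain ⟨hfd', hle⟩ := hR2H K V E' pt v DM' DN' n hv0 h1' h2' (hCF.fd _) (hCF.fd _)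
  have hsm := hSMH K V E' pt W n hE'2
  have h6 : finrank ℂ (smSp (Rp pt n) W) ≤ finrank ℂ (HE V E' pt (n : ℤ)) :=
    Submodule.finrank_mono hsm
  have h7 : V.ell (DM' + np pt n) = dg (DM' + np pt n) + 1 - g := by
    apply hCF.rr
    rw [dg_add, dg_np]
    linarith
  have h8 : V.ell (DN' + np pt n) = dg (DN' + np pt n) + 1 - g := by
    apply hCF.rr
    rw [dg_add, dg_np]
    linarith
  rw [dg_add, dg_np] at h7 h8
  rw [hfin] at h6
  have h6' : (2 * n : ℤ) ≤ (finrank ℂ (HE V E' pt (n : ℤ)) : ℤ) := by exact_mod_cast h6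
  have h9 : dg Dd' = dg DM' + dg DN' := by rw [← h4', dg_add]
  have h10 : dg Dd ≤ dg Dd' := by
    rw [hdgE, h9]
    linarith
  have h11 : ∀ p, (Dd - Dd') p = 0 := by
    apply eq_zero_of
    · intro p
      rw [Finsupp.sub_apply]
      linarith [hdd p]
    · have h12 : dg Dd = dg (Dd - Dd') + dg Dd' := by
        rw [← dg_add, sub_add_cancel]
      linarith
  intro p
  have h13 : Dd p = Dd' p := by
    have := h11 p
    rw [Finsupp.sub_apply] at this
    linarith
  rw [h3 p, h13, ← h3' p, hE'3 p]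

end Pool.Agent.RTB.Crv
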