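import Pool.Agent.RTB.Crv.Stmts

set_option autoImplicit false

namespace Pool.Agent.RTB.Crv

open Module

namespace TONE_

section
variable {K : Type} [Field K] [Algebra ℂ K]

omit [Algebra ℂ K] in
theorem det2_add_left (u v w : Fin 2 → K) : det2 (u + v) w = det2 u w + det2 v w := by
  simp only [det2, Pi.add_apply]; ring

omit [Algebra ℂ K] in
theorem det2_add_right (u v w : Fin 2 → K) : det2 w (u + v) = det2 w u + det2 w v := by
  simp only [det2, Pi.add_apply]; ring

theorem det2_smul_left (z : ℂ) (u w : Fin 2 → K) : det2 (z • u) w = z • det2 u w := by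
  simp only [det2, Pi.smul_apply, Algebra.smul_def]; ring

theorem det2_smul_right (z : ℂ) (u w : Fin 2 → K) : det2 w (z • u) = z • det2 w u := by
  simp only [det2, Pi.smul_apply, Algebra.smul_def]; ring

/-- the determinants of vectors of the span are in the span of the determinants -/
theorem dets_span {k : ℕ} (s : Fin k → Fin 2 → K) :
    dets (Submodule.span ℂ (Set.range s)) = detSp ℂ s := by
  apply le_antisymm
  · rw [dets, Submodule.span_le]
    rintro x ⟨v, hv, w, hw, rfl⟩
    show det2 v w ∈ detSp ℂ s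
    have h1 : ∀ i, ∀ w ∈ Submodule.span ℂ (Set.range s), det2 (s i) w ∈ detSp ℂ s := by
      intro i w hw
      induction hw using Submodule.span_induction with
      | mem x hx =>
        obtain ⟨j, rfl⟩ := hx
        exact Submodule.subset_span ⟨i, j, rfl⟩
      | zero =>
        have : det2 (s i) (0 : Fin 2 → K) = 0 := by simp [det2]
        rw [this]; exact Submodule.zero_mem _
      | add x y _ _ hx hy => rw [det2_add_right]; exact Submodule.add_mem _ hx hy
      | smul z x _ hx => rw [det2_smul_right]; exact Submodule.smul_mem _ _ hx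
    induction hv using Submodule.span_induction with
    | mem x hx =>
      obtain ⟨i, rfl⟩ := hx
      exact h1 i w hw
    | zero =>
      have : det2 (0 : Fin 2 → K) w = 0 := by simp [det2]
      rw [this]; exact Submodule.zero_mem _
    | add x y _ _ hx hy => rw [det2_add_left]; exact Submodule.add_mem _ hx hy
    | smul z x _ hx => rw [det2_smul_left]; exact Submodule.smul_mem _ _ hx
  · rw [detSp, Submodule.span_le]
    rintro x ⟨i, j, rfl⟩
    exact Submodule.subset_span ⟨s i, Submodule.subset_span ⟨i, rfl⟩, s j,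
      Submodule.subset_span ⟨j, rfl⟩, rfl⟩

end

/-- a subspace of given dimension -/
theorem exists_sub {V : Type} [AddCommGroup V] [Module ℂ V] (H : Submodule ℂ V) (k : ℕ)
    (hk : k ≤ finrank ℂ H) (h1 : 1 ≤ k) :
    ∃ s : Fin k → V, LinearIndependent ℂ s ∧ ∀ i, s i ∈ H := by
  have : FiniteDimensional ℂ H := FiniteDimensional.of_finrank_pos (by omega)
  let b := finBasis ℂ H
  refine ⟨fun i => (b (Fin.castLE hk i) : V), ?_, fun i => (b (Fin.castLE hk i)).2⟩
  have h2 : LinearIndependent ℂ (fun i : Fin (finrank ℂ H) => (b i : V)) := by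
    have := b.linearIndependent.map' H.subtype (Submodule.ker_subtype H)
    exact this
  exact h2.comp (Fin.castLE hk) (Fin.castLE_injective hk)

end TONE_

open TONE_

theorem TONE_.main (hVALO : Stmt_VALO) (hCFM : Stmt_CFM) (hTAA : Stmt_TAA) (hTBU : Stmt_TBU)
    (hTCC : Stmt_TCC) (hTDD : Stmt_TDD) (hTAL : Stmt_TAL) (hTFM : Stmt_TFM) (hSMH : Stmt_SMH)
    (k g : ℕ) (hg : g = 2 * k - 3) (X : MarkedCurve g) (E : VB2 X.K) (hk : 9 ≤ k)
    (hss : E.Semistable) (hdeg : deg E.det = 2 * (g : ℤ) - 2) (hcan : h0 E.det < g)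
    (hbad : ¬ (2 * E.h0 ≤ g + 1)) :
    Dat1 ℂ g k X.R ∨ ∃ (s : Fin k → Fin 2 → X.K) (f : X.K), Dat ℂ g k X.R s f := by
  obtain ⟨V⟩ := hVALO X.K X.isFF
  have hg1 : 1 ≤ g := by omega
  have hCF : CF g V := hCFM g X V
  have hE : GoodE g E := ⟨hss, hdeg⟩
  have hH : k ≤ finrank ℂ E.H := by
    have : E.h0 = finrank ℂ E.H := rfl
    omega
  obtain ⟨s, hs, hsH⟩ := exists_sub E.H k hH (by omega)
  set W : Submodule ℂ (Fin 2 → X.K) := Submodule.span ℂ (Set.range s) with hW
  have hWH : W ≤ E.H := by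
    rw [hW, Submodule.span_le]
    rintro x ⟨i, rfl⟩
    exact hsH i
  have hWf : FiniteDimensional ℂ W := FiniteDimensional.span_of_finite ℂ (Set.finite_range s)
  have hWk : finrank ℂ W = k := by
    have := finrank_span_eq_card hs
    rw [Fintype.card_fin] at this
    exact this
  have hHne : E.H ≠ ⊥ := by
    intro h
    rw [h, finrank_bot] at hH
    omega
  by_cases hiso : ∀ u ∈ W, ∀ v ∈ W, det2 u v = 0
  · left
    obtain ⟨U, h1, h2, h3⟩ := hTAL X.K V g k E X.pt W hg1 hCF hE hWH (by omega) hWk hiso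
    exact ⟨U, h1, h2, h3⟩
  · right
    push Not at hiso
    obtain ⟨u, hu, v, hv, huv⟩ := hiso
    obtain ⟨f, hf0, hf⟩ := hTFM X.K V g E X.pt W hCF hE hWH
    refine ⟨s, f, ?_⟩
    have hds : dets W = detSp ℂ s := dets_span s
    refine ⟨hf0, hs, ?_, ?_, ?_, ?_, ?_, ?_⟩
    · by_contra hcon
      push Not at hcon
      apply huv
      have h1 : det2 u v ∈ detSp ℂ s := by
        rw [← hds]; exact Submodule.subset_span ⟨u, hu, v, hv, rfl⟩
      have h2 : detSp ℂ s ≤ ⊥ := by
        rw [detSp, Submodule.span_le]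
        rintro x ⟨i, j, rfl⟩
        rw [hcon i j]
        exact Submodule.zero_mem _
      exact (Submodule.mem_bot ℂ).mp (h2 h1)
    · intro i j
      apply hf
      rw [hds]
      exact Submodule.subset_span ⟨i, j, rfl⟩
    · intro n hn
      obtain ⟨h1, h2⟩ := hTAA X.K V g E X.pt n hg1 hCF hE hHne hn
      exact le_trans (Submodule.finrank_mono (hSMH X.K V E X.pt W n hWH)) h2
    · intro U hU hiso n hn
      exact (hTBU X.K V g E X.pt U n hg1 hCF hE (le_trans hU hWH) hiso hn).2
    · have h1 := (hTCC X.K V E W hWH).2.2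
      rw [hds] at h1
      omega
    · intro n hn h2n m hm
      have h1 := hTDD X.K V g E X.pt W n m hg1 hCF hE hWH hWf ⟨u, hu, v, hv, huv⟩ hn h2n hm
      rw [hds] at h1
      exact h1

theorem tone_proof (hVALO : Stmt_VALO) (hCFM : Stmt_CFM) (hTAA : Stmt_TAA) (hTBU : Stmt_TBU)
    (hTCC : Stmt_TCC) (hTDD : Stmt_TDD) (hTAL : Stmt_TAL) (hTFM : Stmt_TFM) (hSMH : Stmt_SMH) :
    Stmt_TONE := fun k X E hk hss hdeg hcan hbad =>
  TONE_.main hVALO hCFM hTAA hTBU hTCC hTDD hTAL hTFM hSMH k _ rfl X E hk hss hdeg hcan hbad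

end Pool.Agent.RTB.Crv
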