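import Pool.Agent.RTB.Crv.Stmts

set_option autoImplicit false

namespace Pool.Agent.RTB.Crv

open Module

namespace VALO_

section
variable {K : Type} [Field K] [Algebra ℂ K]

theorem not_nonunit {p : Pt K} {t : K} (ht : t ∈ p.ring.nonunits) : t⁻¹ ∉ p.ring ∨ t = 0 := by
  by_cases h0 : t = 0
  · exact Or.inr h0
  left
  intro h
  have h5 := (p.ring.mem_nonunits_iff).mp ht
  have h6 := (p.ring.valuation_le_one_iff _).mpr h
  have h7 : p.ring.valuation t * p.ring.valuation t⁻¹ = 1 := by
    rw [← map_mul, mul_inv_cancel₀ h0, map_one]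
  have h8 : p.ring.valuation t * p.ring.valuation t⁻¹ ≤ p.ring.valuation t * 1 :=
    mul_le_mul_right h6 _
  rw [h7, mul_one] at h8
  exact absurd h5 (not_lt.mpr h8)

/-- `x` is a unit of the local ring -/
def isU (p : Pt K) (x : K) : Prop := x ∈ p.ring ∧ x⁻¹ ∈ p.ring

theorem isU_mul {p : Pt K} {x y : K} (hx : isU p x) (hy : isU p y) : isU p (x * y) := by
  refine ⟨p.ring.mul_mem _ _ hx.1 hy.1, ?_⟩
  rw [mul_inv]
  exact p.ring.mul_mem _ _ hx.2 hy.2

theorem isU_inv {p : Pt K} {x : K} (hx : isU p x) : isU p x⁻¹ := ⟨hx.2, by rw [inv_inv]; exact hx.1⟩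

theorem pow_mem {p : Pt K} {t : K} (ht : t ∈ p.ring) (n : ℕ) : t ^ n ∈ p.ring := by
  induction n with
  | zero => rw [pow_zero]; exact p.ring.one_mem
  | succ n ih => rw [pow_succ]; exact p.ring.mul_mem _ _ ih ht

/-- a power of `t` which is a unit has exponent `0` -/
theorem zpow_unit {p : Pt K} {t : K} (h0 : t ≠ 0) (ht : t ∈ p.ring.nonunits) (n : ℤ)
    (hn : isU p (t ^ n)) : n = 0 := by
  have htr : t ∈ p.ring := p.ring.nonunits_le ht
  have h1 : t⁻¹ ∉ p.ring := by
    rcases not_nonunit ht with h | h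
    · exact h
    · exact absurd h h0
  have key : ∀ m : ℕ, isU p (t ^ (m + 1)) → False := by
    intro m hm
    apply h1
    have h2 : t⁻¹ = (t ^ (m + 1))⁻¹ * t ^ m := by
      rw [pow_succ]
      field_simp
    rw [h2]
    exact p.ring.mul_mem _ _ hm.2 (VALO_.pow_mem htr m)
  rcases n with n | n
  · rcases n with _ | m
    · rfl
    · exfalso
      apply key m
      have h3 : t ^ (Int.ofNat (m + 1)) = t ^ (m + 1) := zpow_natCast t (m + 1)
      rw [h3] at hn
      exact hn
  · exfalso
    apply key n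
    have h3 : t ^ (Int.negSucc n) = (t ^ (n + 1))⁻¹ := zpow_negSucc t n
    rw [h3] at hn
    have h4 := isU_inv hn
    rw [inv_inv] at h4
    exact h4

end

end VALO_

open VALO_

theorem valo_proof (hRES : Stmt_RES) (hDVR : Stmt_DVR) (hFZP : Stmt_FZP) (hCON : Stmt_CON) :
    Stmt_VALO := by
  intro K _ _ hK
  have hD := hDVR K hK
  choose t ht0 htn ht using hD
  have hex : ∀ (p : Pt K) (x : K), ∃ n : ℤ, x ≠ 0 → isU p (x * t p ^ n) := by
    intro p x
    by_cases hx : x = 0
    · exact ⟨0, fun h => absurd hx h⟩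
    · obtain ⟨n, hn⟩ := ht p x hx
      exact ⟨n, fun _ => hn⟩
  choose e he using hex
  -- uniqueness
  have huniq : ∀ (p : Pt K) (x : K) (n : ℤ), x ≠ 0 → isU p (x * t p ^ n) → e p x = n := by
    intro p x n hx hn
    have h1 := he p x hx
    have h2 : isU p (t p ^ (e p x - n)) := by
      have h3 : t p ^ (e p x - n) = (x * t p ^ (e p x)) * (x * t p ^ n)⁻¹ := by
        rw [zpow_sub₀ (ht0 p), mul_inv]
        have h4 : t p ^ n ≠ 0 := zpow_ne_zero n (ht0 p)
        field_simp
      rw [h3]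
      exact isU_mul h1 (isU_inv hn)
    have h3 := zpow_unit (ht0 p) (htn p) _ h2
    linarith
  have hmem : ∀ (p : Pt K) (x : K), x ≠ 0 → (x ∈ p.ring ↔ 0 ≤ - e p x) := by
    intro p x hx
    have h1 := he p x hx
    have htr : t p ∈ p.ring := p.ring.nonunits_le (htn p)
    constructor
    · intro hxr
      by_contra hneg
      push Not at hneg
      -- `e p x > 0`: `x * t^e` is a unit and `x`, `t` in the ring, so `t` is a unit
      obtain ⟨m, hm⟩ : ∃ m : ℕ, e p x = (m + 1 : ℕ) := ⟨(e p x - 1).toNat, by omega⟩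
      rw [hm, zpow_natCast] at h1
      have h2 : (t p)⁻¹ ∈ p.ring := by
        have h3 : (t p)⁻¹ = (x * t p ^ (m + 1))⁻¹ * (x * t p ^ m) := by
          have h4 := ht0 p
          rw [pow_succ]
          field_simp
        rw [h3]
        exact p.ring.mul_mem _ _ h1.2 (p.ring.mul_mem _ _ hxr (VALO_.pow_mem htr m))
      rcases not_nonunit (htn p) with h | h
      · exact h h2
      · exact ht0 p h
    · intro hneg
      obtain ⟨m, hm⟩ : ∃ m : ℕ, e p x = -(m : ℤ) := ⟨(- e p x).toNat, by omega⟩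
      rw [hm, zpow_neg, zpow_natCast] at h1
      have h2 : x = (x * (t p ^ m)⁻¹) * t p ^ m := by
        have h4 := ht0 p
        field_simp
      rw [h2]
      exact p.ring.mul_mem _ _ h1.1 (VALO_.pow_mem htr m)
  refine ⟨⟨fun p x => - e p x, ?_, hmem, ?_, ?_, ?_, fun x hx => hCON K hK x hx⟩⟩
  · intro p x y hx hy
    have h1 := huniq p (x * y) (e p x + e p y) (mul_ne_zero hx hy) (by
      have h2 : x * y * t p ^ (e p x + e p y) = (x * t p ^ (e p x)) * (y * t p ^ (e p y)) := by
        rw [zpow_add₀ (ht0 p)]; ring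
      rw [h2]
      exact isU_mul (he p x hx) (he p y hy))
    rw [h1]
    ring
  · intro p
    refine ⟨t p, ht0 p, ?_⟩
    have h1 := huniq p (t p) (-1) (ht0 p) (by
      rw [zpow_neg, zpow_one, mul_inv_cancel₀ (ht0 p)]
      exact ⟨p.ring.one_mem, by rw [inv_one]; exact p.ring.one_mem⟩)
    rw [h1]
    ring
  · intro p x hx
    obtain ⟨z, hz⟩ := hRES K hK p x hx
    refine ⟨z, ?_⟩
    by_cases h0 : x - algebraMap ℂ K z = 0
    · exact Or.inl h0
    right
    have h1 : x - algebraMap ℂ K z ∈ p.ring := p.ring.nonunits_le hz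
    have h2 := (hmem p _ h0).mp h1
    have h3 : (x - algebraMap ℂ K z)⁻¹ ∉ p.ring := by
      rcases not_nonunit hz with h | h
      · exact h
      · exact absurd h h0
    by_contra h4
    have h5 : e p (x - algebraMap ℂ K z) = 0 := by omega
    have h6 := he p _ h0
    rw [h5, zpow_zero, mul_one] at h6
    exact h3 h6.2
  · intro x hx
    refine (hFZP K hK x hx).subset ?_
    intro p hp hcon
    apply hp
    have h1 := huniq p x 0 hx (by rw [zpow_zero, mul_one]; exact hcon)
    show - e p x = 0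
    rw [h1, neg_zero]

end Pool.Agent.RTB.Crv
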