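import Pool.Agent.RTB.Crv.FFX
import Pool.Agent.RTB.Crv.DED
import Pool.Agent.RTB.Crv.LOC
import Pool.Agent.RTB.Crv.RES
import Pool.Agent.RTB.Crv.DVR
import Pool.Agent.RTB.Crv.FZP
import Pool.Agent.RTB.Crv.CONS
import Pool.Agent.RTB.Crv.VALO
import Pool.Agent.RTB.Crv.LPQ
import Pool.Agent.RTB.Crv.IDX
import Pool.Agent.RTB.Crv.LDV
import Pool.Agent.RTB.Crv.DGM
import Pool.Agent.RTB.Crv.POL
import Pool.Agent.RTB.Crv.ELL
import Pool.Agent.RTB.Crv.GNS
import Pool.Agent.RTB.Crv.TWI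
import Pool.Agent.RTB.Crv.CFM
import Pool.Agent.RTB.Crv.R2L
import Pool.Agent.RTB.Crv.R2D
import Pool.Agent.RTB.Crv.R2H
import Pool.Agent.RTB.Crv.SMH
import Pool.Agent.RTB.Crv.DEGS
import Pool.Agent.RTB.Crv.TAA
import Pool.Agent.RTB.Crv.TBU
import Pool.Agent.RTB.Crv.TCC
import Pool.Agent.RTB.Crv.GENB
import Pool.Agent.RTB.Crv.TDG
import Pool.Agent.RTB.Crv.PEN
import Pool.Agent.RTB.Crv.PEM
import Pool.Agent.RTB.Crv.TDD
import Pool.Agent.RTB.Crv.TAL
import Pool.Agent.RTB.Crv.TFM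
import Pool.Agent.RTB.Crv.TONE
import Pool.Agent.RTB.Crv.BTB
import Pool.Agent.RTB.Crv.BTG

/-!
# squad RTB: assembly of the curve theory part
-/

set_option autoImplicit false

namespace Pool.Agent.RTB.Crv

theorem hFFX : Stmt_FFX := ffx_proof
theorem hDED : Stmt_DED := ded_proof hFFX
theorem hLOC : Stmt_LOC := loc_proof
theorem hRES : Stmt_RES := res_proof hFFX
theorem hDVR : Stmt_DVR := dvr_proof hDED hLOC
theorem hFZP : Stmt_FZP := fzp_proof hDED hLOC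
theorem hCON : Stmt_CON := con_proof
theorem hVALO : Stmt_VALO := valo_proof hRES hDVR hFZP hCON
theorem hLPQ : Stmt_LPQ := lpq_proof
theorem hIDX : Stmt_IDX := idx_proof hLPQ
theorem hLDV : Stmt_LDV := ldv_proof hIDX
theorem hDGM : Stmt_DGM := dgm_proof hIDX
theorem hPOL : Stmt_POL := pol_proof
theorem hELL : Stmt_ELL := ell_proof hLPQ
theorem hGNS : Stmt_GNS := gns_proof hLDV hDGM
theorem hTWI : Stmt_TWI := twi_proof
theorem hCFM : Stmt_CFM := cfm_proof hGNS hDGM hPOL hELL hTWI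
theorem hR2L : Stmt_R2L := r2l_proof
theorem hR2D : Stmt_R2D := r2d_proof hR2L hIDX
theorem hR2H : Stmt_R2H := r2h_proof
theorem hSMH : Stmt_SMH := smh_proof hPOL
theorem hDEGS : Stmt_DEGS := degs_proof hR2D hDGM
theorem hTAA : Stmt_TAA := taa_proof hDEGS hR2H
theorem hTBU : Stmt_TBU := tbu_proof hDEGS hPOL
theorem hTCC : Stmt_TCC := tcc_proof hR2D hDGM hELL
theorem hGENB : Stmt_GENB := genb_proof
theorem hTDG : Stmt_TDG := tdg_proof hGENB hR2D hR2H hSMH hDGM hIDX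
theorem hPEN : Stmt_PEN := pen_proof
theorem hPEM : Stmt_PEM := pem_proof hPOL
theorem hTDD : Stmt_TDD := tdd_proof hTDG hPEN hPEM hTCC hR2D hDGM
theorem hTAL : Stmt_TAL := tal_proof hDEGS hPOL
theorem hTFM : Stmt_TFM := tfm_proof hTCC hR2D hDGM hPOL
theorem hTONE : Stmt_TONE := tone_proof hVALO hCFM hTAA hTBU hTCC hTDD hTAL hTFM hSMH
theorem hBTB : Stmt_BTB := btb_proof hVALO hCFM hPOL
theorem hBTG : Stmt_BTG := btg_proof hBTB

/-- the data of a bad bundle -/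
theorem tda : Pool.Agent.RTB.Stmt_TDA := hTONE

/-- the basis of the ring of a marked curve -/
theorem tbb : Pool.Agent.RTB.Stmt_TBB := hBTG

end Pool.Agent.RTB.Crv
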