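import Pool.Agent.RTB.Crv.Defs

/-!
# squad RTB: statements of the modules of the curve theory part (T1)

Module `XYZ` proves `theorem xyz_proof : Stmt_XYZ` (with the statements listed in `uses` as
hypotheses, in that order) in the file `Pool/Agent/RTB/Crv/XYZ.lean`, namespace
`Pool.Agent.RTB.Crv`.
-/

set_option autoImplicit false

namespace Pool.Agent.RTB.Crv

open Module

/-! ## Function fields and their points -/

/-- FFX: a function field is finite over every `ℂ(x)`, `x` not constant. -/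
def Stmt_FFX : Prop := ∀ (K : Type) [Field K] [Algebra ℂ K], IsFunctionField K → ∀ x : K,
  Transcendental ℂ x → FiniteDimensional (IntermediateField.adjoin ℂ {x}) K

/-- DED (uses FFX): the integral closure of `ℂ[x]`. -/
def Stmt_DED : Prop := ∀ (K : Type) [Field K] [Algebra ℂ K], IsFunctionField K → ∀ x : K,
  Transcendental ℂ x → ∃ B : Subalgebra ℂ K, x ∈ B ∧ IsDedekindDomain B ∧ IsFractionRing B K ∧
    ∀ p : Pt K, x ∈ p.ring → ∀ b ∈ B, b ∈ p.ring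

/-- LOC: a point over a Dedekind ring `B` is the localisation of `B` at a prime. -/
def Stmt_LOC : Prop := ∀ (K : Type) [Field K] [Algebra ℂ K] (B : Subalgebra ℂ K),
  IsDedekindDomain B → IsFractionRing B K → ∀ p : Pt K, (∀ b ∈ B, b ∈ p.ring) →
  (∀ y : K, y ∈ p.ring ↔ ∃ a ∈ B, ∃ b ∈ B, b ∉ p.ring.nonunits ∧ y = a / b) ∧
  ∃ t : K, t ≠ 0 ∧ t ∈ p.ring.nonunits ∧ ∀ x : K, x ≠ 0 →
    ∃ n : ℤ, x * t ^ n ∈ p.ring ∧ (x * t ^ n)⁻¹ ∈ p.ring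

/-- RES (uses FFX): the residue fields are `ℂ`. -/
def Stmt_RES : Prop := ∀ (K : Type) [Field K] [Algebra ℂ K], IsFunctionField K →
  ∀ (p : Pt K) (x : K), x ∈ p.ring → ∃ z : ℂ, x - algebraMap ℂ K z ∈ p.ring.nonunits

/-- DVR (uses DED LOC): the points are discrete valuation rings. -/
def Stmt_DVR : Prop := ∀ (K : Type) [Field K] [Algebra ℂ K], IsFunctionField K →
  ∀ p : Pt K, ∃ t : K, t ≠ 0 ∧ t ∈ p.ring.nonunits ∧ ∀ x : K, x ≠ 0 →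
    ∃ n : ℤ, x * t ^ n ∈ p.ring ∧ (x * t ^ n)⁻¹ ∈ p.ring

/-- FZP (uses DED LOC): finitely many zeros and poles. -/
def Stmt_FZP : Prop := ∀ (K : Type) [Field K] [Algebra ℂ K], IsFunctionField K →
  ∀ x : K, x ≠ 0 → {p : Pt K | ¬ (x ∈ p.ring ∧ x⁻¹ ∈ p.ring)}.Finite

/-- CON: functions without poles are constant. -/
def Stmt_CON : Prop := ∀ (K : Type) [Field K] [Algebra ℂ K], IsFunctionField K →
  ∀ x : K, (∀ p : Pt K, x ∈ p.ring) → ∃ z : ℂ, x = algebraMap ℂ K z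

/-- VAL0 (uses RES DVR FZP CON): order functions. -/
def Stmt_VALO : Prop := ∀ (K : Type) [Field K] [Algebra ℂ K], IsFunctionField K →
  Nonempty (Val K)

/-! ## Divisors -/

/-- LPQ: dimension of the local quotients. -/
def Stmt_LPQ : Prop := ∀ (K : Type) [Field K] [Algebra ℂ K] (V : Val K) (p : Pt K) (m n : ℤ),
  m ≤ n → V.Lp p m ≤ V.Lp p n ∧
  FiniteDimensional ℂ (V.Lp p n ⧸ ((V.Lp p m).comap (V.Lp p n).subtype)) ∧
  (finrank ℂ (V.Lp p n ⧸ ((V.Lp p m).comap (V.Lp p n).subtype)) : ℤ) = n - m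

/-- IDX (uses LPQ): the relative index. -/
def Stmt_IDX : Prop := ∀ (K : Type) [Field K] [Algebra ℂ K] (V : Val K) (p : Pt K) (n : ℤ),
  p.O = V.Lp p 0 ∧ idx (V.Lp p n) p.O = n ∧ (∀ m : ℤ, V.Lp p m = V.Lp p n → m = n)

/-- LDV (uses IDX): line bundles are divisors. -/
def Stmt_LDV : Prop := ∀ (K : Type) [Field K] [Algebra ℂ K] (V : Val K)
  (M : Pt K → Submodule ℂ K), IsLineBundle M ↔ ∃ D : Pt K →₀ ℤ, ∀ p, M p = V.Lp p (D p)

/-- DGM (uses IDX): degrees and sections of line bundles. -/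
def Stmt_DGM : Prop := ∀ (K : Type) [Field K] [Algebra ℂ K] (V : Val K)
  (M : Pt K → Submodule ℂ K) (D : Pt K →₀ ℤ), (∀ p, M p = V.Lp p (D p)) →
  deg M = dg D ∧ (h0 M : ℤ) = V.ell D ∧ (⨅ p, M p) = V.L D

/-- POL: the line bundles `polar`. -/
def Stmt_POL : Prop := ∀ (K : Type) [Field K] [Algebra ℂ K] (V : Val K) (p q : Pt K) (n : ℕ),
  polar p n q = V.Lp q (np p (n : ℤ) q) ∧ Rp p n = V.L (np p (n : ℤ))

/-- ELL (uses LPQ): finiteness and growth of `L D`. -/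
def Stmt_ELL : Prop := ∀ (K : Type) [Field K] [Algebra ℂ K] (V : Val K) (D D' : Pt K →₀ ℤ),
  D ≤ D' → V.L D ≤ V.L D' ∧ FiniteDimensional ℂ (V.L D') ∧
  V.ell D' ≤ V.ell D + (dg D' - dg D)

/-- GNS (uses LDV DGM): the genus in terms of divisors. -/
def Stmt_GNS : Prop := ∀ (K : Type) [Field K] [Algebra ℂ K] (V : Val K) (g : ℕ),
  IsGenus K g ↔ (∀ D : Pt K →₀ ℤ, dg D + 1 - V.ell D ≤ g) ∧
    ∃ D : Pt K →₀ ℤ, dg D + 1 - V.ell D = g

/-- TWI: multiplication by a function. -/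
def Stmt_TWI : Prop := ∀ (K : Type) [Field K] [Algebra ℂ K] (V : Val K) (D : Pt K →₀ ℤ)
  (f : K), f ≠ 0 → (∀ x : K, x ∈ V.L (D + V.dv f) ↔ f * x ∈ V.L D) ∧
  V.ell (D + V.dv f) = V.ell D ∧ dg (D + V.dv f) = dg D + dg (V.dv f) ∧
  V.dv f⁻¹ = - V.dv f

/-- CFM (uses GNS DGM POL ELL TWI): the facts on divisors on a marked curve. -/
def Stmt_CFM : Prop := ∀ (g : ℕ) (X : MarkedCurve g) (V : Val X.K), CF g V

/-! ## Bundles of rank two -/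

/-- R2L: local theory of rank two. -/
def Stmt_R2L : Prop := ∀ (K : Type) [Field K] [Algebra ℂ K] (V : Val K) (E : VB2 K) (p : Pt K)
  (s : Fin 2 → K), s ≠ 0 → ∃ m n d : ℤ, E.sub s p = V.Lp p m ∧ E.quo s p = V.Lp p n ∧
    E.det p = V.Lp p d ∧ m + n = d

/-- R2D (uses R2L IDX): the divisors of the sub line bundle, the quotient and the determinant. -/
def Stmt_R2D : Prop := ∀ (K : Type) [Field K] [Algebra ℂ K] (V : Val K) (E : VB2 K)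
  (s : Fin 2 → K), s ≠ 0 → ∃ DM DN Dd : Pt K →₀ ℤ, (∀ p, E.sub s p = V.Lp p (DM p)) ∧
    (∀ p, E.quo s p = V.Lp p (DN p)) ∧ (∀ p, E.det p = V.Lp p (Dd p)) ∧ DM + DN = Dd

/-- R2H: the sections of a twist of `E`. -/
def Stmt_R2H : Prop := ∀ (K : Type) [Field K] [Algebra ℂ K] (V : Val K) (E : VB2 K) (pt : Pt K)
  (s : Fin 2 → K) (DM DN : Pt K →₀ ℤ) (n : ℤ), s ≠ 0 → (∀ p, E.sub s p = V.Lp p (DM p)) →
  (∀ p, E.quo s p = V.Lp p (DN p)) → FiniteDimensional ℂ (V.L (DM + np pt n)) →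
  FiniteDimensional ℂ (V.L (DN + np pt n)) →
  FiniteDimensional ℂ (HE V E pt n) ∧
  (finrank ℂ (HE V E pt n) : ℤ) ≤ V.ell (DM + np pt n) + V.ell (DN + np pt n)

/-- SMH (uses POL): products of functions and sections. -/
def Stmt_SMH : Prop := ∀ (K : Type) [Field K] [Algebra ℂ K] (V : Val K) (E : VB2 K) (pt : Pt K)
  (W : Submodule ℂ (Fin 2 → K)) (n : ℕ), W ≤ E.H → smSp (Rp pt n) W ≤ HE V E pt (n : ℤ)

/-- The hypotheses on the bundle. -/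
structure GoodE {K : Type} [Field K] [Algebra ℂ K] (g : ℕ) (E : VB2 K) : Prop where
  ss : E.Semistable
  dg : deg E.det = 2 * (g : ℤ) - 2

/-- DEGS (uses R2D DGM): degrees for a semistable bundle. -/
def Stmt_DEGS : Prop := ∀ (K : Type) [Field K] [Algebra ℂ K] (V : Val K) (g : ℕ) (E : VB2 K)
  (s : Fin 2 → K), GoodE g E → s ≠ 0 → s ∈ E.H → ∃ DM DN Dd : Pt K →₀ ℤ,
    (∀ p, E.sub s p = V.Lp p (DM p)) ∧ (∀ p, E.quo s p = V.Lp p (DN p)) ∧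
    (∀ p, E.det p = V.Lp p (Dd p)) ∧ DM + DN = Dd ∧ dg Dd = 2 * (g : ℤ) - 2 ∧
    0 ≤ DM ∧ 0 ≤ dg DM ∧ dg DM ≤ (g : ℤ) - 1 ∧ dg DM + dg DN = 2 * (g : ℤ) - 2

/-- TAA (uses DEGS R2H): sections of a twist of a semistable bundle. -/
def Stmt_TAA : Prop := ∀ (K : Type) [Field K] [Algebra ℂ K] (V : Val K) (g : ℕ) (E : VB2 K)
  (pt : Pt K) (n : ℕ), 1 ≤ g → CF g V → GoodE g E → E.H ≠ ⊥ → 2 * g ≤ n →
  FiniteDimensional ℂ (HE V E pt (n : ℤ)) ∧ finrank ℂ (HE V E pt (n : ℤ)) ≤ 2 * n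

/-- TBU (uses DEGS POL): sections in a sub line bundle. -/
def Stmt_TBU : Prop := ∀ (K : Type) [Field K] [Algebra ℂ K] (V : Val K) (g : ℕ) (E : VB2 K)
  (pt : Pt K) (U : Submodule ℂ (Fin 2 → K)) (n : ℕ), 1 ≤ g → CF g V → GoodE g E → U ≤ E.H →
  (∀ u ∈ U, ∀ v ∈ U, det2 u v = 0) → 2 * g ≤ n →
  FiniteDimensional ℂ (smSp (Rp pt n) U) ∧ finrank ℂ (smSp (Rp pt n) U) ≤ n

/-- TCC (uses R2D DGM ELL): determinants of sections. -/
def Stmt_TCC : Prop := ∀ (K : Type) [Field K] [Algebra ℂ K] (_ : Val K) (E : VB2 K)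
  (W : Submodule ℂ (Fin 2 → K)), W ≤ E.H → dets W ≤ (⨅ p, E.det p) ∧
    FiniteDimensional ℂ (dets W) ∧ finrank ℂ (dets W) ≤ h0 E.det

/-- GENB: the subsheaf generated by sections. -/
def Stmt_GENB : Prop := ∀ (K : Type) [Field K] [Algebra ℂ K] (_ : Val K)
  (W : Submodule ℂ (Fin 2 → K)), FiniteDimensional ℂ W → (∃ v ∈ W, ∃ w ∈ W, det2 v w ≠ 0) →
  ∃ E : VB2 K, (∀ p, E.fib p = gnV p W) ∧ W ≤ E.H ∧ ∀ p, E.det p = gnK p (dets W)

/-- TDG (uses GENB R2D R2H SMH DGM IDX): if `E` has as few sections as possible, the determinant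
is generated by the determinants of the sections. -/
def Stmt_TDG : Prop := ∀ (K : Type) [Field K] [Algebra ℂ K] (V : Val K) (g : ℕ) (E : VB2 K)
  (pt : Pt K) (W : Submodule ℂ (Fin 2 → K)) (n : ℕ), 1 ≤ g → CF g V → GoodE g E → W ≤ E.H →
  FiniteDimensional ℂ W → (∃ v ∈ W, ∃ w ∈ W, det2 v w ≠ 0) → 2 * g ≤ n →
  finrank ℂ (smSp (Rp pt n) W) = 2 * n → ∀ p, E.det p = gnK p (dets W)

/-- PEN: a pencil without base points. -/
def Stmt_PEN : Prop := ∀ (K : Type) [Field K] [Algebra ℂ K] (V : Val K) (_ : Pt K)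
  (D : Pt K →₀ ℤ) (W : Submodule ℂ K), (∀ p, V.Lp p (D p) = gnK p W) → FiniteDimensional ℂ W →
  ∃ w1 ∈ W, ∃ w2 ∈ W, w1 ≠ 0 ∧ w2 ≠ 0 ∧ ∀ p, V.ord p w1 = - D p ∨ V.ord p w2 = - D p

/-- PEM (uses POL): the base point free pencil trick. -/
def Stmt_PEM : Prop := ∀ (K : Type) [Field K] [Algebra ℂ K] (V : Val K) (g : ℕ) (pt : Pt K)
  (D : Pt K →₀ ℤ) (W : Submodule ℂ K) (w1 w2 : K) (m : ℕ), 1 ≤ g → CF g V →
  dg D = 2 * (g : ℤ) - 2 → W ≤ V.L D → w1 ∈ W → w2 ∈ W → w1 ≠ 0 → w2 ≠ 0 →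
  (∀ p, V.ord p w1 = - D p ∨ V.ord p w2 = - D p) → 4 * g ≤ m →
  finrank ℂ (Rp pt m * W : Submodule ℂ K) = m + g - 1

/-- TDD (uses TDG PEN PEM TCC R2D DGM): property (d). -/
def Stmt_TDD : Prop := ∀ (K : Type) [Field K] [Algebra ℂ K] (V : Val K) (g : ℕ) (E : VB2 K)
  (pt : Pt K) (W : Submodule ℂ (Fin 2 → K)) (n m : ℕ), 1 ≤ g → CF g V →
  GoodE g E → W ≤ E.H → FiniteDimensional ℂ W → (∃ v ∈ W, ∃ w ∈ W, det2 v w ≠ 0) →
  2 * g ≤ n → finrank ℂ (smSp (Rp pt n) W) = 2 * n → 4 * g ≤ m →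
  finrank ℂ (Rp pt m * dets W : Submodule ℂ K) = m + g - 1

/-- TAL (uses DEGS POL): the case of sections in a sub line bundle. -/
def Stmt_TAL : Prop := ∀ (K : Type) [Field K] [Algebra ℂ K] (V : Val K) (g k : ℕ) (E : VB2 K)
  (pt : Pt K) (W : Submodule ℂ (Fin 2 → K)), 1 ≤ g → CF g V → GoodE g E → W ≤ E.H → 1 ≤ k →
  finrank ℂ W = k → (∀ u ∈ W, ∀ v ∈ W, det2 u v = 0) → ∃ U : Submodule ℂ K,
  U ≤ Rp pt (3 * g) ∧ finrank ℂ U = k ∧
  ∀ n, 2 * g ≤ n → finrank ℂ (Rp pt n * U : Submodule ℂ K) ≤ n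

/-- TFM (uses TCC R2D DGM POL): a common denominator of the determinants. -/
def Stmt_TFM : Prop := ∀ (K : Type) [Field K] [Algebra ℂ K] (V : Val K) (g : ℕ) (E : VB2 K)
  (pt : Pt K) (W : Submodule ℂ (Fin 2 → K)), CF g V → GoodE g E → W ≤ E.H →
  ∃ f : K, f ≠ 0 ∧ ∀ w ∈ dets W, f * w ∈ Rp pt (3 * g)

/-- TONE (uses VALO CFM TAA TBU TCC TDD TAL TFM SMH): the linear algebra data of a bad bundle on
a marked curve; proves `Stmt_TDA` of `KDefs`. -/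
def Stmt_TONE : Prop := Pool.Agent.RTB.Stmt_TDA

/-! ## The basis of the ring of functions regular outside the marked point -/

/-- BTB (uses VALO CFM POL): the basis. -/
def Stmt_BTB : Prop := ∀ (g : ℕ) (X : MarkedCurve g), 1 ≤ g → LinearIndependent ℂ X.β ∧
  (∀ n, X.R n = Rn ℂ g X.β n) ∧ (∀ j, X.β j ∈ X.R (g + j)) ∧
  ∀ m n (x y : X.K), x ∈ X.R m → y ∈ X.R n → x * y ∈ X.R (m + n)

/-- BTG (uses BTB): the multiplication table; proves `Stmt_TBB` of `KDefs`. -/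
def Stmt_BTG : Prop := Pool.Agent.RTB.Stmt_TBB

end Pool.Agent.RTB.Crv
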