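import Pool.Agent.RTB.Crv.Stmts

set_option autoImplicit false

namespace Pool.Agent.RTB.Crv

open Module

theorem TFM_.dg_sub {K : Type} [Field K] [Algebra ℂ K] (D D' : Pt K →₀ ℤ) :
    dg (D - D') = dg D - dg D' := by
  unfold dg
  exact Finsupp.sum_sub_index (fun _ _ _ => rfl)

theorem TFM_.dg_np {K : Type} [Field K] [Algebra ℂ K] (p : Pt K) (n : ℤ) :
    dg (np p n) = n := by
  unfold dg np
  exact Finsupp.sum_single_index rfl

theorem tfm_proof (hTCC : Stmt_TCC) (hR2D : Stmt_R2D) (hDGM : Stmt_DGM) (hPOL : Stmt_POL) :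
    Stmt_TFM := by
  intro K _ _ V g E pt W hCF hE hW
  obtain ⟨DM, DN, Dd, -, -, hDd, -⟩ := hR2D K V E ![1, 0] (by
    intro h
    have := congrFun h 0
    simp at this)
  obtain ⟨h2, -, h4⟩ := hDGM K V E.det Dd hDd
  have h7 : dg Dd = 2 * (g : ℤ) - 2 := by rw [← h2]; exact hE.dg
  obtain ⟨h5, h6, -⟩ := hTCC K V E W hW
  have h8 := hCF.riem (np pt ((3 * g : ℕ) : ℤ) - Dd)
  rw [TFM_.dg_sub, TFM_.dg_np, h7] at h8
  have h9 : 0 < V.ell (np pt ((3 * g : ℕ) : ℤ) - Dd) := by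
    have h9 : ((3 * g : ℕ) : ℤ) = 3 * (g : ℤ) := by push_cast; ring
    linarith
  have h10 : V.L (np pt ((3 * g : ℕ) : ℤ) - Dd) ≠ ⊥ := by
    intro h
    rw [Val.ell, h, finrank_bot] at h9
    simp at h9
  obtain ⟨f, hf, hf0⟩ := Submodule.exists_mem_ne_zero_of_ne_bot h10
  refine ⟨f, hf0, fun w hw => ?_⟩
  rw [(hPOL K V pt pt (3 * g)).2, V.mem_L]
  intro p
  have h11 : w ∈ V.L Dd := by rw [← h4]; exact h5 hw
  rw [V.mem_L] at h11 hf
  have h12 := h11 p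
  have h13 := hf p
  rw [V.mem_Lp] at h12 h13 ⊢
  rcases h12 with h12 | h12
  · left; rw [h12, mul_zero]
  rcases h13 with h13 | h13
  · exact absurd h13 hf0
  by_cases hw0 : w = 0
  · left; rw [hw0, mul_zero]
  right
  rw [V.mul p f w hf0 hw0]
  rw [Finsupp.sub_apply] at h13
  linarith

end Pool.Agent.RTB.Crv
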