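import Pool.Agent.RTB.Crv.Stmts

set_option autoImplicit false

namespace Pool.Agent.RTB.Crv

open Module

theorem twi_proof : Stmt_TWI := by
  intro K _ _ V D f hf
  have h1 : ∀ x : K, x ∈ V.L (D + V.dv f) ↔ f * x ∈ V.L D := by
    intro x
    rw [V.mem_L, V.mem_L]
    refine forall_congr' (fun p => ?_)
    rw [V.mem_Lp, V.mem_Lp, Finsupp.add_apply, V.dv_apply hf]
    by_cases hx : x = 0
    · simp [hx]
    rw [V.mul p f x hf hx]
    constructor
    · rintro (h | h)
      · exact absurd h hx
      · right; linarith
    · rintro (h | h)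
      · exact absurd h (mul_ne_zero hf hx)
      · right; linarith
  refine ⟨h1, ?_, ?_, ?_⟩
  · have e : V.L (D + V.dv f) ≃ₗ[ℂ] V.L D :=
      { toFun := fun x => ⟨f * x, (h1 x).mp x.2⟩
        invFun := fun y => ⟨f⁻¹ * y, (h1 _).mpr (by rw [mul_inv_cancel_left₀ hf]; exact y.2)⟩
        left_inv := fun x => by
          apply Subtype.ext
          show f⁻¹ * (f * (x : K)) = x
          rw [inv_mul_cancel_left₀ hf]
        right_inv := fun y => by
          apply Subtype.ext
          show f * (f⁻¹ * (y : K)) = y
          rw [mul_inv_cancel_left₀ hf]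
        map_add' := fun x y => by
          apply Subtype.ext
          show f * ((x : K) + y) = f * x + f * y
          ring
        map_smul' := fun z x => by
          apply Subtype.ext
          show f * (z • (x : K)) = z • (f * (x : K))
          rw [Algebra.smul_def, Algebra.smul_def]
          ring }
    unfold Val.ell
    rw [e.finrank_eq]
  · unfold dg
    exact Finsupp.sum_add_index' (fun _ => rfl) (fun _ _ _ => rfl)
  · ext p
    rw [V.dv_apply (inv_ne_zero hf), V.ord_inv p hf, Finsupp.neg_apply, V.dv_apply hf]

end Pool.Agent.RTB.Crv
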